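import Pool.Agent.Helper1.TS.Defs

/-!
BLOCK TS-COMB (about 200 lines). Pure combinatorics of lists (section 3 of the proof text, part COMB).

Proofs in words. `S` is a set of lists of reals with the axioms `OV`.
* MOVE: if `l₁ ++ m ++ b :: l₂ ∈ S` and all elements of the list `m` are different from `b`, `b + 1`, `b - 1`, then
  `l₁ ++ b :: m ++ l₂ ∈ S` (induction on `m`, last element first, axiom `swap`), similarly to the right.
* C3: if `l₁ ++ a :: m ++ a :: l₂ ∈ S` then `a + 1 ∈ m` and `a - 1 ∈ m`. Strong induction on the length of `m` (for all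
  `a, l₁, l₂`): if `a ∈ m`, split `m` at it and use induction for the first part. Otherwise `a + 1` occurs at most once in `m`:
  two occurrences have, by induction for the value `a + 1` and the part of `m` between them, the value `a` between
  them. In the same way `a - 1` occurs at most once. If neither occurs, move the second `a` to the left next to the first one:
  contradiction to `ne`. If exactly one of them occurs, move both `a` next to it: contradiction to `no1` or `no2`.
* C2: if `l₁ ++ b :: l₂ ∈ S` and `l₁ ≠ []` then `b + 1 ∈ l₁` or `b - 1 ∈ l₁`: if `b ∈ l₁` use C3 (from an occurrence of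
  `b` in `l₁`); otherwise, if neither is in `l₁`, move `b` to the front: `b = 0` by `head`, but the first element of `l₁` is `0`
  too, contradiction to `b ∉ l₁`.
* `int`: induction along the list, C2 and `head`.
* INTERVAL: if `l₁ ++ b :: l₂ ∈ S` and `(z : ℕ)` with `(z : ℝ) ≤ b`, then `z ∈ l₁ ++ [b]` (induction; the
  elements of an initial segment form an interval of integers containing `0`; C2).
* `run`: by induction on `j ≤ z`: some rearrangement of `l` in `S` starts with `0, 1, ..., j`. Step: `l' = [0..j] ++ m`, `z ∈ l'`,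
  `j + 1 ≤ z`; by INTERVAL `j + 1 ∈ m`; take its first occurrence `m = m₁ ++ (j+1) :: m₂`. An element `x` of `m₁` is an
  integer, is not `≥ j + 1` (INTERVAL: then `j + 1` would occur in `m₁` or before; it is not in `[0..j]`), is not `j`
  (C3 for the two occurrences of `j` gives `j + 1` between them, in `m₁`): so `x ≤ j - 1` and MOVE brings `j + 1` to the left.
* `run_neg`: apply `run` to `{l | l.map (- ·) ∈ S}`.
-/

set_option autoImplicit false

namespace Pool.Agent.Helper1.TS

private lemma mvL {S : Set (List ℝ)} (h : OV S) (b : ℝ) (m : List ℝ) :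
    ∀ l₁ l₂ : List ℝ, l₁ ++ (m ++ b :: l₂) ∈ S → (∀ x ∈ m, x ≠ b + 1 ∧ x ≠ b - 1) →
      l₁ ++ b :: (m ++ l₂) ∈ S := by
  induction m using List.reverseRecOn with
  | nil => intro l₁ l₂ h1 _; simpa using h1
  | append_singleton m x ih =>
    intro l₁ l₂ h1 h2
    have hx := h2 x (by simp)
    have h3 : (l₁ ++ m) ++ x :: b :: l₂ ∈ S := by
      simpa [List.append_assoc] using h1
    have h4 := h.swap (l₁ ++ m) l₂ x b h3 (fun hh => hx.2 (by linarith)) (fun hh => hx.1 (by linarith))
    have h5 := ih l₁ (x :: l₂) (by simpa [List.append_assoc] using h4)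
      (fun y hy => h2 y (List.mem_append_left _ hy))
    simpa [List.append_assoc] using h5

private lemma mvR {S : Set (List ℝ)} (h : OV S) (b : ℝ) (m : List ℝ) :
    ∀ l₁ l₂ : List ℝ, l₁ ++ b :: (m ++ l₂) ∈ S → (∀ x ∈ m, x ≠ b + 1 ∧ x ≠ b - 1) →
      l₁ ++ (m ++ b :: l₂) ∈ S := by
  induction m with
  | nil => intro l₁ l₂ h1 _; simpa using h1
  | cons x m ih =>
    intro l₁ l₂ h1 h2
    have hx := h2 x (by simp)
    have h3 : l₁ ++ b :: x :: (m ++ l₂) ∈ S := by simpa using h1
    have h4 := h.swap l₁ (m ++ l₂) b x h3 hx.1 hx.2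
    have h5 := ih (l₁ ++ [x]) l₂ (by simpa [List.append_assoc] using h4)
      (fun y hy => h2 y (List.mem_cons_of_mem _ hy))
    simpa [List.append_assoc] using h5

private lemma C3 {S : Set (List ℝ)} (h : OV S) : ∀ (N : ℕ) (m : List ℝ), m.length = N →
    ∀ (a : ℝ) (l₁ l₂ : List ℝ), l₁ ++ a :: (m ++ a :: l₂) ∈ S → a + 1 ∈ m ∧ a - 1 ∈ m := by
  intro N
  induction N using Nat.strong_induction_on with
  | _ N ih =>
    intro m hm a l₁ l₂ hS
    by_cases ha : a ∈ m
    · obtain ⟨u, v, rfl⟩ := List.append_of_mem ha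
      have h1 := ih u.length (by rw [← hm]; simp) u rfl a l₁ (v ++ a :: l₂)
        (by simpa [List.append_assoc] using hS)
      exact ⟨List.mem_append_left _ h1.1, List.mem_append_left _ h1.2⟩
    · -- the values `a + 1` and `a - 1` occur at most once
      have key : ∀ c : ℝ, (c = a + 1 ∨ c = a - 1) → ∀ u v : List ℝ, m = u ++ c :: v → c ∉ v := by
        intro c hc u v hmu hcv
        obtain ⟨w, t, rfl⟩ := List.append_of_mem hcv
        have h1 := ih w.length (by rw [← hm, hmu]; simp; omega) w rfl c (l₁ ++ a :: u)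
          (t ++ a :: l₂) (by rw [hmu] at hS; simpa [List.append_assoc] using hS)
        apply ha
        rw [hmu]
        rcases hc with hc | hc
        · have h2 : a ∈ w := by
            have := h1.2
            rwa [hc, add_sub_cancel_right] at this
          simp [h2]
        · have h2 : a ∈ w := by
            have := h1.1
            rwa [hc, sub_add_cancel] at this
          simp [h2]
      by_cases h1 : a + 1 ∈ m
      · by_cases h2 : a - 1 ∈ m
        · exact ⟨h1, h2⟩
        · exfalso
          obtain ⟨u, v, hmu, hu⟩ := List.eq_append_cons_of_mem h1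
          have hv := key (a + 1) (Or.inl rfl) u v hmu
          rw [hmu] at hS h2
          have h3 : (l₁ ++ a :: u ++ [a + 1]) ++ (v ++ a :: l₂) ∈ S := by
            simpa [List.append_assoc] using hS
          have h4 := mvL h a v _ _ h3 (fun x hx => ⟨fun e => hv (e ▸ hx), fun e => h2 (by simp [← e, hx])⟩)
          have h5 : l₁ ++ a :: (u ++ (a + 1) :: a :: (v ++ l₂)) ∈ S := by
            simpa [List.append_assoc] using h4
          have h6 := mvR h a u _ _ h5 (fun x hx => ⟨fun e => hu (e ▸ hx), fun e => h2 (by simp [← e, hx])⟩)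
          exact h.no1 (l₁ ++ u) (v ++ l₂) a (by simpa [List.append_assoc] using h6)
      · by_cases h2 : a - 1 ∈ m
        · exfalso
          obtain ⟨u, v, hmu, hu⟩ := List.eq_append_cons_of_mem h2
          have hv := key (a - 1) (Or.inr rfl) u v hmu
          rw [hmu] at hS h1
          have h3 : (l₁ ++ a :: u ++ [a - 1]) ++ (v ++ a :: l₂) ∈ S := by
            simpa [List.append_assoc] using hS
          have h4 := mvL h a v _ _ h3 (fun x hx => ⟨fun e => h1 (by simp [← e, hx]), fun e => hv (e ▸ hx)⟩)
          have h5 : l₁ ++ a :: (u ++ (a - 1) :: a :: (v ++ l₂)) ∈ S := by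
            simpa [List.append_assoc] using h4
          have h6 := mvR h a u _ _ h5 (fun x hx => ⟨fun e => h1 (by simp [← e, hx]), fun e => hu (e ▸ hx)⟩)
          exact h.no2 (l₁ ++ u) (v ++ l₂) a (by simpa [List.append_assoc] using h6)
        · exfalso
          have h3 : (l₁ ++ [a]) ++ (m ++ a :: l₂) ∈ S := by simpa [List.append_assoc] using hS
          have h4 := mvL h a m _ _ h3 (fun x hx => ⟨fun e => h1 (e ▸ hx), fun e => h2 (e ▸ hx)⟩)
          exact h.ne l₁ (m ++ l₂) a (by simpa [List.append_assoc] using h4)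

private lemma C2 {S : Set (List ℝ)} (h : OV S) (l₁ l₂ : List ℝ) (b : ℝ)
    (hS : l₁ ++ b :: l₂ ∈ S) (hl : l₁ ≠ []) : b + 1 ∈ l₁ ∨ b - 1 ∈ l₁ := by
  by_cases hb : b ∈ l₁
  · obtain ⟨u, v, rfl⟩ := List.append_of_mem hb
    have h1 := C3 h v.length v rfl b u l₂ (by simpa [List.append_assoc] using hS)
    left
    simp [h1.1]
  · by_contra hcon
    push Not at hcon
    have h1 := mvL h b l₁ [] l₂ (by simpa using hS)
      (fun x hx => ⟨fun e => hcon.1 (e ▸ hx), fun e => hcon.2 (e ▸ hx)⟩)
    have h2 : b = 0 := h.head b (l₁ ++ l₂) (by simpa using h1)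
    obtain ⟨c, l, rfl⟩ := List.exists_cons_of_ne_nil hl
    have h3 : c = 0 := h.head c (l ++ b :: l₂) (by simpa using hS)
    exact hb (by simp [h2, h3])

private lemma int_aux {S : Set (List ℝ)} (h : OV S) (l₁ : List ℝ) :
    ∀ l₂ : List ℝ, l₁ ++ l₂ ∈ S → ∀ x ∈ l₁, ∃ z : ℤ, x = z := by
  induction l₁ using List.reverseRecOn with
  | nil => intro l₂ _ x hx; simp at hx
  | append_singleton u b ih =>
    intro l₂ hS x hx
    have hS' : u ++ b :: l₂ ∈ S := by simpa [List.append_assoc] using hS
    have hI := ih (b :: l₂) hS'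
    rw [List.mem_append, List.mem_singleton] at hx
    rcases hx with hx | rfl
    · exact hI x hx
    · by_cases hu : u = []
      · subst hu
        exact ⟨0, by simpa using h.head x l₂ (by simpa using hS')⟩
      · rcases C2 h u l₂ x hS' hu with h1 | h1
        · obtain ⟨z, hz⟩ := hI _ h1
          exact ⟨z - 1, by push_cast; linarith⟩
        · obtain ⟨z, hz⟩ := hI _ h1
          exact ⟨z + 1, by push_cast; linarith⟩

private lemma interval {S : Set (List ℝ)} (h : OV S) : ∀ (N : ℕ) (l₁ : List ℝ), l₁.length = N →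
    ∀ (l₂ : List ℝ) (b : ℝ) (z : ℕ), l₁ ++ b :: l₂ ∈ S → (z : ℝ) ≤ b → (z : ℝ) ∈ l₁ ++ [b] := by
  intro N
  induction N using Nat.strong_induction_on with
  | _ N ih =>
    intro l₁ hl l₂ b z hS hz
    by_cases hzb : (z : ℝ) = b
    · rw [hzb]; simp
    by_cases hl0 : l₁ = []
    · subst hl0
      have hb : b = 0 := h.head b l₂ (by simpa using hS)
      exfalso
      apply hzb
      have h0 : (0 : ℝ) ≤ z := Nat.cast_nonneg z
      linarith
    rcases C2 h l₁ l₂ b hS hl0 with h1 | h1
    · obtain ⟨u, v, rfl⟩ := List.append_of_mem h1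
      have h2 := ih u.length (by rw [← hl]; simp) u rfl (v ++ b :: l₂) (b + 1) z
        (by simpa [List.append_assoc] using hS) (by linarith)
      rw [List.mem_append, List.mem_singleton] at h2
      rcases h2 with h2 | h2
      · simp [h2]
      · simp [h2]
    · obtain ⟨w, hw⟩ := int_aux h (l₁ ++ [b]) l₂ (by simpa [List.append_assoc] using hS) b (by simp)
      have hzw : (z : ℤ) ≤ w - 1 := by
        have h3 : (z : ℝ) < w := lt_of_le_of_ne (by rw [← hw]; exact hz) (by rw [← hw]; exact hzb)
        have h4 : (z : ℤ) < w := by exact_mod_cast h3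
        omega
      have hzb' : (z : ℝ) ≤ b - 1 := by
        rw [hw]
        exact_mod_cast hzw
      obtain ⟨u, v, rfl⟩ := List.append_of_mem h1
      have h2 := ih u.length (by rw [← hl]; simp) u rfl (v ++ b :: l₂) (b - 1) z
        (by simpa [List.append_assoc] using hS) hzb'
      rw [List.mem_append, List.mem_singleton] at h2
      rcases h2 with h2 | h2
      · simp [h2]
      · simp [h2]

private lemma run_aux {S : Set (List ℝ)} (h : OV S) {l : List ℝ} (hl : l ∈ S) {z : ℕ}
    (hz : (z : ℝ) ∈ l) : ∀ j : ℕ, j ≤ z →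
    ∃ l' : List ℝ, l'.length + (j + 1) = l.length ∧
      ((List.range (j + 1)).map (fun i : ℕ => (i : ℝ)) ++ l') ∈ S ∧
      (z : ℝ) ∈ ((List.range (j + 1)).map (fun i : ℕ => (i : ℝ)) ++ l') := by
  intro j
  induction j with
  | zero =>
    intro _
    obtain ⟨c, t, rfl⟩ := List.exists_cons_of_ne_nil (List.ne_nil_of_mem hz)
    have hc : c = 0 := h.head c t hl
    subst hc
    exact ⟨t, by simp, by simpa using hl, by simpa using hz⟩
  | succ j ih =>
    intro hj
    obtain ⟨m, hlen, hS, hzm⟩ := ih (by omega)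
    set R := (List.range (j + 1)).map (fun i : ℕ => (i : ℝ)) with hR
    have hRn : ((j + 1 : ℕ) : ℝ) ∉ R := by
      rw [hR, List.mem_map]
      rintro ⟨i, hi, he⟩
      rw [List.mem_range] at hi
      have : i = j + 1 := by exact_mod_cast he
      omega
    have hR' : R = (List.range j).map (fun i : ℕ => (i : ℝ)) ++ [(j : ℝ)] := by
      rw [hR, List.range_succ, List.map_append]
      simp
    have hjm : ((j + 1 : ℕ) : ℝ) ∈ m := by
      obtain ⟨s, t, hst⟩ := List.append_of_mem hzm
      have h1 := interval h s.length s rfl t z (j + 1) (by rw [← hst]; exact hS)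
        (by exact_mod_cast hj)
      have h2 : ((j + 1 : ℕ) : ℝ) ∈ R ++ m := by
        rw [hst]
        rw [List.mem_append, List.mem_singleton] at h1
        rcases h1 with h1 | h1
        · exact List.mem_append_left _ h1
        · rw [h1]; simp
      rw [List.mem_append] at h2
      exact h2.resolve_left hRn
    obtain ⟨u, v, hm, hu⟩ := List.eq_append_cons_of_mem hjm
    have hx : ∀ x ∈ u, x ≠ ((j + 1 : ℕ) : ℝ) + 1 ∧ x ≠ ((j + 1 : ℕ) : ℝ) - 1 := by
      intro x hxu
      obtain ⟨p, q, hpq⟩ := List.append_of_mem hxu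
      constructor
      · intro hxe
        have h1 := interval h (R ++ p).length (R ++ p) rfl (q ++ ((j + 1 : ℕ) : ℝ) :: v) x (j + 1)
          (by rw [hm, hpq] at hS; simpa [List.append_assoc] using hS) (by rw [hxe]; linarith)
        rw [List.mem_append, List.mem_append, List.mem_singleton] at h1
        rcases h1 with (h1 | h1) | h1
        · exact hRn h1
        · exact hu (by rw [hpq]; exact List.mem_append_left _ h1)
        · rw [hxe] at h1; linarith
      · intro hxe
        have hxj : x = (j : ℝ) := by rw [hxe]; push_cast; ring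
        have h1 := C3 h p.length p rfl (j : ℝ) ((List.range j).map (fun i : ℕ => (i : ℝ)))
          (q ++ ((j + 1 : ℕ) : ℝ) :: v)
          (by rw [hm, hpq, hxj, hR'] at hS; simpa [List.append_assoc] using hS)
        apply hu
        rw [hpq]
        have h2 : ((j + 1 : ℕ) : ℝ) ∈ p := by
          have := h1.1
          push_cast
          exact this
        exact List.mem_append_left _ h2
    have h1 := mvL h ((j + 1 : ℕ) : ℝ) u R v (by rw [hm] at hS; exact hS) hx
    have hR2 : (List.range (j + 1 + 1)).map (fun i : ℕ => (i : ℝ)) = R ++ [((j + 1 : ℕ) : ℝ)] := by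
      rw [List.range_succ, List.map_append, hR]
      simp
    refine ⟨u ++ v, ?_, ?_, ?_⟩
    · rw [← hlen, hm]
      simp
      omega
    · rw [hR2]
      simpa [List.append_assoc] using h1
    · rw [hR2]
      rw [hm] at hzm
      simp only [List.mem_append, List.mem_cons] at hzm ⊢
      simp only [List.not_mem_nil, or_false]
      tauto

theorem OV.int {S : Set (List ℝ)} (h : OV S) {l : List ℝ} (hl : l ∈ S) {a : ℝ} (ha : a ∈ l) :
    ∃ z : ℤ, a = z := by
  exact int_aux h l [] (by simpa using hl) a ha

theorem OV.run {S : Set (List ℝ)} (h : OV S) {l : List ℝ} (hl : l ∈ S) {z : ℕ}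
    (hz : (z : ℝ) ∈ l) :
    ∃ l' : List ℝ, l'.length + (z + 1) = l.length ∧
      ((List.range (z + 1)).map (fun i : ℕ => (i : ℝ)) ++ l') ∈ S := by
  obtain ⟨l', h1, h2, _⟩ := run_aux h hl hz z le_rfl
  exact ⟨l', h1, h2⟩

theorem OV.run_neg {S : Set (List ℝ)} (h : OV S) {l : List ℝ} (hl : l ∈ S) {z : ℕ}
    (hz : (-(z : ℝ)) ∈ l) :
    ∃ l' : List ℝ, l'.length + (z + 1) = l.length ∧
      ((List.range (z + 1)).map (fun i : ℕ => -(i : ℝ)) ++ l') ∈ S := by
  have hS' : OV {l : List ℝ | l.map (fun x => -x) ∈ S} := by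
    refine ⟨?_, ?_, ?_, ?_, ?_⟩
    · intro a l ha
      have h1 : (-a) :: l.map (fun x => -x) ∈ S := by simpa using ha
      have h2 := h.head _ _ h1
      linarith
    · intro l₁ l₂ a ha
      exact h.ne (l₁.map (fun x => -x)) (l₂.map (fun x => -x)) (-a) (by simpa using ha)
    · intro l₁ l₂ a b hab h1 h2
      have h3 := h.swap (l₁.map (fun x => -x)) (l₂.map (fun x => -x)) (-a) (-b)
        (by simpa using hab) (fun e => h2 (by linarith)) (fun e => h1 (by linarith))
      simpa using h3
    · intro l₁ l₂ a ha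
      refine h.no2 (l₁.map (fun x => -x)) (l₂.map (fun x => -x)) (-a) ?_
      have e : -a - 1 = -(a + 1) := by ring
      rw [e]
      simpa using ha
    · intro l₁ l₂ a ha
      refine h.no1 (l₁.map (fun x => -x)) (l₂.map (fun x => -x)) (-a) ?_
      have e : -a + 1 = -(a - 1) := by ring
      rw [e]
      simpa using ha
  have hl' : l.map (fun x => -x) ∈ {l : List ℝ | l.map (fun x => -x) ∈ S} := by
    show (l.map (fun x => -x)).map (fun x => -x) ∈ S
    rw [List.map_map]
    have : ((fun x : ℝ => -x) ∘ fun x => -x) = id := by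
      funext x
      simp
    rw [this, List.map_id]
    exact hl
  obtain ⟨l', h1, h2, _⟩ := run_aux hS' hl' (z := z)
    (List.mem_map.mpr ⟨_, hz, by ring⟩) z le_rfl
  refine ⟨l'.map (fun x => -x), by simpa using h1, ?_⟩
  have h3 : ((List.range (z + 1)).map (fun i : ℕ => (i : ℝ)) ++ l').map (fun x => -x) ∈ S := h2
  rw [List.map_append, List.map_map] at h3
  exact h3

end Pool.Agent.Helper1.TS
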