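import Pool.Agent.Helper1.TS.JE
import Pool.Agent.Helper1.TS.COMB

/-!
BLOCK TS-JB (about 150 lines). The contents are small.

Proof in words. Let `S` be the set of all lists `(List.ofFn c).reverse` with `c` such that `IsJE ρ c v` for some `v`. It
satisfies `OV` (the rules of `JE.lean`; the entry number `t` of the list is `c (m - 1 - t)`; consecutive entries `a, b` of the list
are `a = c j`, `b = c i` with `j = i + 1`).
Suppose `k ≤ |c i|`. By `OV.int` `c i` is an integer. If `c i = z ≥ k`, then by `OV.run` some list in `S` starts with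
`0, 1, ..., z`, so `z + 1 ≤ m`, and for its eigenvector `w` we have by `je_up` `ρ (swap i j) w = w` for all neighbours `i`,
`j = i + 1` with `i ≥ m - 1 - z`; these transpositions generate the permutations of the last `z + 1` points, so all
permutations with support in the last `k` points fix `w` (e.g. the set of `x` with `ρ x w = w` is a subgroup;
`Equiv.Perm.closure...`, or induction: first all transpositions `(i j)` by induction on `j - i`, then `swap_induction_on`).
This contradicts `Bal ρ k` (with `K` = the last `k` points). If `c i ≤ -k` the same with `run_neg`, `je_down` and the sign.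
-/

set_option autoImplicit false

open Module Equiv

namespace Pool.Agent.Helper1.TS

variable {m : ℕ} {V : Type*} [AddCommGroup V] [Module ℂ V] [FiniteDimensional ℂ V]

namespace JBaux

omit [FiniteDimensional ℂ V] in
/-- Adjacent transpositions of the last points generate all permutations of them. -/
theorem gen (ρ : Representation ℂ (Perm (Fin m)) V) (w : V) (s : Perm (Fin m) →* ℤˣ) (N : ℕ)
    (h : ∀ i j : Fin m, (j : ℕ) = i + 1 → N ≤ (i : ℕ) →
      ρ (Equiv.swap i j) w = ((s (Equiv.swap i j) : ℤ) : ℂ) • w)
    (x : Perm (Fin m)) (hx : ∀ y, x y ≠ y → N ≤ (y : ℕ)) :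
    ρ x w = ((s x : ℤ) : ℂ) • w := by
  have hmul : ∀ a b : Perm (Fin m), ρ a w = ((s a : ℤ) : ℂ) • w → ρ b w = ((s b : ℤ) : ℂ) • w →
      ρ (a * b) w = ((s (a * b) : ℤ) : ℂ) • w := by
    intro a b ha hb
    rw [map_mul, Module.End.mul_apply, hb, map_smul, ha, smul_smul, map_mul, Units.val_mul]
    push_cast
    rw [mul_comm]
  have hsw : ∀ d : ℕ, ∀ i j : Fin m, (j : ℕ) = i + (d + 1) → N ≤ (i : ℕ) →
      ρ (Equiv.swap i j) w = ((s (Equiv.swap i j) : ℤ) : ℂ) • w := by
    intro d
    induction d with
    | zero =>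
      intro i j hij hi
      exact h i j (by omega) hi
    | succ d ih =>
      intro i j hij hi
      have hl : (i : ℕ) + (d + 1) < m := by have := j.2; omega
      set l : Fin m := ⟨(i : ℕ) + (d + 1), hl⟩ with hldef
      have hlv : (l : ℕ) = i + (d + 1) := rfl
      have h1 := ih i l hlv hi
      have h2 := h l j (by omega) (by omega)
      have hil : i ≠ l := by
        intro e
        rw [Fin.ext_iff] at e
        omega
      have hij' : i ≠ j := by
        intro e
        rw [Fin.ext_iff] at e
        omega
      have e : Equiv.swap i j = Equiv.swap l j * Equiv.swap i l * Equiv.swap l j := by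
        have := Equiv.swap_mul_swap_mul_swap (x := i) (y := l) (z := j) hil hij'
        rw [Equiv.swap_comm l j, Equiv.swap_comm i l, Equiv.swap_comm i j]
        rw [← this]
        simp [Equiv.swap_comm]
      rw [e]
      exact hmul _ _ (hmul _ _ h2 h1) h2
  have hsw' : ∀ i j : Fin m, i ≠ j → N ≤ (i : ℕ) → N ≤ (j : ℕ) →
      ρ (Equiv.swap i j) w = ((s (Equiv.swap i j) : ℤ) : ℂ) • w := by
    intro i j hij hi hj
    have hne : (i : ℕ) ≠ j := fun e => hij (Fin.ext e)
    rcases lt_or_gt_of_ne hne with hlt | hlt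
    · exact hsw (j - i - 1) i j (by omega) hi
    · rw [Equiv.swap_comm]
      exact hsw (i - j - 1) j i (by omega) hj
  -- permutations of the subtype
  have hsub : ∀ y : Perm {p : Fin m // N ≤ (p : ℕ)},
      ρ (Perm.ofSubtype y) w = ((s (Perm.ofSubtype y) : ℤ) : ℂ) • w := by
    intro y
    induction y using Equiv.Perm.swap_induction_on with
    | one => simp
    | swap_mul f a b hab ih =>
      rw [map_mul]
      refine hmul _ _ ?_ ih
      rw [Equiv.Perm.ofSubtype_swap_eq]
      exact hsw' a b (fun e => hab (Subtype.ext e)) a.2 b.2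
  have hx' : ∀ y : Fin m, N ≤ ((x y : Fin m) : ℕ) ↔ N ≤ (y : ℕ) := by
    intro y
    by_cases hy : x y = y
    · rw [hy]
    · refine ⟨fun _ => hx y hy, fun _ => hx (x y) ?_⟩
      intro e
      exact hy (x.injective e)
  have := hsub (x.subtypePerm hx')
  rwa [Equiv.Perm.ofSubtype_subtypePerm _ hx] at this

theorem key (f : Fin m → ℝ) (l₁ l₂ : List ℝ) (h : l₁ ++ l₂ = List.ofFn f) (s : ℕ)
    (hs : s < l₂.length) : ∃ hm : l₁.length + s < m, f ⟨l₁.length + s, hm⟩ = l₂[s] := by
  have hlen := congrArg List.length h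
  rw [List.length_append, List.length_ofFn] at hlen
  refine ⟨by omega, ?_⟩
  have h1 : (l₁ ++ l₂)[l₁.length + s]'(by rw [List.length_append]; omega) = l₂[s] := by
    rw [List.getElem_append_right (by omega)]
    congr 1
    omega
  rw [← h1]
  simp only [h, List.getElem_ofFn]

theorem ofFn_swap (f : Fin m → ℝ) (l₁ l₂ : List ℝ) (a b : ℝ)
    (h : l₁ ++ a :: b :: l₂ = List.ofFn f) (p q : Fin m) (hp : (p : ℕ) = l₁.length)
    (hq : (q : ℕ) = l₁.length + 1) :
    l₁ ++ b :: a :: l₂ = List.ofFn (f ∘ Equiv.swap p q) := by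
  have hlen := congrArg List.length h
  simp only [List.length_append, List.length_cons, List.length_ofFn] at hlen
  have hget : ∀ n (hn : n < m), f ⟨n, hn⟩ = (l₁ ++ a :: b :: l₂)[n]'(by
      simp only [List.length_append, List.length_cons]; omega) := by
    intro n hn
    simp only [h, List.getElem_ofFn]
  refine List.ext_getElem ?_ ?_
  · simp only [List.length_append, List.length_cons, List.length_ofFn]
    omega
  · intro n h1 h2
    rw [List.getElem_ofFn, Function.comp_apply]
    rw [List.length_ofFn] at h2
    rcases Nat.lt_or_ge n l₁.length with hn | hn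
    · rw [List.getElem_append_left hn, Equiv.swap_apply_of_ne_of_ne, hget n h2,
        List.getElem_append_left hn]
      · intro e
        rw [Fin.ext_iff] at e
        simp only at e
        omega
      · intro e
        rw [Fin.ext_iff] at e
        simp only at e
        omega
    · obtain ⟨r, rfl⟩ : ∃ r, n = l₁.length + r := ⟨n - l₁.length, by omega⟩
      rw [List.getElem_append_right hn]
      match r, h2 with
      | 0, h2 =>
        have e1 : (⟨l₁.length + 0, h2⟩ : Fin m) = p := by
          rw [Fin.ext_iff]; simp only; omega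
        rw [e1, Equiv.swap_apply_left]
        have e2 : q = ⟨l₁.length + 1, by have := q.2; omega⟩ := by
          rw [Fin.ext_iff]; simp only; omega
        rw [e2, hget, List.getElem_append_right (by omega)]
        simp
      | 1, h2 =>
        have e1 : (⟨l₁.length + 1, h2⟩ : Fin m) = q := by
          rw [Fin.ext_iff]; simp only; omega
        rw [e1, Equiv.swap_apply_right]
        have e2 : p = ⟨l₁.length + 0, by have := p.2; omega⟩ := by
          rw [Fin.ext_iff]; simp only; omega
        rw [e2, hget, List.getElem_append_right (by omega)]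
        simp
      | (r + 2), h2 =>
        rw [Equiv.swap_apply_of_ne_of_ne, hget _ h2, List.getElem_append_right (by omega)]
        · have e3 : l₁.length + (r + 2) - l₁.length = r + 2 := by omega
          simp only [e3, List.getElem_cons_succ]
        · intro e
          rw [Fin.ext_iff] at e
          simp only at e
          omega
        · intro e
          rw [Fin.ext_iff] at e
          simp only at e
          omega

/-- The set of content sequences, last point first. -/
def SS (ρ : Representation ℂ (Perm (Fin m)) V) : Set (List ℝ) :=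
  {l | ∃ (c : Fin m → ℝ) (v : V), IsJE ρ c v ∧ l = List.ofFn (fun x => c x.rev)}

theorem ov (ρ : Representation ℂ (Perm (Fin m)) V) : OV (SS ρ) where
  head := by
    rintro a l ⟨c, v, hv, hl⟩
    obtain ⟨hm, h0⟩ := key _ [] (a :: l) hl 0 (by simp)
    simp only [List.length_nil, List.getElem_cons_zero] at h0 hm
    rw [← h0]
    refine je_last ρ hv _ ?_
    rw [Fin.val_rev]
    simp only
    omega
  ne := by
    rintro l₁ l₂ a ⟨c, v, hv, hl⟩
    obtain ⟨hm0, h0⟩ := key _ l₁ (a :: a :: l₂) hl 0 (by simp)
    obtain ⟨hm1, h1⟩ := key _ l₁ (a :: a :: l₂) hl 1 (by simp)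
    refine je_ne ρ hv (Fin.rev ⟨l₁.length + 1, hm1⟩) (Fin.rev ⟨l₁.length + 0, hm0⟩) ?_ ?_
    · rw [Fin.val_rev, Fin.val_rev]
      simp only
      omega
    · rw [h0, h1]
      simp
  swap := by
    rintro l₁ l₂ a b ⟨c, v, hv, hl⟩ hb1 hb2
    obtain ⟨hm0, h0⟩ := key _ l₁ (a :: b :: l₂) hl 0 (by simp)
    obtain ⟨hm1, h1⟩ := key _ l₁ (a :: b :: l₂) hl 1 (by simp)
    simp only [List.getElem_cons_zero, List.getElem_cons_succ] at h0 h1
    set p : Fin m := ⟨l₁.length + 0, hm0⟩ with hp
    set q : Fin m := ⟨l₁.length + 1, hm1⟩ with hq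
    obtain ⟨w, hw⟩ := je_swap ρ hv q.rev p.rev (by
      rw [Fin.val_rev, Fin.val_rev]
      simp only [hp, hq]
      omega) (by rw [h0, h1]; exact hb1) (by rw [h0, h1]; exact hb2)
    refine ⟨_, w, hw, ?_⟩
    rw [ofFn_swap _ l₁ l₂ a b hl p q (by simp [hp]) (by simp [hq])]
    congr 1
    funext x
    simp only [Function.comp_apply]
    rw [Equiv.swap_apply_def, Equiv.swap_apply_def]
    simp only [Fin.rev_inj]
    have hpq : p ≠ q := by
      intro e
      rw [Fin.ext_iff] at e
      simp only [hp, hq] at e
      omega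
    by_cases hx1 : x = p
    · rw [hx1, if_pos rfl, if_neg hpq, if_pos rfl]
    · by_cases hx2 : x = q
      · rw [hx2, if_neg (Ne.symm hpq), if_pos rfl, if_pos rfl]
      · rw [if_neg hx1, if_neg hx2, if_neg hx2, if_neg hx1]
  no1 := by
    rintro l₁ l₂ a ⟨c, v, hv, hl⟩
    obtain ⟨hm0, h0⟩ := key _ l₁ (a :: (a + 1) :: a :: l₂) hl 0 (by simp)
    obtain ⟨hm1, h1⟩ := key _ l₁ (a :: (a + 1) :: a :: l₂) hl 1 (by simp)
    obtain ⟨hm2, h2⟩ := key _ l₁ (a :: (a + 1) :: a :: l₂) hl 2 (by simp)
    simp only [List.getElem_cons_zero, List.getElem_cons_succ] at h0 h1 h2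
    refine je_braid ρ hv (Fin.rev ⟨l₁.length + 2, hm2⟩) (Fin.rev ⟨l₁.length + 1, hm1⟩)
      (Fin.rev ⟨l₁.length + 0, hm0⟩) ?_ ?_ ?_ (Or.inl ?_)
    · rw [Fin.val_rev, Fin.val_rev]
      simp only
      omega
    · rw [Fin.val_rev, Fin.val_rev]
      simp only
      omega
    · rw [h0, h2]
    · rw [h1, h2]
  no2 := by
    rintro l₁ l₂ a ⟨c, v, hv, hl⟩
    obtain ⟨hm0, h0⟩ := key _ l₁ (a :: (a - 1) :: a :: l₂) hl 0 (by simp)
    obtain ⟨hm1, h1⟩ := key _ l₁ (a :: (a - 1) :: a :: l₂) hl 1 (by simp)
    obtain ⟨hm2, h2⟩ := key _ l₁ (a :: (a - 1) :: a :: l₂) hl 2 (by simp)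
    simp only [List.getElem_cons_zero, List.getElem_cons_succ] at h0 h1 h2
    refine je_braid ρ hv (Fin.rev ⟨l₁.length + 2, hm2⟩) (Fin.rev ⟨l₁.length + 1, hm1⟩)
      (Fin.rev ⟨l₁.length + 0, hm0⟩) ?_ ?_ ?_ (Or.inr ?_)
    · rw [Fin.val_rev, Fin.val_rev]
      simp only
      omega
    · rw [Fin.val_rev, Fin.val_rev]
      simp only
      omega
    · rw [h0, h2]
    · rw [h1, h2]

/-- A vector on which the adjacent transpositions of the last `z + 1` points act by the
character `s` (trivial or sign), `k ≤ z`, contradicts balancedness. -/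
theorem last_card {k z : ℕ} (hkz : k ≤ z) (hz : z + 1 ≤ m) :
    (Finset.univ.filter (fun y : Fin m => m - k ≤ (y : ℕ))).card = k := by
  have : (Finset.univ.filter (fun y : Fin m => m - k ≤ (y : ℕ))).card =
      (Finset.Ico (m - k) m).card := by
    refine Finset.card_bij (fun y _ => (y : ℕ)) ?_ ?_ ?_
    · intro y hy
      rw [Finset.mem_filter] at hy
      exact Finset.mem_Ico.2 ⟨hy.2, y.2⟩
    · intro a _ b _ hab
      exact Fin.ext hab
    · intro b hb
      rw [Finset.mem_Ico] at hb
      exact ⟨⟨b, hb.2⟩, Finset.mem_filter.2 ⟨Finset.mem_univ _, hb.1⟩, rfl⟩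
  rw [this, Nat.card_Ico]
  omega

end JBaux

open JBaux

theorem je_bound (ρ : Representation ℂ (Perm (Fin m)) V) {k : ℕ} (hB : Bal ρ k)
    {c : Fin m → ℝ} {v : V} (h : IsJE ρ c v) (i : Fin m) : |c i| < k := by
  by_contra hcon
  rw [not_lt] at hcon
  have hS : List.ofFn (fun x : Fin m => c x.rev) ∈ SS ρ := ⟨c, v, h, rfl⟩
  have hmem : c i ∈ List.ofFn (fun x : Fin m => c x.rev) := by
    rw [List.mem_ofFn]
    exact ⟨i.rev, by simp⟩
  obtain ⟨z, hz⟩ := (ov ρ).int hS hmem
  rcases le_or_gt 0 z with h0 | h0
  · obtain ⟨n, rfl⟩ := Int.eq_ofNat_of_zero_le h0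
    have hc : c i = (n : ℝ) := by rw [hz]; simp
    rw [hc] at hmem hcon
    have hkn : k ≤ n := by
      rw [Nat.abs_cast] at hcon
      exact_mod_cast hcon
    obtain ⟨l', hlen, c', w, hw, hl⟩ := (ov ρ).run hS hmem
    rw [List.length_ofFn] at hlen
    have hval : ∀ (t : ℕ) (ht : t ≤ n) (y : Fin m), (y : ℕ) + t + 1 = m → c' y = t := by
      intro t ht y hy
      obtain ⟨hm0, h0⟩ := key _ [] ((List.range (n + 1)).map (fun i : ℕ => (i : ℝ)) ++ l') hl t (by
        rw [List.length_append, List.length_map, List.length_range]; omega)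
      rw [List.getElem_append_left (by rw [List.length_map, List.length_range]; omega)] at h0
      simp only [List.length_nil, List.getElem_map, List.getElem_range] at h0 hm0
      rw [← h0]
      congr 1
      rw [Fin.ext_iff, Fin.val_rev]
      simp only
      omega
    have hfix := gen ρ w 1 (m - k) (fun a b hab ha => by
      simp only [MonoidHom.one_apply, Units.val_one, Int.cast_one, one_smul]
      refine je_up ρ hw a b hab ?_
      have hb := b.2
      rw [hval (m - 1 - a) (by omega) a (by omega), hval (m - 1 - b) (by omega) b (by omega)]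
      have : m - 1 - (a : ℕ) = m - 1 - b + 1 := by omega
      rw [this]
      push_cast
      ring)
    refine hw.1 ((hB _ (last_card hkn (by omega)) w).1 fun x hx => ?_)
    have := hfix x (fun y hy => by
      have := hx (Perm.mem_support.2 hy)
      simpa using this)
    simpa using this
  · obtain ⟨n, hn⟩ := Int.eq_ofNat_of_zero_le (a := -z) (by omega)
    have hzn : z = -(n : ℤ) := by omega
    have hc : c i = -(n : ℝ) := by rw [hz, hzn]; push_cast; rfl
    rw [hc] at hmem hcon
    have hkn : k ≤ n := by
      rw [abs_neg, Nat.abs_cast] at hcon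
      exact_mod_cast hcon
    obtain ⟨l', hlen, c', w, hw, hl⟩ := (ov ρ).run_neg hS hmem
    rw [List.length_ofFn] at hlen
    have hval : ∀ (t : ℕ) (ht : t ≤ n) (y : Fin m), (y : ℕ) + t + 1 = m → c' y = -t := by
      intro t ht y hy
      obtain ⟨hm0, h0⟩ := key _ [] ((List.range (n + 1)).map (fun i : ℕ => -(i : ℝ)) ++ l') hl t (by
        rw [List.length_append, List.length_map, List.length_range]; omega)
      rw [List.getElem_append_left (by rw [List.length_map, List.length_range]; omega)] at h0
      simp only [List.length_nil, List.getElem_map, List.getElem_range] at h0 hm0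
      rw [← h0]
      congr 1
      rw [Fin.ext_iff, Fin.val_rev]
      simp only
      omega
    have hfix := gen ρ w Perm.sign (m - k) (fun a b hab ha => by
      have hne : a ≠ b := by
        intro e
        rw [Fin.ext_iff] at e
        omega
      rw [Perm.sign_swap hne]
      simp only [Units.val_neg, Units.val_one, Int.cast_neg, Int.cast_one, neg_smul, one_smul]
      refine je_down ρ hw a b hab ?_
      have hb := b.2
      rw [hval (m - 1 - a) (by omega) a (by omega), hval (m - 1 - b) (by omega) b (by omega)]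
      have : m - 1 - (a : ℕ) = m - 1 - b + 1 := by omega
      rw [this]
      push_cast
      ring)
    refine hw.1 ((hB _ (last_card hkn (by omega)) w).2 fun x hx => ?_)
    exact hfix x (fun y hy => by
      have := hx (Perm.mem_support.2 hy)
      simpa using this)

end Pool.Agent.Helper1.TS
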