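import Pool.Agent.Helper1.TS.UNI

/-!
BLOCK TS-A0 (about 120 lines). The character ratio and the diagonal invariants (section 1 of the proof text).

Proofs in words.
* `char_perm_inv`: `g⁻¹` is conjugate to `g` (`Equiv.Perm.isConj_iff_cycleType_eq`, `Equiv.Perm.cycleType_inv`).
* `char_perm_real`: with `char_inv` the number is equal to its conjugate.
* `char_sq_le_diag`: `H = Perm T` embedded by `emb T`. For `x ∈ H` put `x' = g x g⁻¹` (its support is in `g T`, disjoint
  from `T`, so it commutes with all elements of `H`: `Equiv.Perm.Disjoint.commute`).  Use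
  `sum_char_sq_le ρ univ (fun x => x g x⁻¹)`: the left side is `(|H| χ(g))²` (class function), on the right
  `χ(x g x⁻¹ y g⁻¹ y⁻¹) = χ(g z g⁻¹ z⁻¹) = χ(z' z⁻¹)` with `z = x⁻¹ y`, so the double sum is
  `|H| * ∑ z, χ(z' z⁻¹)`. Now `z⁻¹ = w z w⁻¹` with `w ∈ H` and `w` commutes with `z'`, so `χ(z' z⁻¹) = χ(z' z)`, and
  `z ↦ z' z` is a homomorphism `H → Perm (Fin n)`, so `∑ z, χ(z' z) = |H| * finrank (invariants)`
  (`Representation.card_inv_mul_sum_char_eq_finrank`), and these invariants are `pairInv`.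
-/

set_option autoImplicit false

open Module Equiv

namespace Pool.Agent.Helper1.TS

variable {n : ℕ} {V : Type*} [AddCommGroup V] [Module ℂ V] [FiniteDimensional ℂ V]

omit [FiniteDimensional ℂ V] in
private theorem char_of_isConj {G : Type*} [Group G] (ρ : Representation ℂ G V) {a b : G}
    (h : IsConj a b) : ρ.character b = ρ.character a := by
  obtain ⟨c, hc⟩ := isConj_iff.1 h
  rw [← hc]
  exact ρ.char_conj a c

theorem char_perm_inv (ρ : Representation ℂ (Perm (Fin n)) V) (g : Perm (Fin n)) :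
    ρ.character g⁻¹ = ρ.character g := by
  refine char_of_isConj ρ ?_
  rw [Equiv.Perm.isConj_iff_cycleType_eq, Equiv.Perm.cycleType_inv]

theorem char_perm_real (ρ : Representation ℂ (Perm (Fin n)) V) (g : Perm (Fin n)) :
    ρ.character g = ((ρ.character g).re : ℂ) := by
  have h1 := char_inv ρ g
  rw [char_perm_inv] at h1
  exact (Complex.conj_eq_iff_re.1 h1.symm).symm

private theorem emb_conj_commute (g : Perm (Fin n)) (T : Finset (Fin n))
    (hT : Disjoint T (T.map g.toEmbedding)) (w z : Perm {x // x ∈ T}) :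
    Commute (emb T w) (g * emb T z * g⁻¹) := by
  refine Equiv.Perm.Disjoint.commute fun x => ?_
  by_cases hx : x ∈ T
  · right
    have h1 : g⁻¹ x ∉ T := by
      intro h
      refine Finset.disjoint_left.1 hT hx (Finset.mem_map.2 ⟨g⁻¹ x, h, ?_⟩)
      simp
    rw [Equiv.Perm.mul_apply, Equiv.Perm.mul_apply, Equiv.Perm.ofSubtype_apply_of_not_mem _ h1]
    simp
  · left
    exact Equiv.Perm.ofSubtype_apply_of_not_mem _ hx

/-- the representation `z ↦ ρ (z z')` -/
private noncomputable def sig (ρ : Representation ℂ (Perm (Fin n)) V) (g : Perm (Fin n))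
    (T : Finset (Fin n)) (hT : Disjoint T (T.map g.toEmbedding)) :
    Representation ℂ (Perm {x // x ∈ T}) V where
  toFun z := ρ (emb T z * (g * emb T z * g⁻¹))
  map_one' := by simp
  map_mul' := by
    intro a b
    rw [← map_mul]
    congr 1
    have h := (emb_conj_commute g T hT b a).eq
    rw [map_mul]
    calc emb T a * emb T b * (g * (emb T a * emb T b) * g⁻¹)
        = emb T a * (emb T b * (g * emb T a * g⁻¹)) * (g * emb T b * g⁻¹) := by group
      _ = emb T a * ((g * emb T a * g⁻¹) * emb T b) * (g * emb T b * g⁻¹) := by rw [h]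
      _ = emb T a * (g * emb T a * g⁻¹) * (emb T b * (g * emb T b * g⁻¹)) := by group

omit [FiniteDimensional ℂ V] in
private theorem sig_apply (ρ : Representation ℂ (Perm (Fin n)) V) (g : Perm (Fin n))
    (T : Finset (Fin n)) (hT : Disjoint T (T.map g.toEmbedding)) (z : Perm {x // x ∈ T}) :
    sig ρ g T hT z = ρ (emb T z * (g * emb T z * g⁻¹)) := rfl

omit [FiniteDimensional ℂ V] in
private theorem char_term (ρ : Representation ℂ (Perm (Fin n)) V) (g : Perm (Fin n))
    (T : Finset (Fin n)) (hT : Disjoint T (T.map g.toEmbedding)) (x z : Perm {x // x ∈ T}) :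
    ρ.character ((emb T x * g * (emb T x)⁻¹) * (emb T (x * z) * g * (emb T (x * z))⁻¹)⁻¹) =
      (sig ρ g T hT).character z := by
  have hconj : IsConj z z⁻¹ := by
    rw [Equiv.Perm.isConj_iff_cycleType_eq, Equiv.Perm.cycleType_inv]
  obtain ⟨w, hw⟩ := isConj_iff.1 hconj
  have h1 : (emb T x * g * (emb T x)⁻¹) * (emb T (x * z) * g * (emb T (x * z))⁻¹)⁻¹ =
      emb T x * (g * emb T z * g⁻¹ * (emb T z)⁻¹) * (emb T x)⁻¹ := by
    rw [map_mul]; group
  have hc := (emb_conj_commute g T hT w z).eq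
  have h2 : g * emb T z * g⁻¹ * (emb T z)⁻¹ =
      emb T w * (g * emb T z * g⁻¹ * emb T z) * (emb T w)⁻¹ := by
    have h3 : (emb T z)⁻¹ = emb T w * emb T z * (emb T w)⁻¹ := by
      rw [← map_inv, ← map_inv, ← map_mul, ← map_mul, hw]
    calc g * emb T z * g⁻¹ * (emb T z)⁻¹
        = g * emb T z * g⁻¹ * (emb T w * emb T z * (emb T w)⁻¹) := by rw [h3]
      _ = ((g * emb T z * g⁻¹) * emb T w) * emb T z * (emb T w)⁻¹ := by group
      _ = (emb T w * (g * emb T z * g⁻¹)) * emb T z * (emb T w)⁻¹ := by rw [hc]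
      _ = emb T w * (g * emb T z * g⁻¹ * emb T z) * (emb T w)⁻¹ := by group
  rw [h1, ρ.char_conj, h2, ρ.char_conj]
  unfold Representation.character
  rw [sig_apply, (emb_conj_commute g T hT z z).eq]

theorem char_sq_le_diag (ρ : Representation ℂ (Perm (Fin n)) V) (g : Perm (Fin n))
    (T : Finset (Fin n)) (hT : Disjoint T (T.map g.toEmbedding)) :
    (ρ.character g).re ^ 2 ≤ finrank ℂ V * finrank ℂ (pairInv (resT ρ T) (resC ρ g T)) := by
  classical
  have hs := sum_char_sq_le ρ (Finset.univ : Finset (Perm {x // x ∈ T}))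
    (fun x => emb T x * g * (emb T x)⁻¹)
  have hN : (0 : ℝ) < (Fintype.card (Perm {x // x ∈ T}) : ℝ) := by
    exact_mod_cast Fintype.card_pos
  have h1 : ∑ x : Perm {x // x ∈ T}, ρ.character (emb T x * g * (emb T x)⁻¹) =
      (((Fintype.card (Perm {x // x ∈ T}) : ℝ) * (ρ.character g).re : ℝ) : ℂ) := by
    have h2 : ∀ x : Perm {x // x ∈ T}, ρ.character (emb T x * g * (emb T x)⁻¹) =
        (((ρ.character g).re : ℝ) : ℂ) := fun x => by
      rw [ρ.char_conj]; exact char_perm_real ρ g
    simp only [h2, Finset.sum_const, Finset.card_univ, nsmul_eq_mul]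
    push_cast
    ring
  have h3 : ∑ x : Perm {x // x ∈ T}, ∑ y : Perm {x // x ∈ T},
      ρ.character ((emb T x * g * (emb T x)⁻¹) * (emb T y * g * (emb T y)⁻¹)⁻¹) =
      (Fintype.card (Perm {x // x ∈ T}) : ℂ) * ∑ z, (sig ρ g T hT).character z := by
    have h4 : ∀ x : Perm {x // x ∈ T}, ∑ y : Perm {x // x ∈ T},
        ρ.character ((emb T x * g * (emb T x)⁻¹) * (emb T y * g * (emb T y)⁻¹)⁻¹) =
        ∑ z, (sig ρ g T hT).character z := by
      intro x
      rw [← Equiv.sum_comp (Equiv.mulLeft x)]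
      refine Finset.sum_congr rfl fun z _ => ?_
      exact char_term ρ g T hT x z
    simp only [h4, Finset.sum_const, Finset.card_univ, nsmul_eq_mul]
  have hcard : (Nat.card (Perm {x // x ∈ T}) : ℂ) ≠ 0 := by
    rw [Nat.card_eq_fintype_card]
    exact_mod_cast Fintype.card_ne_zero
  letI : Invertible (Nat.card (Perm {x // x ∈ T}) : ℂ) := invertibleOfNonzero hcard
  have h5 := (sig ρ g T hT).card_inv_mul_sum_char_eq_finrank
  have h6 : finrank ℂ (Representation.invariants (sig ρ g T hT)) =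
      finrank ℂ (pairInv (resT ρ T) (resC ρ g T)) := by
    have h7 : Representation.invariants (sig ρ g T hT) = pairInv (resT ρ T) (resC ρ g T) := by
      ext v
      rw [Representation.mem_invariants, mem_pairInv]
      refine forall_congr' fun z => ?_
      rw [sig_apply, map_mul]
      rfl
    rw [h7]
  rw [h6, Nat.card_eq_fintype_card] at h5
  have h8 : ∑ z, (sig ρ g T hT).character z = (Fintype.card (Perm {x // x ∈ T}) : ℂ) *
      (finrank ℂ (pairInv (resT ρ T) (resC ρ g T)) : ℂ) := by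
    rw [← h5, mul_inv_cancel_left₀]
    rwa [Nat.card_eq_fintype_card] at hcard
  rw [h1, h3, h8] at hs
  rw [Complex.norm_real, Real.norm_eq_abs, sq_abs] at hs
  have h9 : ((Fintype.card (Perm {x // x ∈ T}) : ℂ) * ((Fintype.card (Perm {x // x ∈ T}) : ℂ) *
      (finrank ℂ (pairInv (resT ρ T) (resC ρ g T)) : ℂ))).re =
      (Fintype.card (Perm {x // x ∈ T}) : ℝ) * ((Fintype.card (Perm {x // x ∈ T}) : ℝ) *
      (finrank ℂ (pairInv (resT ρ T) (resC ρ g T)) : ℝ)) := by
    have : ((Fintype.card (Perm {x // x ∈ T}) : ℂ) * ((Fintype.card (Perm {x // x ∈ T}) : ℂ) *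
      (finrank ℂ (pairInv (resT ρ T) (resC ρ g T)) : ℂ))) =
      (((Fintype.card (Perm {x // x ∈ T}) : ℝ) * ((Fintype.card (Perm {x // x ∈ T}) : ℝ) *
      (finrank ℂ (pairInv (resT ρ T) (resC ρ g T)) : ℝ)) : ℝ) : ℂ) := by
      push_cast; ring
    rw [this, Complex.ofReal_re]
  rw [h9] at hs
  have h10 : (Fintype.card (Perm {x // x ∈ T}) : ℝ) ^ 2 * (ρ.character g).re ^ 2 ≤
      (Fintype.card (Perm {x // x ∈ T}) : ℝ) ^ 2 *
        (finrank ℂ V * finrank ℂ (pairInv (resT ρ T) (resC ρ g T))) := by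
    nlinarith [hs]
  exact le_of_mul_le_mul_left h10 (by positivity)

end Pool.Agent.Helper1.TS
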