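import Pool.Agent.Helper1.TS.SQ

/-!
BLOCK TS-AN (about 150 lines). Section 8, the analytic part, in abstract form: `r` and `q` are the normalized characters of `χ`
and of `ψ`.

Proofs in words.
* `main_sum`: the term `g = 1` is `1`; the others are at most `r(g)² 16^(-s) ≤ r(g)² 4^(-s)` in absolute value: the sum is
  `≥ 1 - 1/2`.
* `square_sum`: `|∑_g r(g²) q(g)| ≤ ∑_g |r(g²)| 16^(-s(g)) = ∑_h |r(h)| a_h`, `a_h = ∑_{g² = h} 16^(-s(g))`. Cauchy-Schwarz:
  `≤ (∑_h r(h)² 4^(-s(h)))^(1/2) (∑_h 4^(s(h)) a_h²)^(1/2)`. The first sum is `≤ 1 + 1/2`. For the second: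
  `4^(s(h)) a_h² = ∑_{g² = g'² = h} 4^(s(h)) 16^(-s(g)-s(g'))`, and `2 s(h) ≤ s(g) + s(g')` (the support of `g²` is contained in the
  support of `g`), so `4^(s(h)) ≤ 2^(s(g)+s(g'))` and the sum is at most the sum of `sq_sum_le`.
-/

set_option autoImplicit false

open Equiv

namespace Pool.Agent.Helper1.TS

theorem main_sum {n : ℕ} (r q : Perm (Fin n) → ℝ) (hr1 : r 1 = 1) (hq1 : q 1 = 1)
    (hr : ∑ g ∈ (Finset.univ : Finset (Perm (Fin n))).erase 1,
      (r g) ^ 2 * (1 / 4 : ℝ) ^ g.support.card ≤ 1 / 2)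
    (hq : ∀ g, |q g| ≤ (1 / 16 : ℝ) ^ g.support.card) :
    1 / 2 ≤ ∑ g, (r g) ^ 2 * q g := by
  rw [← Finset.add_sum_erase Finset.univ (fun g => (r g) ^ 2 * q g) (Finset.mem_univ 1)]
  have h1 : -(∑ g ∈ (Finset.univ : Finset (Perm (Fin n))).erase 1,
      (r g) ^ 2 * (1 / 4 : ℝ) ^ g.support.card) ≤
      ∑ g ∈ (Finset.univ : Finset (Perm (Fin n))).erase 1, (r g) ^ 2 * q g := by
    rw [← Finset.sum_neg_distrib]
    refine Finset.sum_le_sum fun g _ => ?_
    have h2 : -((1 / 4 : ℝ) ^ g.support.card) ≤ q g := by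
      have h3 : (1 / 16 : ℝ) ^ g.support.card ≤ (1 / 4 : ℝ) ^ g.support.card :=
        pow_le_pow_left₀ (by norm_num) (by norm_num) _
      have h4 := (abs_le.1 (hq g)).1
      linarith
    nlinarith [sq_nonneg (r g)]
  simp only [hr1, hq1]
  linarith

theorem square_sum {n : ℕ} (r q : Perm (Fin n) → ℝ) (hr1 : r 1 = 1)
    (hr : ∑ g ∈ (Finset.univ : Finset (Perm (Fin n))).erase 1,
      (r g) ^ 2 * (1 / 4 : ℝ) ^ g.support.card ≤ 1 / 2)
    (hq : ∀ g, |q g| ≤ (1 / 16 : ℝ) ^ g.support.card) :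
    (∑ g, r (g ^ 2) * q g) ^ 2 ≤ (3 / 2) * (Real.exp 4 * n.factorial * (1 / 4) ^ n) := by
  classical
  set a : Perm (Fin n) → ℝ := fun h =>
    ∑ g ∈ Finset.univ.filter (fun g : Perm (Fin n) => g ^ 2 = h), (1 / 16 : ℝ) ^ g.support.card
    with ha
  have ha0 : ∀ h, 0 ≤ a h := fun h => Finset.sum_nonneg fun g _ => by positivity
  have h1 : |∑ g, r (g ^ 2) * q g| ≤ ∑ h, |r h| * a h := by
    refine (Finset.abs_sum_le_sum_abs _ _).trans ?_
    have h2 : ∑ g : Perm (Fin n), |r (g ^ 2) * q g| ≤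
        ∑ g : Perm (Fin n), |r (g ^ 2)| * (1 / 16 : ℝ) ^ g.support.card := by
      refine Finset.sum_le_sum fun g _ => ?_
      rw [abs_mul]
      exact mul_le_mul_of_nonneg_left (hq g) (abs_nonneg _)
    refine h2.trans (le_of_eq ?_)
    rw [← Finset.sum_fiberwise Finset.univ (fun g : Perm (Fin n) => g ^ 2)]
    refine Finset.sum_congr rfl fun h _ => ?_
    rw [ha]
    simp only
    rw [Finset.mul_sum]
    refine Finset.sum_congr rfl fun g hg => ?_
    rw [(Finset.mem_filter.1 hg).2]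
  have h3 : (∑ h, |r h| * a h) ^ 2 ≤ (∑ h, (r h) ^ 2 * (1 / 4 : ℝ) ^ h.support.card) *
      ∑ h, (4 : ℝ) ^ h.support.card * (a h) ^ 2 := by
    have h4 := Finset.sum_mul_sq_le_sq_mul_sq Finset.univ
      (fun h : Perm (Fin n) => |r h| * (1 / 2 : ℝ) ^ h.support.card)
      (fun h => (2 : ℝ) ^ h.support.card * a h)
    have h5 : ∀ h : Perm (Fin n), |r h| * (1 / 2 : ℝ) ^ h.support.card *
        ((2 : ℝ) ^ h.support.card * a h) = |r h| * a h := by
      intro h
      have h6 : (1 / 2 : ℝ) ^ h.support.card * (2 : ℝ) ^ h.support.card = 1 := by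
        rw [← mul_pow]; norm_num
      calc _ = |r h| * ((1 / 2 : ℝ) ^ h.support.card * (2 : ℝ) ^ h.support.card) * a h := by ring
        _ = _ := by rw [h6, mul_one]
    have h7 : ∀ h : Perm (Fin n), (|r h| * (1 / 2 : ℝ) ^ h.support.card) ^ 2 =
        (r h) ^ 2 * (1 / 4 : ℝ) ^ h.support.card := by
      intro h
      rw [mul_pow, sq_abs, ← pow_mul, mul_comm h.support.card 2, pow_mul]
      norm_num
    have h8 : ∀ h : Perm (Fin n), ((2 : ℝ) ^ h.support.card * a h) ^ 2 =
        (4 : ℝ) ^ h.support.card * (a h) ^ 2 := by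
      intro h
      rw [mul_pow, ← pow_mul, mul_comm h.support.card 2, pow_mul]
      norm_num
    simp only [h5, h7, h8] at h4
    exact h4
  have h9 : ∑ h, (r h) ^ 2 * (1 / 4 : ℝ) ^ h.support.card ≤ 3 / 2 := by
    rw [← Finset.add_sum_erase Finset.univ
      (fun h => (r h) ^ 2 * (1 / 4 : ℝ) ^ h.support.card) (Finset.mem_univ 1)]
    simp only [hr1, Equiv.Perm.support_one, Finset.card_empty, pow_zero]
    linarith
  have h10 : ∑ h, (4 : ℝ) ^ h.support.card * (a h) ^ 2 ≤
      ∑ g : Perm (Fin n), ∑ g' : Perm (Fin n), if g ^ 2 = g' ^ 2 then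
        (1 / 8 : ℝ) ^ (g.support.card + g'.support.card) else 0 := by
    have h11 : ∀ h : Perm (Fin n), (4 : ℝ) ^ h.support.card * (a h) ^ 2 ≤
        ∑ g ∈ Finset.univ.filter (fun g : Perm (Fin n) => g ^ 2 = h),
          ∑ g' : Perm (Fin n), if g ^ 2 = g' ^ 2 then
            (1 / 8 : ℝ) ^ (g.support.card + g'.support.card) else 0 := by
      intro h
      have h12 : (a h) ^ 2 = ∑ g ∈ Finset.univ.filter (fun g : Perm (Fin n) => g ^ 2 = h),
          ∑ g' ∈ Finset.univ.filter (fun g : Perm (Fin n) => g ^ 2 = h),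
            (1 / 16 : ℝ) ^ g.support.card * (1 / 16 : ℝ) ^ g'.support.card := by
        rw [ha]
        simp only
        rw [sq, Finset.sum_mul_sum]
      rw [h12, Finset.mul_sum]
      refine Finset.sum_le_sum fun g hg => ?_
      rw [Finset.mul_sum, ← Finset.sum_filter]
      have hgh := (Finset.mem_filter.1 hg).2
      have h13 : (Finset.univ.filter fun g' : Perm (Fin n) => g ^ 2 = g' ^ 2) =
          Finset.univ.filter (fun g' : Perm (Fin n) => g' ^ 2 = h) := by
        ext g'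
        simp only [Finset.mem_filter, Finset.mem_univ, true_and]
        rw [hgh]
        exact eq_comm
      rw [h13]
      refine Finset.sum_le_sum fun g' hg' => ?_
      have hgh' := (Finset.mem_filter.1 hg').2
      have h14 : 2 * h.support.card ≤ g.support.card + g'.support.card := by
        have h15 : h.support.card ≤ g.support.card := by
          rw [← hgh]
          exact Finset.card_le_card (Equiv.Perm.support_pow_le g 2)
        have h16 : h.support.card ≤ g'.support.card := by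
          rw [← hgh']
          exact Finset.card_le_card (Equiv.Perm.support_pow_le g' 2)
        omega
      have h17 : (4 : ℝ) ^ h.support.card ≤ 2 ^ (g.support.card + g'.support.card) := by
        calc (4 : ℝ) ^ h.support.card = 2 ^ (2 * h.support.card) := by
              rw [pow_mul]; norm_num
          _ ≤ 2 ^ (g.support.card + g'.support.card) := pow_le_pow_right₀ (by norm_num) h14
      calc (4 : ℝ) ^ h.support.card * ((1 / 16 : ℝ) ^ g.support.card * (1 / 16 : ℝ) ^ g'.support.card)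
          ≤ 2 ^ (g.support.card + g'.support.card) *
            ((1 / 16 : ℝ) ^ g.support.card * (1 / 16 : ℝ) ^ g'.support.card) :=
            mul_le_mul_of_nonneg_right h17 (by positivity)
        _ = (1 / 8 : ℝ) ^ (g.support.card + g'.support.card) := by
            rw [← pow_add, ← mul_pow]; norm_num
    refine (Finset.sum_le_sum fun h _ => h11 h).trans (le_of_eq ?_)
    exact Finset.sum_fiberwise Finset.univ (fun g : Perm (Fin n) => g ^ 2)
      (fun g => ∑ g' : Perm (Fin n), if g ^ 2 = g' ^ 2 then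
        (1 / 8 : ℝ) ^ (g.support.card + g'.support.card) else 0)
  have h17 : (∑ g : Perm (Fin n), ∑ g' : Perm (Fin n), if g ^ 2 = g' ^ 2 then
        (1 / 8 : ℝ) ^ (g.support.card + g'.support.card) else 0) =
      ∑ p : Perm (Fin n) × Perm (Fin n) with p.1 ^ 2 = p.2 ^ 2,
        (1 / 8 : ℝ) ^ (p.1.support.card + p.2.support.card) := by
    rw [Finset.sum_filter, Fintype.sum_prod_type]
  rw [h17] at h10
  have h18 := h10.trans (sq_sum_le n)
  have h19 : 0 ≤ ∑ h, (4 : ℝ) ^ h.support.card * (a h) ^ 2 :=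
    Finset.sum_nonneg fun h _ => by positivity
  calc (∑ g, r (g ^ 2) * q g) ^ 2 = |∑ g, r (g ^ 2) * q g| ^ 2 := (sq_abs _).symm
    _ ≤ (∑ h, |r h| * a h) ^ 2 := pow_le_pow_left₀ (abs_nonneg _) h1 2
    _ ≤ _ := h3
    _ ≤ (3 / 2) * ∑ h, (4 : ℝ) ^ h.support.card * (a h) ^ 2 :=
        mul_le_mul_of_nonneg_right h9 h19
    _ ≤ _ := mul_le_mul_of_nonneg_left h18 (by norm_num)

end Pool.Agent.Helper1.TS
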