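import Pool.Agent.Helper1.TS.Defs

/-!
BLOCK TS-PROB (about 100 lines). Section 4, PROB.

Proofs in words.
* `card_maps_subset`: for `|S| = s`, `|U| = u ≤ n` the number of permutations `y` with `y(S) ⊆ U` is
  `u (u-1) ⋯ (u-s+1) (n-s)! ≤ (u/n)^s n!` (induction on `S`, or: injections; each factor `(u-i)/(n-i) ≤ u/n`). One way: by
  symmetry count pairs: the number is `∑ over s-subsets A of U` of `#{y | y S = A} = s! (n-s)!`, so it is
  `C(u,s) s! (n-s)!`, and `C(u,s) / C(n,s) ≤ (u/n)^s`.
* `card_small_union`: if `|⋃ y i (S)| ≤ u` then it is contained in a set `U` of cardinality `u`; union bound over the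
  `C(n,u)` sets `U` and `card_maps_subset` for each of the `j` independent coordinates (`Fintype.card_pi`).
-/

set_option autoImplicit false

open Equiv

namespace Pool.Agent.Helper1.TS

private lemma card_step {n : ℕ} (S U : Finset (Fin n)) {a : Fin n} (ha : a ∉ S) :
    n * (Finset.univ.filter (fun y : Perm (Fin n) => ∀ s ∈ insert a S, y s ∈ U)).card ≤
      U.card * (Finset.univ.filter (fun y : Perm (Fin n) => ∀ s ∈ S, y s ∈ U)).card := by
  classical
  -- all the sets `insert b S` give the same number
  have h1 : ∀ b ∈ Sᶜ, (Finset.univ.filter (fun y : Perm (Fin n) => ∀ s ∈ insert b S, y s ∈ U)).card =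
      (Finset.univ.filter (fun y : Perm (Fin n) => ∀ s ∈ insert a S, y s ∈ U)).card := by
    intro b hb
    rw [Finset.mem_compl] at hb
    refine Finset.card_bij' (fun y _ => y * Equiv.swap a b) (fun y _ => y * Equiv.swap a b) ?_ ?_ ?_ ?_
    · intro y hy
      rw [Finset.mem_filter] at hy ⊢
      refine ⟨Finset.mem_univ _, fun s hs => ?_⟩
      rw [Finset.mem_insert] at hs
      rw [Equiv.Perm.mul_apply]
      rcases hs with rfl | hs
      · rw [Equiv.swap_apply_left]
        exact hy.2 b (Finset.mem_insert_self _ _)
      · have hsa : s ≠ a := by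
          rintro rfl
          exact ha hs
        have hsb : s ≠ b := by
          rintro rfl
          exact hb hs
        rw [Equiv.swap_apply_of_ne_of_ne hsa hsb]
        exact hy.2 s (Finset.mem_insert_of_mem hs)
    · intro y hy
      rw [Finset.mem_filter] at hy ⊢
      refine ⟨Finset.mem_univ _, fun s hs => ?_⟩
      rw [Finset.mem_insert] at hs
      rw [Equiv.Perm.mul_apply]
      rcases hs with rfl | hs
      · rw [Equiv.swap_apply_right]
        exact hy.2 a (Finset.mem_insert_self _ _)
      · have hsa : s ≠ a := by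
          rintro rfl
          exact ha hs
        have hsb : s ≠ b := by
          rintro rfl
          exact hb hs
        rw [Equiv.swap_apply_of_ne_of_ne hsa hsb]
        exact hy.2 s (Finset.mem_insert_of_mem hs)
    · intro y _
      rw [mul_assoc, Equiv.swap_mul_self, mul_one]
    · intro y _
      rw [mul_assoc, Equiv.swap_mul_self, mul_one]
  -- double counting
  have h2 : ∑ b ∈ Sᶜ, (Finset.univ.filter (fun y : Perm (Fin n) => ∀ s ∈ insert b S, y s ∈ U)).card =
      ∑ y ∈ Finset.univ.filter (fun y : Perm (Fin n) => ∀ s ∈ S, y s ∈ U),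
        (Sᶜ.filter (fun b => y b ∈ U)).card := by
    simp only [Finset.card_filter, Finset.sum_filter]
    rw [Finset.sum_comm]
    refine Finset.sum_congr rfl fun y _ => ?_
    by_cases hy : ∀ s ∈ S, y s ∈ U
    · rw [if_pos hy]
      refine Finset.sum_congr rfl fun b _ => ?_
      by_cases hb : y b ∈ U
      · rw [if_pos hb, if_pos]
        intro s hs
        rcases Finset.mem_insert.1 hs with rfl | hs
        · exact hb
        · exact hy s hs
      · rw [if_neg hb, if_neg]
        intro h
        exact hb (h b (Finset.mem_insert_self _ _))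
    · rw [if_neg hy]
      refine Finset.sum_eq_zero fun b _ => ?_
      rw [if_neg]
      intro h
      exact hy fun s hs => h s (Finset.mem_insert_of_mem hs)
  have h3 : ∀ y ∈ Finset.univ.filter (fun y : Perm (Fin n) => ∀ s ∈ S, y s ∈ U),
      (Sᶜ.filter (fun b => y b ∈ U)).card = U.card - S.card := by
    intro y hy
    rw [Finset.mem_filter] at hy
    have e1 : (Finset.univ.filter (fun b => y b ∈ U)).card = U.card := by
      refine Finset.card_bij (fun b _ => y b) ?_ ?_ ?_
      · intro b hb
        exact (Finset.mem_filter.1 hb).2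
      · intro b _ b' _ h
        exact y.injective h
      · intro c hc
        refine ⟨y.symm c, ?_, by simp⟩
        rw [Finset.mem_filter]
        exact ⟨Finset.mem_univ _, by simpa using hc⟩
    have e2 : Sᶜ.filter (fun b => y b ∈ U) = Finset.univ.filter (fun b => y b ∈ U) \ S := by
      ext b
      simp only [Finset.mem_filter, Finset.mem_compl, Finset.mem_sdiff, Finset.mem_univ, true_and]
      exact and_comm
    have e3 : S ⊆ Finset.univ.filter (fun b => y b ∈ U) := by
      intro b hb
      rw [Finset.mem_filter]
      exact ⟨Finset.mem_univ _, hy.2 b hb⟩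
    rw [e2, Finset.card_sdiff_of_subset e3, e1]
  rw [Finset.sum_congr rfl h1, Finset.sum_congr rfl h3, Finset.sum_const, Finset.sum_const, smul_eq_mul,
    smul_eq_mul, Finset.card_compl, Fintype.card_fin] at h2
  have hS : S.card < n := by
    have := Finset.card_lt_univ_of_notMem ha
    rwa [Fintype.card_fin] at this
  have hU : U.card ≤ n := by
    have := Finset.card_le_univ U
    rwa [Fintype.card_fin] at this
  generalize (Finset.univ.filter (fun y : Perm (Fin n) => ∀ s ∈ insert a S, y s ∈ U)).card = A at *
  generalize (Finset.univ.filter (fun y : Perm (Fin n) => ∀ s ∈ S, y s ∈ U)).card = B at *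
  generalize U.card = u at *
  generalize S.card = t at *
  have h4 : (u - t) * n ≤ u * (n - t) := by
    rw [Nat.sub_mul, Nat.mul_sub]
    exact Nat.sub_le_sub_left (by rw [mul_comm t n]; exact Nat.mul_le_mul_right t hU) _
  have h5 : (n - t) * (n * A) ≤ (n - t) * (u * B) := by
    calc (n - t) * (n * A) = n * ((n - t) * A) := by ring
      _ = n * (B * (u - t)) := by rw [h2]
      _ = B * ((u - t) * n) := by ring
      _ ≤ B * (u * (n - t)) := Nat.mul_le_mul_left _ h4
      _ = (n - t) * (u * B) := by ring
  exact Nat.le_of_mul_le_mul_left h5 (Nat.sub_pos_of_lt hS)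

private lemma card_maps_nat {n : ℕ} (S U : Finset (Fin n)) :
    n ^ S.card * (Finset.univ.filter (fun y : Perm (Fin n) => ∀ s ∈ S, y s ∈ U)).card ≤
      U.card ^ S.card * n.factorial := by
  classical
  induction S using Finset.induction_on with
  | empty =>
    simp only [Finset.card_empty, pow_zero, one_mul]
    refine (Finset.card_le_univ _).trans ?_
    rw [Fintype.card_perm, Fintype.card_fin]
  | insert a S ha ih =>
    rw [Finset.card_insert_of_notMem ha, pow_succ, pow_succ]
    have h := card_step S U ha
    calc n ^ S.card * n * (Finset.univ.filter (fun y : Perm (Fin n) => ∀ s ∈ insert a S, y s ∈ U)).card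
        = n ^ S.card * (n * (Finset.univ.filter (fun y : Perm (Fin n) => ∀ s ∈ insert a S, y s ∈ U)).card) := by
          ring
      _ ≤ n ^ S.card * (U.card * (Finset.univ.filter (fun y : Perm (Fin n) => ∀ s ∈ S, y s ∈ U)).card) :=
          Nat.mul_le_mul_left _ h
      _ = U.card * (n ^ S.card * (Finset.univ.filter (fun y : Perm (Fin n) => ∀ s ∈ S, y s ∈ U)).card) := by
          ring
      _ ≤ U.card * (U.card ^ S.card * n.factorial) := Nat.mul_le_mul_left _ ih
      _ = U.card ^ S.card * U.card * n.factorial := by ring

theorem card_maps_subset {n : ℕ} (S U : Finset (Fin n)) :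
    ((Finset.univ.filter (fun y : Perm (Fin n) => S.map y.toEmbedding ⊆ U)).card : ℝ) ≤
      ((U.card : ℝ) / n) ^ S.card * n.factorial := by
  classical
  have e : (Finset.univ.filter (fun y : Perm (Fin n) => S.map y.toEmbedding ⊆ U)) =
      Finset.univ.filter (fun y : Perm (Fin n) => ∀ s ∈ S, y s ∈ U) := by
    refine Finset.filter_congr fun y _ => ?_
    rw [Finset.map_subset_iff_subset_preimage]
    constructor
    · intro h s hs
      have := h hs
      rwa [Finset.mem_preimage] at this
    · intro h s hs
      rw [Finset.mem_preimage]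
      exact h s hs
  rw [e]
  have h := card_maps_nat S U
  rcases Nat.eq_zero_or_pos n with rfl | hn
  · have hS : S = ∅ := Finset.eq_empty_of_isEmpty S
    subst hS
    simp only [Finset.card_empty, pow_zero, one_mul]
    refine (Nat.cast_le (α := ℝ)).2 ?_
    refine (Finset.card_le_univ _).trans ?_
    rw [Fintype.card_perm, Fintype.card_fin]
  · have hn' : (0 : ℝ) < n := by exact_mod_cast hn
    have h' : (n : ℝ) ^ S.card *
        ((Finset.univ.filter (fun y : Perm (Fin n) => ∀ s ∈ S, y s ∈ U)).card : ℝ) ≤
        (U.card : ℝ) ^ S.card * n.factorial := by exact_mod_cast h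
    rw [div_pow, div_mul_eq_mul_div, le_div_iff₀ (by positivity), mul_comm]
    exact h'

theorem card_small_union {n : ℕ} (S : Finset (Fin n)) (j u : ℕ) (hu : u ≤ n) :
    ((Finset.univ.filter (fun y : Fin j → Perm (Fin n) => (unionY S y).card ≤ u)).card : ℝ) ≤
      (n.choose u : ℝ) * ((u : ℝ) / n) ^ (S.card * j) * (n.factorial : ℝ) ^ j := by
  classical
  set A : Finset (Fin n) → Finset (Perm (Fin n)) := fun U =>
    Finset.univ.filter (fun y : Perm (Fin n) => S.map y.toEmbedding ⊆ U) with hA
  have hsub : (Finset.univ.filter (fun y : Fin j → Perm (Fin n) => (unionY S y).card ≤ u)) ⊆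
      (Finset.powersetCard u (Finset.univ : Finset (Fin n))).biUnion
        (fun U => Fintype.piFinset (fun _ : Fin j => A U)) := by
    intro y hy
    rw [Finset.mem_filter] at hy
    obtain ⟨U, hU1, hU2, hU3⟩ := Finset.exists_subsuperset_card_eq (Finset.subset_univ (unionY S y)) hy.2
      (by rw [Finset.card_univ, Fintype.card_fin]; exact hu)
    rw [Finset.mem_biUnion]
    refine ⟨U, Finset.mem_powersetCard.2 ⟨Finset.subset_univ U, hU3⟩, ?_⟩
    rw [Fintype.mem_piFinset]
    intro i
    rw [hA, Finset.mem_filter]
    refine ⟨Finset.mem_univ _, ?_⟩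
    refine Finset.Subset.trans ?_ hU1
    unfold unionY
    exact Finset.subset_biUnion_of_mem (fun i => S.map (y i).toEmbedding) (Finset.mem_univ i)
  have h1 : ((Finset.univ.filter (fun y : Fin j → Perm (Fin n) => (unionY S y).card ≤ u)).card : ℝ) ≤
      ∑ U ∈ Finset.powersetCard u (Finset.univ : Finset (Fin n)),
        ((Fintype.piFinset (fun _ : Fin j => A U)).card : ℝ) := by
    have h := (Finset.card_le_card hsub).trans Finset.card_biUnion_le
    exact_mod_cast h
  have h2 : ∀ U ∈ Finset.powersetCard u (Finset.univ : Finset (Fin n)),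
      ((Fintype.piFinset (fun _ : Fin j => A U)).card : ℝ) ≤
        (((u : ℝ) / n) ^ S.card * n.factorial) ^ j := by
    intro U hU
    rw [Finset.mem_powersetCard] at hU
    rw [Fintype.card_piFinset_const]
    push_cast
    refine pow_le_pow_left₀ (Nat.cast_nonneg _) ?_ j
    have h3 := card_maps_subset S U
    rw [hU.2] at h3
    exact h3
  refine h1.trans ((Finset.sum_le_sum h2).trans ?_)
  rw [Finset.sum_const, Finset.card_powersetCard, Finset.card_univ, Fintype.card_fin, nsmul_eq_mul,
    mul_pow, ← pow_mul, mul_assoc]

end Pool.Agent.Helper1.TS
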