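import Pool.Agent.Helper1.TS.Defs

/-!
BLOCK TS-UNI (about 120 lines). Unitary structure.

Proofs in words.
* `exists_unitary`: choose a basis `b` of `V`, `A g` the matrix of `ρ g`; `M = ∑ g, (A g)ᴴ * A g` is positive
  definite (the term `g = 1` is `1`, the others are positive semidefinite), so `M = Bᴴ * B` with `B`
  invertible (`Matrix.posSemidef_iff_eq_conjTranspose_mul_self` or `Matrix.PosDef`); `e v = B *ᵥ (b.repr v)`.
  Then `⟪e (ρ h v), e (ρ h w)⟫ = (repr v)ᴴ (A h)ᴴ M (A h) (repr w)` and `(A h)ᴴ M (A h) = ∑ g, (A (g h))ᴴ A (g h) = M`.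
  (Any other proof is fine.)
* `char_inv`: transport `ρ` by `e`; the operators are unitary, so the inverse is the adjoint and
  `trace (adjoint) = conj trace`.
* `norm_char_le`: the trace in an orthonormal basis is a sum of `finrank` numbers `⟪b i, U (b i)⟫` of norm at most `1`.
* `sum_char_sq_le`: for `R = ∑ i ∈ s, ρ (x i)`, the Cauchy-Schwarz inequality `|tr R|² ≤ d * tr (R R*)` with
  `R* = ∑ ρ ((x j)⁻¹)` (adjoint in the unitary structure); `tr (R R*) = ∑ i j character (x i * (x j)⁻¹)`.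
-/

set_option autoImplicit false

open Module Equiv

namespace Pool.Agent.Helper1.TS

variable {G V : Type*} [Group G] [Finite G] [AddCommGroup V] [Module ℂ V] [FiniteDimensional ℂ V]

theorem exists_unitary (ρ : Representation ℂ G V) :
    ∃ e : V ≃ₗ[ℂ] EuclideanSpace ℂ (Fin (finrank ℂ V)), ∀ (g : G) (v w : V),
      inner ℂ (e (ρ g v)) (e (ρ g w)) = inner ℂ (e v) (e w) := by
  classical
  have := Fintype.ofFinite G
  let b := finBasis ℂ V
  let e0 : V ≃ₗ[ℂ] EuclideanSpace ℂ (Fin (finrank ℂ V)) :=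
    b.equivFun.trans (WithLp.linearEquiv 2 ℂ _).symm
  let core : InnerProductSpace.Core ℂ V :=
    { inner := fun v w => ∑ g : G, inner ℂ (e0 (ρ g v)) (e0 (ρ g w))
      conj_inner_symm := fun x y => by
        rw [map_sum]
        exact Finset.sum_congr rfl fun g _ => inner_conj_symm _ _
      re_inner_nonneg := fun x => by
        rw [map_sum]
        exact Finset.sum_nonneg fun g _ => inner_self_nonneg
      add_left := fun x y z => by
        rw [← Finset.sum_add_distrib]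
        exact Finset.sum_congr rfl fun g _ => by rw [map_add, map_add, inner_add_left]
      smul_left := fun x y r => by
        rw [Finset.mul_sum]
        exact Finset.sum_congr rfl fun g _ => by rw [map_smul, map_smul, inner_smul_left]
      definite := fun x hx => by
        have h1 : ∑ g : G, RCLike.re (inner ℂ (e0 (ρ g x)) (e0 (ρ g x))) = 0 := by
          rw [← map_sum, hx, map_zero]
        have h2 := (Finset.sum_eq_zero_iff_of_nonneg (fun g _ => inner_self_nonneg)).1 h1 1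
          (Finset.mem_univ _)
        have h3 : e0 (ρ 1 x) = 0 := by
          rw [inner_self_eq_norm_sq] at h2
          exact norm_eq_zero.1 (pow_eq_zero_iff (two_ne_zero)|>.1 h2)
        rw [map_one, Module.End.one_apply] at h3
        exact (LinearEquiv.map_eq_zero_iff e0).1 h3 }
  letI : NormedAddCommGroup V := core.toNormedAddCommGroup
  letI : InnerProductSpace ℂ V := InnerProductSpace.ofCore core.toCore
  let o := stdOrthonormalBasis ℂ V
  refine ⟨o.repr.toLinearEquiv, ?_⟩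
  intro g v w
  have h1 : ∀ a c : V, inner ℂ (o.repr.toLinearEquiv a) (o.repr.toLinearEquiv c) =
      ∑ h : G, inner ℂ (e0 (ρ h a)) (e0 (ρ h c)) := fun a c => o.repr.inner_map_map a c
  rw [h1, h1]
  refine Fintype.sum_equiv (Equiv.mulRight g) _ _ fun h => ?_
  simp only [Equiv.coe_mulRight, map_mul, Module.End.mul_apply]

private noncomputable def uniU (ρ : Representation ℂ G V)
    (e : V ≃ₗ[ℂ] EuclideanSpace ℂ (Fin (finrank ℂ V))) (g : G) :
    EuclideanSpace ℂ (Fin (finrank ℂ V)) →ₗ[ℂ] EuclideanSpace ℂ (Fin (finrank ℂ V)) :=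
  e.conj (ρ g)

omit [Finite G] [FiniteDimensional ℂ V] in
private lemma uniU_trace (ρ : Representation ℂ G V)
    (e : V ≃ₗ[ℂ] EuclideanSpace ℂ (Fin (finrank ℂ V))) (g : G) :
    ρ.character g = ∑ i : Fin (finrank ℂ V),
      inner ℂ (EuclideanSpace.basisFun (Fin (finrank ℂ V)) ℂ i)
        (uniU ρ e g (EuclideanSpace.basisFun (Fin (finrank ℂ V)) ℂ i)) := by
  rw [← LinearMap.trace_eq_sum_inner]
  unfold Representation.character uniU
  rw [LinearMap.trace_conj']

omit [Finite G] [FiniteDimensional ℂ V] in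
private lemma uniU_inner (ρ : Representation ℂ G V)
    (e : V ≃ₗ[ℂ] EuclideanSpace ℂ (Fin (finrank ℂ V)))
    (he : ∀ (g : G) (v w : V), inner ℂ (e (ρ g v)) (e (ρ g w)) = inner ℂ (e v) (e w)) (g : G)
    (v w : EuclideanSpace ℂ (Fin (finrank ℂ V))) :
    inner ℂ (uniU ρ e g v) (uniU ρ e g w) = inner ℂ v w := by
  unfold uniU
  rw [LinearEquiv.conj_apply_apply, LinearEquiv.conj_apply_apply, he]
  simp

omit [Finite G] [FiniteDimensional ℂ V] in
private lemma uniU_mul (ρ : Representation ℂ G V)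
    (e : V ≃ₗ[ℂ] EuclideanSpace ℂ (Fin (finrank ℂ V))) (g h : G)
    (v : EuclideanSpace ℂ (Fin (finrank ℂ V))) :
    uniU ρ e g (uniU ρ e h v) = uniU ρ e (g * h) v := by
  unfold uniU
  simp [LinearEquiv.conj_apply_apply]

omit [Finite G] [FiniteDimensional ℂ V] in
private lemma uniU_one (ρ : Representation ℂ G V)
    (e : V ≃ₗ[ℂ] EuclideanSpace ℂ (Fin (finrank ℂ V)))
    (v : EuclideanSpace ℂ (Fin (finrank ℂ V))) :
    uniU ρ e 1 v = v := by
  unfold uniU
  simp [LinearEquiv.conj_apply_apply]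

omit [Finite G] [FiniteDimensional ℂ V] in
private lemma uniU_adj (ρ : Representation ℂ G V)
    (e : V ≃ₗ[ℂ] EuclideanSpace ℂ (Fin (finrank ℂ V)))
    (he : ∀ (g : G) (v w : V), inner ℂ (e (ρ g v)) (e (ρ g w)) = inner ℂ (e v) (e w)) (g h : G)
    (v w : EuclideanSpace ℂ (Fin (finrank ℂ V))) :
    inner ℂ (uniU ρ e g v) (uniU ρ e h w) = inner ℂ v (uniU ρ e (g⁻¹ * h) w) := by
  have h1 : uniU ρ e h w = uniU ρ e g (uniU ρ e (g⁻¹ * h) w) := by
    rw [uniU_mul, mul_inv_cancel_left]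
  rw [h1, uniU_inner ρ e he]

theorem char_inv (ρ : Representation ℂ G V) (g : G) :
    ρ.character g⁻¹ = starRingEnd ℂ (ρ.character g) := by
  obtain ⟨e, he⟩ := exists_unitary ρ
  rw [uniU_trace ρ e, uniU_trace ρ e, map_sum]
  refine Finset.sum_congr rfl fun i _ => ?_
  rw [inner_conj_symm]
  have h := uniU_adj ρ e he g 1 (EuclideanSpace.basisFun (Fin (finrank ℂ V)) ℂ i)
    (EuclideanSpace.basisFun (Fin (finrank ℂ V)) ℂ i)
  rw [uniU_one, mul_one] at h
  exact h.symm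

omit [Finite G] [FiniteDimensional ℂ V] in
private lemma uniU_norm (ρ : Representation ℂ G V)
    (e : V ≃ₗ[ℂ] EuclideanSpace ℂ (Fin (finrank ℂ V)))
    (he : ∀ (g : G) (v w : V), inner ℂ (e (ρ g v)) (e (ρ g w)) = inner ℂ (e v) (e w)) (g : G)
    (v : EuclideanSpace ℂ (Fin (finrank ℂ V))) : ‖uniU ρ e g v‖ = ‖v‖ := by
  have h := uniU_inner ρ e he g v v
  have h1 : ‖uniU ρ e g v‖ ^ 2 = ‖v‖ ^ 2 := by
    have := congrArg (RCLike.re : ℂ → ℝ) h
    rwa [inner_self_eq_norm_sq, inner_self_eq_norm_sq] at this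
  exact (sq_eq_sq₀ (norm_nonneg _) (norm_nonneg _)).1 h1

theorem norm_char_le (ρ : Representation ℂ G V) (g : G) :
    ‖ρ.character g‖ ≤ finrank ℂ V := by
  obtain ⟨e, he⟩ := exists_unitary ρ
  rw [uniU_trace ρ e]
  refine (norm_sum_le _ _).trans ?_
  refine (Finset.sum_le_card_nsmul _ _ 1 fun i _ => ?_).trans ?_
  · refine (norm_inner_le_norm _ _).trans ?_
    rw [uniU_norm ρ e he, OrthonormalBasis.norm_eq_one, mul_one]
  · simp

theorem sum_char_sq_le (ρ : Representation ℂ G V) {ι : Type*} (s : Finset ι) (x : ι → G) :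
    ‖∑ i ∈ s, ρ.character (x i)‖ ^ 2 ≤
      finrank ℂ V * (∑ i ∈ s, ∑ j ∈ s, ρ.character (x i * (x j)⁻¹)).re := by
  obtain ⟨e, he⟩ := exists_unitary ρ
  set b := EuclideanSpace.basisFun (Fin (finrank ℂ V)) ℂ with hb
  have hnorm : ∀ k, ‖b k‖ = 1 := fun k => OrthonormalBasis.norm_eq_one b k
  have h1 : ∑ i ∈ s, ρ.character (x i) = ∑ k, inner ℂ (b k) (∑ i ∈ s, uniU ρ e (x i) (b k)) := by
    simp_rw [uniU_trace ρ e, inner_sum]
    exact Finset.sum_comm
  have h2 : ‖∑ i ∈ s, ρ.character (x i)‖ ≤ ∑ k, ‖∑ i ∈ s, uniU ρ e (x i) (b k)‖ := by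
    rw [h1]
    refine (norm_sum_le _ _).trans (Finset.sum_le_sum fun k _ => ?_)
    refine (norm_inner_le_norm _ _).trans ?_
    rw [hnorm, one_mul]
  have h3 : (∑ k, ‖∑ i ∈ s, uniU ρ e (x i) (b k)‖) ^ 2 ≤
      (finrank ℂ V) * ∑ k, ‖∑ i ∈ s, uniU ρ e (x i) (b k)‖ ^ 2 := by
    have := sq_sum_le_card_mul_sum_sq (s := (Finset.univ : Finset (Fin (finrank ℂ V))))
      (f := fun k => ‖∑ i ∈ s, uniU ρ e (x i) (b k)‖)
    simpa using this
  have h4 : ∑ k, ‖∑ i ∈ s, uniU ρ e (x i) (b k)‖ ^ 2 =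
      (∑ i ∈ s, ∑ j ∈ s, ρ.character (x i * (x j)⁻¹)).re := by
    have h5 : ((∑ k, ‖∑ i ∈ s, uniU ρ e (x i) (b k)‖ ^ 2 : ℝ) : ℂ) =
        ∑ i ∈ s, ∑ j ∈ s, ρ.character (x i * (x j)⁻¹) := by
      push_cast
      have h6 : ∀ k, ((‖∑ i ∈ s, uniU ρ e (x i) (b k)‖ : ℂ)) ^ 2 =
          ∑ i ∈ s, ∑ j ∈ s, inner ℂ (b k) (uniU ρ e ((x i)⁻¹ * x j) (b k)) := by
        intro k
        have h7 := inner_self_eq_norm_sq_to_K (𝕜 := ℂ) (∑ i ∈ s, uniU ρ e (x i) (b k))
        have h8 : ((‖∑ i ∈ s, uniU ρ e (x i) (b k)‖ : ℂ)) ^ 2 =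
            inner ℂ (∑ i ∈ s, uniU ρ e (x i) (b k)) (∑ i ∈ s, uniU ρ e (x i) (b k)) := h7.symm
        rw [h8, sum_inner]
        refine Finset.sum_congr rfl fun i _ => ?_
        rw [inner_sum]
        exact Finset.sum_congr rfl fun j _ => uniU_adj ρ e he _ _ _ _
      simp_rw [h6]
      rw [Finset.sum_comm]
      have h9 : ∀ i ∈ s, ∑ k, ∑ j ∈ s, inner ℂ (b k) (uniU ρ e ((x i)⁻¹ * x j) (b k)) =
          ∑ j ∈ s, ρ.character (x j * (x i)⁻¹) := by
        intro i _
        rw [Finset.sum_comm]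
        refine Finset.sum_congr rfl fun j _ => ?_
        rw [← uniU_trace ρ e, Representation.char_mul_comm]
      rw [Finset.sum_congr rfl h9]
      exact Finset.sum_comm
    rw [← h5, Complex.ofReal_re]
  calc ‖∑ i ∈ s, ρ.character (x i)‖ ^ 2 ≤ (∑ k, ‖∑ i ∈ s, uniU ρ e (x i) (b k)‖) ^ 2 :=
        pow_le_pow_left₀ (norm_nonneg _) h2 2
    _ ≤ _ := h3
    _ = _ := by rw [h4]

end Pool.Agent.Helper1.TS
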