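import Pool.Agent.Helper1.TS.A0

/-!
BLOCK TS-WALK (about 120 lines). Section 4.

Proofs in words.
* `walk`: for irreducible `ρ` the operator `A = |G|⁻¹ ∑ y, ρ (y g y⁻¹)` commutes with all `ρ x`, so it is a scalar (Schur,
  `Representation.IsIrreducible.algebraMap_intertwiningMap_bijective_of_isAlgClosed`), equal to `χ(g) / d` (trace). Then
  `∑ y : Fin j → G, ρ (prodY g y) = (∑ y, ρ (y g y⁻¹))^j` (induction on `j`, `Fin.consEquiv`/`Fin.insertNthEquiv`), take the trace.
* `support_prod`: a point `x` which lies in exactly one of the sets `supp (y i g (y i)⁻¹) = y i (supp g)` is moved by the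
  product (the later factors fix... : a permutation `h = h₁ ⋯ h_j` with `x` moved only by `h_i`: the factors to the right of
  `i` fix `x`, `h_i x ≠ x`, and a permutation fixing `x` cannot map a point `≠ x` to `x`). The number of points in exactly one
  of `j` sets of cardinality `s` is at least `2 |union| - j s` (`∑_x (mult x - 1)⁺ ≥ ...`: every point of the union which is
  not covered exactly once has multiplicity `≥ 2`).
-/

set_option autoImplicit false

open Module Equiv

namespace Pool.Agent.Helper1.TS

lemma prodY_succ {G : Type*} [Group G] {j : ℕ} (g : G) (y : Fin (j + 1) → G) :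
    prodY g y = y 0 * g * (y 0)⁻¹ * prodY g (fun i => y i.succ) := by
  unfold prodY
  rw [List.ofFn_succ, List.prod_cons]

lemma sum_prodY {G V : Type*} [Group G] [Fintype G] [AddCommGroup V] [Module ℂ V]
    (ρ : Representation ℂ G V) (g : G) (j : ℕ) :
    ∑ y : Fin j → G, ρ (prodY g y) = (∑ y : G, ρ (y * g * y⁻¹)) ^ j := by
  induction j with
  | zero =>
    rw [Fintype.sum_unique, pow_zero]
    unfold prodY
    simp
  | succ j ih =>
    rw [pow_succ', ← ih, Finset.sum_mul_sum, ← (Fin.consEquiv (fun _ => G)).sum_comp,
      Fintype.sum_prod_type]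
    refine Finset.sum_congr rfl (fun x _ => Finset.sum_congr rfl (fun y' _ => ?_))
    rw [prodY_succ, map_mul]
    rfl

lemma schur_sum {G V : Type*} [Group G] [Fintype G] [AddCommGroup V] [Module ℂ V]
    [FiniteDimensional ℂ V] (ρ : Representation ℂ G V) [ρ.IsIrreducible] (g : G) :
    ∃ c : ℂ, ∑ y : G, ρ (y * g * y⁻¹) = c • (1 : V →ₗ[ℂ] V) := by
  set B : V →ₗ[ℂ] V := ∑ y : G, ρ (y * g * y⁻¹) with hB
  have hcomm : ∀ x : G, ∀ v : V, B (ρ x v) = ρ x (B v) := by
    intro x v
    have h : B * ρ x = ρ x * B := by
      rw [hB, Finset.sum_mul, Finset.mul_sum,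
        ← _root_.Equiv.sum_comp (Equiv.mulLeft x) (fun y => ρ (y * g * y⁻¹) * ρ x)]
      refine Finset.sum_congr rfl (fun y _ => ?_)
      rw [← map_mul, ← map_mul]
      congr 1
      simp only [Equiv.coe_mulLeft]
      group
    exact congrArg (fun f : V →ₗ[ℂ] V => f v) h
  obtain ⟨c, hc⟩ := (Representation.IsIrreducible.algebraMap_intertwiningMap_bijective_of_isAlgClosed
    (ρ := ρ)).2 (B.intertwiningMap_of_isIntertwiningMap ρ ρ hcomm)
  refine ⟨c, ?_⟩
  have h2 := congrArg (fun f : Representation.IntertwiningMap ρ ρ => f.toLinearMap) hc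
  apply LinearMap.ext
  intro v
  have h3 := congrArg (fun f : V →ₗ[ℂ] V => f v) h2
  have h4 : B v = (((algebraMap ℂ (Representation.IntertwiningMap ρ ρ)) c).toLinearMap) v := h3.symm
  rw [h4]
  rfl

theorem walk {G V : Type*} [Group G] [Fintype G] [AddCommGroup V] [Module ℂ V]
    [FiniteDimensional ℂ V] (ρ : Representation ℂ G V) [ρ.IsIrreducible] (g : G) (j : ℕ) :
    (ρ.character g / finrank ℂ V) ^ j * (Fintype.card G : ℂ) ^ j =
      ∑ y : Fin j → G, ρ.character (prodY g y) / finrank ℂ V := by
  obtain ⟨c, hc⟩ := schur_sum ρ g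
  have hnt : Nontrivial V := by
    by_contra hcon
    rw [not_nontrivial_iff_subsingleton] at hcon
    have h1 := Representation.IsIrreducible.finrank_intertwiningMap_self ρ
    have h2 : Subsingleton (Representation.IntertwiningMap ρ ρ) :=
      ⟨fun f f' => Representation.IntertwiningMap.ext (LinearMap.ext (fun v => Subsingleton.elim _ _))⟩
    rw [finrank_zero_of_subsingleton] at h1
    exact absurd h1 (by norm_num)
  have hd : (finrank ℂ V : ℂ) ≠ 0 := by
    have := finrank_pos (R := ℂ) (M := V)
    exact_mod_cast this.ne'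
  have htr : (Fintype.card G : ℂ) * ρ.character g = c * finrank ℂ V := by
    have h1 := congrArg (LinearMap.trace ℂ V) hc
    rw [map_sum, map_smul, LinearMap.trace_one, smul_eq_mul] at h1
    rw [← h1]
    have h2 : ∀ y : G, LinearMap.trace ℂ V (ρ (y * g * y⁻¹)) = ρ.character g := fun y =>
      ρ.char_conj g y
    simp only [h2]
    rw [Finset.sum_const, Finset.card_univ, nsmul_eq_mul]
  have hsum := sum_prodY ρ g j
  rw [hc, smul_pow, one_pow] at hsum
  have h3 := congrArg (LinearMap.trace ℂ V) hsum
  rw [map_sum, map_smul, LinearMap.trace_one, smul_eq_mul] at h3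
  rw [← Finset.sum_div]
  have h4 : ∑ y : Fin j → G, ρ.character (prodY g y) = c ^ j * finrank ℂ V := h3
  rw [h4, ← mul_pow, mul_div_assoc, div_self hd, mul_one]
  congr 1
  rw [div_mul_eq_mul_div, mul_comm (ρ.character g), htr, mul_div_assoc, div_self hd, mul_one]

/-- The real form for the symmetric group. -/
theorem walk_perm {n : ℕ} {V : Type*} [AddCommGroup V] [Module ℂ V]
    [FiniteDimensional ℂ V] (ρ : Representation ℂ (Perm (Fin n)) V) [ρ.IsIrreducible]
    (g : Perm (Fin n)) (j : ℕ) :
    (rr ρ g) ^ j * (n.factorial : ℝ) ^ j = ∑ y : Fin j → Perm (Fin n), rr ρ (prodY g y) := by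
  have h := walk ρ g j
  have h1 : ∀ x : Perm (Fin n), ρ.character x / finrank ℂ V = ((rr ρ x : ℝ) : ℂ) := by
    intro x
    unfold rr
    rw [char_perm_real ρ x]
    push_cast
    simp
  simp only [h1] at h
  rw [Fintype.card_perm, Fintype.card_fin] at h
  exact_mod_cast h

lemma prodY_fix {n j : ℕ} (g : Perm (Fin n)) (y : Fin j → Perm (Fin n)) (x : Fin n)
    (h : ∀ i, (y i * g * (y i)⁻¹) x = x) : prodY g y x = x := by
  induction j with
  | zero => simp [prodY]
  | succ j ih =>
    rw [prodY_succ, Perm.mul_apply, ih (fun i => y i.succ) (fun i => h i.succ), h 0]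

lemma prodY_move {n j : ℕ} (g : Perm (Fin n)) (y : Fin j → Perm (Fin n)) (x : Fin n)
    (i : Fin j) (hi : (y i * g * (y i)⁻¹) x ≠ x)
    (h : ∀ k, k ≠ i → (y k * g * (y k)⁻¹) x = x) : prodY g y x ≠ x := by
  induction j with
  | zero => exact i.elim0
  | succ j ih =>
    rw [prodY_succ, Perm.mul_apply]
    rcases Fin.eq_zero_or_eq_succ i with rfl | ⟨i', rfl⟩
    · rw [prodY_fix g (fun i => y i.succ) x (fun k => h k.succ (Fin.succ_ne_zero k))]
      exact hi
    · have h1 := ih (fun i => y i.succ) i' hi (fun k hk => h k.succ (by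
        intro he; exact hk (Fin.succ_injective _ he)))
      have h0 := h 0 (Fin.succ_ne_zero i').symm
      intro he
      apply h1
      have h2 : (y 0 * g * (y 0)⁻¹) (prodY g (fun i => y i.succ) x) = (y 0 * g * (y 0)⁻¹) x := by
        rw [he, h0]
      exact (y 0 * g * (y 0)⁻¹).injective h2

theorem support_prod {n j : ℕ} (g : Perm (Fin n)) (y : Fin j → Perm (Fin n)) :
    2 * (unionY g.support y).card ≤ (prodY g y).support.card + j * g.support.card := by
  classical
  -- multiplicity
  set m : Fin n → ℕ := fun x => (Finset.univ.filter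
    (fun i : Fin j => x ∈ g.support.map (y i).toEmbedding)).card with hm
  have hmem : ∀ (i : Fin j) (x : Fin n), x ∈ g.support.map (y i).toEmbedding ↔
      (y i * g * (y i)⁻¹) x ≠ x := by
    intro i x
    rw [Finset.mem_map_equiv, Perm.mem_support, Perm.mul_apply, Perm.mul_apply]
    constructor
    · intro h he
      apply h
      have := congrArg (y i).symm he
      simpa using this
    · intro h he
      apply h
      have h2 : g ((y i)⁻¹ x) = (y i)⁻¹ x := he
      rw [h2]
      simp
  have hfil : ∀ s : Finset (Fin n), Finset.univ.filter (fun x => x ∈ s) = s := by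
    intro s
    ext x
    simp only [Finset.mem_filter, Finset.mem_univ, true_and]
  have hsum : ∑ x : Fin n, m x = j * g.support.card := by
    simp only [hm, Finset.card_filter]
    rw [Finset.sum_comm]
    have h1 : ∀ i : Fin j, ∑ x : Fin n, (if x ∈ g.support.map (y i).toEmbedding then 1 else 0) =
        g.support.card := by
      intro i
      rw [← Finset.card_filter, hfil]
      exact Finset.card_map _
    simp only [h1]
    simp
  have h1 : ∀ x : Fin n, 2 * (if x ∈ unionY g.support y then 1 else 0) ≤
      (if x ∈ (prodY g y).support then 1 else 0) + m x := by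
    intro x
    by_cases hx : x ∈ unionY g.support y
    · rw [if_pos hx]
      unfold unionY at hx
      rw [Finset.mem_biUnion] at hx
      obtain ⟨i, _, hi⟩ := hx
      rcases Nat.lt_or_ge 1 (m x) with h2 | h2
      · omega
      · have hpos : 1 ≤ m x := by
          apply Finset.card_pos.2
          exact ⟨i, by simp only [Finset.mem_filter, Finset.mem_univ, true_and]; exact hi⟩
        have hone : m x = 1 := by omega
        have hmove : x ∈ (prodY g y).support := by
          rw [Perm.mem_support]
          apply prodY_move g y x i ((hmem i x).1 hi)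
          intro k hk
          by_contra hc
          have hk2 := (hmem k x).2 hc
          obtain ⟨a, ha⟩ := Finset.card_eq_one.1 hone
          have e1 : i ∈ ({a} : Finset (Fin j)) := by
            rw [← ha]; simp only [Finset.mem_filter, Finset.mem_univ, true_and]; exact hi
          have e2 : k ∈ ({a} : Finset (Fin j)) := by
            rw [← ha]; simp only [Finset.mem_filter, Finset.mem_univ, true_and]; exact hk2
          rw [Finset.mem_singleton] at e1 e2
          exact hk (e2.trans e1.symm)
        rw [if_pos hmove]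
        omega
    · rw [if_neg hx]
      omega
  have h2 := Finset.sum_le_sum (fun x (_ : x ∈ Finset.univ) => h1 x)
  rw [← Finset.mul_sum, Finset.sum_add_distrib, hsum, ← Finset.card_filter, ← Finset.card_filter,
    hfil, hfil] at h2
  exact h2

end Pool.Agent.Helper1.TS
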