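import Pool.Agent.Helper1.TS.RB
import Pool.Agent.Helper1.TS.WALK
import Pool.Agent.Helper1.TS.PROB
import Pool.Agent.Helper1.TS.UNI

/-!
BLOCK TS-BD (about 200 lines). Section 5: `|r(g)| ≤ 16^(-s(g))` for balanced irreducible representations.

Proof in words. `s = |supp g| ≥ 2`.
* `ratio_big`: if `2^(-28) n ≤ s / 3` then `|rr ρ g| ≤ (1/32)^(2 s)`... precisely: `ratio_bound` gives `m ≥ s/3` with
  `rr² ≤ (2k)^m / m!`, `m! ≥ (m/3)^m`, so `rr² ≤ (6k/m)^m`. With `k ≤ 2^(-91) n` and `m ≥ s/3 ≥ 2^(-28) n`: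
  `6 k / m ≤ 6 * 2^(-63) ≤ 2^(-60)`, so `|rr| ≤ 2^(-30 m) ≤ 2^(-10 s)`.
* case `s ≥ 3 * 2^(-28) n`: `2^(-10 s) ≤ 16^(-s)`.
* case `s < 3 * 2^(-28) n`: `j` minimal with `W = j s ≥ 6 * 2^(-28) n`; then `j ≥ 1`, `W < 12 * 2^(-28) n`. `u = ⌊3W/4⌋`.
  By `walk_perm`: `|rr g|^j (n!)^j ≤ ∑_y |rr (prodY g y)| ≤ #{|unionY| ≤ u} * 1 + (n!)^j * sup`, where for `|unionY| > u`, so
  `4 |unionY| > 3 W`, the product `h` has support `≥ 2 |unionY| - W > W/2 ≥ 3 * 2^(-28) n`, so `|rr h| ≤ 2^(-10 W/2) = 2^(-5W)`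
  by `ratio_big`. And `#{..}/(n!)^j ≤ C(n,u) (u/n)^W ≤ 3^u (u/n)^(W-u) ≤ (27 u / n)^(W-u)` (`C(n,u) ≤ n^u/u! ≤ (3n/u)^u`,
  `u ≤ 3 (W-u)`), `27 u / n ≤ 27 * 9 * 2^(-28) ≤ 2^(-20)`, `4 (W - u) ≥ W`, so it is `≤ 2^(-5W)`. Together
  `|rr g|^j ≤ 2 * 2^(-5W) ≤ 2^(-4W) = (16^(-s))^j` as `W ≥ 1`.
-/

set_option autoImplicit false

open Module Equiv

namespace Pool.Agent.Helper1.TS

private lemma bd_pow_le (m : ℕ) : (m : ℝ) ^ m ≤ 3 ^ m * (m.factorial : ℝ) := by
  have h1 := Real.pow_div_factorial_le_exp (m : ℝ) (Nat.cast_nonneg m) m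
  have hf : (0 : ℝ) < (m.factorial : ℝ) := by exact_mod_cast m.factorial_pos
  rw [div_le_iff₀ hf] at h1
  refine h1.trans (mul_le_mul_of_nonneg_right ?_ hf.le)
  have h2 : Real.exp (m : ℝ) = Real.exp 1 ^ m := by
    rw [← Real.exp_nat_mul, mul_one]
  rw [h2]
  refine pow_le_pow_left₀ (Real.exp_pos 1).le ?_ m
  have := Real.exp_one_lt_d9
  linarith

theorem ratio_big {n : ℕ} {V : Type*} [AddCommGroup V] [Module ℂ V]
    [FiniteDimensional ℂ V] [Nontrivial V] (ρ : Representation ℂ (Perm (Fin n)) V) {k : ℕ}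
    (hB : Bal ρ k) (hk : (k : ℝ) * 2 ^ 91 ≤ n) (g : Perm (Fin n))
    (hs : 3 * (n : ℝ) ≤ 2 ^ 28 * g.support.card) (hs0 : 0 < g.support.card) :
    |rr ρ g| ≤ (1 / 2 : ℝ) ^ (10 * g.support.card) := by
  obtain ⟨m, hm, hr⟩ := ratio_bound ρ hB g
  set s := g.support.card with hsdef
  have hm0 : 0 < m := by omega
  have hsm : (s : ℝ) ≤ 3 * m := by exact_mod_cast hm
  have hkm : (2 * (k : ℝ)) ≤ m / 2 ^ 62 := by
    rw [le_div_iff₀ (by positivity)]
    nlinarith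
  have hf : (0 : ℝ) < (m.factorial : ℝ) := by exact_mod_cast m.factorial_pos
  have h1 : (rr ρ g) ^ 2 * (m.factorial : ℝ) ≤ ((1 / 2 : ℝ) ^ (30 * m)) ^ 2 * (m.factorial : ℝ) := by
    have hr' : (rr ρ g) ^ 2 * (m.factorial : ℝ) ≤ (2 * (k : ℝ)) ^ m := by
      exact_mod_cast hr
    calc (rr ρ g) ^ 2 * (m.factorial : ℝ) ≤ (2 * (k : ℝ)) ^ m := hr'
      _ ≤ ((m : ℝ) / 2 ^ 62) ^ m := pow_le_pow_left₀ (by positivity) hkm m
      _ = (m : ℝ) ^ m * (1 / 2 ^ 62) ^ m := by rw [← mul_pow]; ring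
      _ ≤ (3 ^ m * (m.factorial : ℝ)) * (1 / 2 ^ 62) ^ m :=
          mul_le_mul_of_nonneg_right (bd_pow_le m) (by positivity)
      _ = (3 / 2 ^ 62) ^ m * (m.factorial : ℝ) := by
          rw [div_pow, div_pow, one_pow]; ring
      _ ≤ ((1 / 2 : ℝ) ^ 60) ^ m * (m.factorial : ℝ) := by
          refine mul_le_mul_of_nonneg_right (pow_le_pow_left₀ (by positivity) ?_ m) hf.le
          norm_num
      _ = ((1 / 2 : ℝ) ^ (30 * m)) ^ 2 * (m.factorial : ℝ) := by
          congr 1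
          rw [← pow_mul, ← pow_mul]
          congr 1
          ring
  have h2 : (rr ρ g) ^ 2 ≤ ((1 / 2 : ℝ) ^ (30 * m)) ^ 2 := le_of_mul_le_mul_right h1 hf
  have h3 : |rr ρ g| ≤ (1 / 2 : ℝ) ^ (30 * m) := abs_le_of_sq_le_sq h2 (by positivity)
  refine h3.trans ?_
  exact pow_le_pow_of_le_one (by norm_num) (by norm_num) (by omega)

private lemma bd_nontrivial {G V : Type*} [Group G] [AddCommGroup V] [Module ℂ V]
    (ρ : Representation ℂ G V) [ρ.IsIrreducible] : Nontrivial V :=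
  (IsSimpleModule.nontrivial (MonoidAlgebra ℂ G) ρ.asModule : Nontrivial ρ.asModule)

private lemma bd_rr_le_one {G V : Type*} [Group G] [Finite G] [AddCommGroup V] [Module ℂ V]
    [FiniteDimensional ℂ V] (ρ : Representation ℂ G V) (g : G) : |rr ρ g| ≤ 1 := by
  unfold rr
  rw [abs_div]
  have h1 : |(ρ.character g).re| ≤ finrank ℂ V :=
    (Complex.abs_re_le_norm _).trans (norm_char_le ρ g)
  have h2 : |((finrank ℂ V : ℕ) : ℝ)| = finrank ℂ V := abs_of_nonneg (Nat.cast_nonneg _)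
  rw [h2]
  exact div_le_one_of_le₀ h1 (Nat.cast_nonneg _)

private lemma bd_choose {n u W : ℕ} (hn : 0 < n) (hW : 2 ^ 28 * W < 9 * n) (hu : 4 * u ≤ 3 * W) :
    (n.choose u : ℝ) * ((u : ℝ) / n) ^ W ≤ (1 / 2 : ℝ) ^ (5 * W) := by
  have hn' : (0 : ℝ) < n := by exact_mod_cast hn
  have hf : (0 : ℝ) < (u.factorial : ℝ) := by exact_mod_cast u.factorial_pos
  have huW : u ≤ W := by omega
  have h1 : (n.choose u : ℝ) ≤ (n : ℝ) ^ u / (u.factorial : ℝ) := by
    exact_mod_cast Nat.choose_le_pow_div (α := ℝ) u n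
  have h2 : ((u : ℝ) / n) ^ W = ((u : ℝ) / n) ^ u * ((u : ℝ) / n) ^ (W - u) := by
    rw [← pow_add]
    congr 1
    omega
  have h27 : (27 * (u : ℝ) / n) ≤ (1 / 2) ^ 20 := by
    have h3 : (4 * (u : ℝ)) ≤ 3 * W := by exact_mod_cast hu
    have h4 : (2 : ℝ) ^ 28 * W < 9 * n := by exact_mod_cast hW
    rw [div_le_iff₀ hn']
    norm_num
    norm_num at h4
    linarith
  calc (n.choose u : ℝ) * ((u : ℝ) / n) ^ W
      ≤ ((n : ℝ) ^ u / (u.factorial : ℝ)) * ((u : ℝ) / n) ^ W :=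
        mul_le_mul_of_nonneg_right h1 (by positivity)
    _ = ((u : ℝ) ^ u / (u.factorial : ℝ)) * ((u : ℝ) / n) ^ (W - u) := by
        rw [h2, div_pow (u : ℝ) (n : ℝ) u]
        field_simp
    _ ≤ (3 : ℝ) ^ u * ((u : ℝ) / n) ^ (W - u) := by
        refine mul_le_mul_of_nonneg_right ?_ (by positivity)
        rw [div_le_iff₀ hf]
        exact bd_pow_le u
    _ ≤ (3 : ℝ) ^ (3 * (W - u)) * ((u : ℝ) / n) ^ (W - u) := by
        refine mul_le_mul_of_nonneg_right ?_ (by positivity)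
        exact pow_le_pow_right₀ (by norm_num) (by omega)
    _ = (27 * (u : ℝ) / n) ^ (W - u) := by
        rw [pow_mul, ← mul_pow]
        congr 1
        ring
    _ ≤ ((1 / 2 : ℝ) ^ 20) ^ (W - u) := pow_le_pow_left₀ (by positivity) h27 _
    _ = (1 / 2 : ℝ) ^ (20 * (W - u)) := by rw [← pow_mul]
    _ ≤ (1 / 2 : ℝ) ^ (5 * W) := pow_le_pow_of_le_one (by norm_num) (by norm_num) (by omega)

theorem bound16 {n : ℕ} {V : Type*} [AddCommGroup V] [Module ℂ V]
    [FiniteDimensional ℂ V] (ρ : Representation ℂ (Perm (Fin n)) V) [ρ.IsIrreducible] {k : ℕ}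
    (hB : Bal ρ k) (hk : (k : ℝ) * 2 ^ 91 ≤ n) (g : Perm (Fin n)) :
    |rr ρ g| ≤ (1 / 16 : ℝ) ^ g.support.card := by
  classical
  have hV : Nontrivial V := bd_nontrivial ρ
  have h16 : (1 / 16 : ℝ) = (1 / 2) ^ 4 := by norm_num
  rcases Nat.eq_zero_or_pos g.support.card with hs0 | hs0
  · rw [hs0, pow_zero]
    exact bd_rr_le_one ρ g
  by_cases hs : 3 * (n : ℝ) ≤ 2 ^ 28 * g.support.card
  · refine (ratio_big ρ hB hk g hs hs0).trans ?_
    rw [h16, ← pow_mul]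
    exact pow_le_pow_of_le_one (by norm_num) (by norm_num) (by omega)
  push Not at hs
  have hsN : 2 ^ 28 * g.support.card < 3 * n := by exact_mod_cast hs
  set s := g.support.card with hsdef
  have hn : 0 < n := by omega
  -- the number of factors
  obtain ⟨j, hj1, hj2, hj3⟩ : ∃ j : ℕ, 0 < j ∧ 6 * n ≤ 2 ^ 28 * (s * j) ∧
      2 ^ 28 * (s * j) < 9 * n := by
    have hex : ∃ j : ℕ, 6 * n ≤ 2 ^ 28 * (s * j) := by
      refine ⟨6 * n, ?_⟩
      have : 6 * n ≤ s * (6 * n) := Nat.le_mul_of_pos_left _ hs0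
      omega
    refine ⟨Nat.find hex, ?_, Nat.find_spec hex, ?_⟩
    · rcases Nat.eq_zero_or_pos (Nat.find hex) with h0 | h0
      · have := Nat.find_spec hex
        rw [h0] at this
        omega
      · exact h0
    · have h0 : 0 < Nat.find hex := by
        rcases Nat.eq_zero_or_pos (Nat.find hex) with h0 | h0
        · have := Nat.find_spec hex
          rw [h0] at this
          omega
        · exact h0
      have h1 := Nat.find_min hex (Nat.sub_lt h0 Nat.one_pos)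
      obtain ⟨i, hi⟩ : ∃ i, Nat.find hex = i + 1 := ⟨Nat.find hex - 1, by omega⟩
      rw [hi, Nat.add_sub_cancel] at h1
      rw [hi]
      have h2 : s * (i + 1) = s * i + s := by ring
      rw [h2]
      omega
  set W := s * j with hW
  have hWpos : 0 < W := Nat.mul_pos hs0 hj1
  set u := 3 * W / 4 with hu
  have hu4 : 4 * u ≤ 3 * W := by omega
  have hun : u ≤ n := by omega
  have hfac : (0 : ℝ) < (n.factorial : ℝ) ^ j := by
    have : (0 : ℝ) < (n.factorial : ℝ) := by exact_mod_cast n.factorial_pos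
    positivity
  have hwalk := walk_perm ρ g j
  set Sm := Finset.univ.filter (fun y : Fin j → Perm (Fin n) => (unionY g.support y).card ≤ u)
    with hSm
  have hsmall : ∑ y ∈ Sm, |rr ρ (prodY g y)| ≤ (1 / 2 : ℝ) ^ (5 * W) * (n.factorial : ℝ) ^ j := by
    have h1 : ∑ y ∈ Sm, |rr ρ (prodY g y)| ≤ (Sm.card : ℝ) := by
      refine (Finset.sum_le_card_nsmul _ _ 1 fun y _ => bd_rr_le_one ρ _).trans ?_
      simp
    refine h1.trans ((card_small_union g.support j u hun).trans ?_)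
    exact mul_le_mul_of_nonneg_right (bd_choose hn hj3 hu4) hfac.le
  have hlarge : ∑ y ∈ Finset.univ.filter (fun y : Fin j → Perm (Fin n) =>
      ¬ (unionY g.support y).card ≤ u), |rr ρ (prodY g y)| ≤
        (1 / 2 : ℝ) ^ (5 * W) * (n.factorial : ℝ) ^ j := by
    refine (Finset.sum_le_card_nsmul _ _ ((1 / 2 : ℝ) ^ (5 * W)) fun y hy => ?_).trans ?_
    · rw [Finset.mem_filter] at hy
      have h1 := support_prod g y
      have h2 : W < 2 * (prodY g y).support.card := by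
        have h3 : j * g.support.card = W := by rw [hW, hsdef, mul_comm]
        rw [h3] at h1
        omega
      have h4 : 3 * (n : ℝ) ≤ 2 ^ 28 * (prodY g y).support.card := by
        have h5 : 3 * n ≤ 2 ^ 28 * (prodY g y).support.card := by omega
        exact_mod_cast h5
      refine (ratio_big ρ hB hk _ h4 (by omega)).trans ?_
      exact pow_le_pow_of_le_one (by norm_num) (by norm_num) (by omega)
    · rw [nsmul_eq_mul, mul_comm]
      refine mul_le_mul_of_nonneg_left ?_ (by positivity)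
      have h1 : (Finset.univ.filter (fun y : Fin j → Perm (Fin n) =>
          ¬ (unionY g.support y).card ≤ u)).card ≤ n.factorial ^ j := by
        refine (Finset.card_le_univ _).trans ?_
        rw [Fintype.card_fun, Fintype.card_perm, Fintype.card_fin, Fintype.card_fin]
      exact_mod_cast h1
  have hmain : |rr ρ g| ^ j * (n.factorial : ℝ) ^ j ≤
      ((1 / 16 : ℝ) ^ s) ^ j * (n.factorial : ℝ) ^ j := by
    calc |rr ρ g| ^ j * (n.factorial : ℝ) ^ j = |(rr ρ g) ^ j * (n.factorial : ℝ) ^ j| := by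
          rw [abs_mul, abs_pow, abs_of_pos hfac]
      _ = |∑ y : Fin j → Perm (Fin n), rr ρ (prodY g y)| := by rw [hwalk]
      _ ≤ ∑ y : Fin j → Perm (Fin n), |rr ρ (prodY g y)| := Finset.abs_sum_le_sum_abs _ _
      _ = ∑ y ∈ Sm, |rr ρ (prodY g y)| + ∑ y ∈ Finset.univ.filter
            (fun y : Fin j → Perm (Fin n) => ¬ (unionY g.support y).card ≤ u),
              |rr ρ (prodY g y)| := (Finset.sum_filter_add_sum_filter_not _ _ _).symm
      _ ≤ (1 / 2 : ℝ) ^ (5 * W) * (n.factorial : ℝ) ^ j +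
            (1 / 2 : ℝ) ^ (5 * W) * (n.factorial : ℝ) ^ j := add_le_add hsmall hlarge
      _ = (2 * (1 / 2 : ℝ) ^ (5 * W)) * (n.factorial : ℝ) ^ j := by ring
      _ ≤ ((1 / 16 : ℝ) ^ s) ^ j * (n.factorial : ℝ) ^ j := by
          refine mul_le_mul_of_nonneg_right ?_ hfac.le
          have h1 : ((1 / 16 : ℝ) ^ s) ^ j = (1 / 2 : ℝ) ^ (4 * W) := by
            rw [h16, ← pow_mul, ← pow_mul, hW]
          have h2 : 2 * (1 / 2 : ℝ) ^ (5 * W) = (1 / 2 : ℝ) ^ (5 * W - 1) := by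
            obtain ⟨i, hi⟩ : ∃ i, 5 * W = i + 1 := ⟨5 * W - 1, by omega⟩
            rw [hi, Nat.add_sub_cancel, pow_succ]
            ring
          rw [h1, h2]
          exact pow_le_pow_of_le_one (by norm_num) (by norm_num) (by omega)
  have h1 : |rr ρ g| ^ j ≤ ((1 / 16 : ℝ) ^ s) ^ j := le_of_mul_le_mul_right hmain hfac
  exact (pow_le_pow_iff_left₀ (abs_nonneg _) (by positivity) hj1.ne').1 h1

end Pool.Agent.Helper1.TS
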