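import Mathlib

/-!
TS-BR (helper1): simple objects of `FDRep` and irreducible representations.
-/

set_option autoImplicit false

open Module CategoryTheory

namespace Pool.Agent.Helper1.TS

variable {G : Type} [Group G] [Fintype G]

/-- A representation whose character has norm one is irreducible. -/
theorem irreducible_of_norm {V : Type} [AddCommGroup V] [Module ℂ V] [FiniteDimensional ℂ V]
    (ρ : Representation ℂ G V)
    (h : ∑ g : G, ρ.character g * ρ.character g⁻¹ = (Nat.card G : ℂ)) : ρ.IsIrreducible := by
  have hc : (Nat.card G : ℂ) ≠ 0 := Nat.cast_ne_zero.2 (Nat.card_ne_zero.2 ⟨inferInstance, inferInstance⟩)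
  let _ : Invertible (Nat.card G : ℂ) := invertibleOfNonzero hc
  have : NeZero (Nat.card G : ℂ) := ⟨hc⟩
  have h1 := Representation.card_inv_mul_sum_char_mul_char_eq_finrank ρ ρ
  rw [h, inv_mul_cancel₀ hc] at h1
  have h2 : finrank ℂ (Representation.IntertwiningMap ρ ρ) = 1 := by exact_mod_cast h1.symm
  -- nontrivial
  have hV : Nontrivial V := by
    by_contra hV
    rw [not_nontrivial_iff_subsingleton] at hV
    have : Subsingleton (Representation.IntertwiningMap ρ ρ) :=
      ⟨fun f g => by ext v; exact Subsingleton.elim _ _⟩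
    rw [finrank_zero_of_subsingleton] at h2
    exact absurd h2 (by norm_num)
  let I : Representation.IntertwiningMap ρ ρ :=
    (LinearMap.id : V →ₗ[ℂ] V).intertwiningMap_of_isIntertwiningMap ρ ρ (fun g v => rfl)
  have hI : ∀ v, I v = v := fun v => rfl
  have hI0 : I ≠ 0 := by
    intro h0
    obtain ⟨v, hv⟩ := exists_ne (0 : V)
    apply hv
    rw [← hI v, h0]
    rfl
  have h3 := (finrank_eq_one_iff_of_nonzero' I hI0).1 h2
  refine @IsSimpleOrder.mk _ _ _ ?_ ?_
  · refine ⟨⊥, ⊤, fun hbt => ?_⟩
    have h4 := congrArg Subrepresentation.toSubmodule hbt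
    exact bot_ne_top h4
  · intro σ
    obtain ⟨τ, hτ⟩ := exists_isCompl σ
    have hC : IsCompl σ.toSubmodule τ.toSubmodule := by
      constructor
      · rw [disjoint_iff]
        exact congrArg Subrepresentation.toSubmodule hτ.inf_eq_bot
      · rw [codisjoint_iff]
        exact congrArg Subrepresentation.toSubmodule hτ.sup_eq_top
    let P : V →ₗ[ℂ] V := Submodule.projection σ.toSubmodule τ.toSubmodule hC
    have hP : ∀ (g : G) (v : V), P (ρ g v) = ρ g (P v) := by
      intro g v
      obtain ⟨a, ha, b, hb, rfl⟩ := Submodule.mem_sup.1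
        (hC.sup_eq_top ▸ Submodule.mem_top : v ∈ σ.toSubmodule ⊔ τ.toSubmodule)
      have hga := σ.apply_mem_toSubmodule g ha
      have hgb := τ.apply_mem_toSubmodule g hb
      rw [map_add (ρ g), map_add, map_add]
      have e1 : P (ρ g a) = ρ g a := (Submodule.projection_eq_self_iff hC _).2 hga
      have e2 : P (ρ g b) = 0 := (Submodule.projection_apply_eq_zero_iff hC).2 hgb
      have e3 : P a = a := (Submodule.projection_eq_self_iff hC _).2 ha
      have e4 : P b = 0 := (Submodule.projection_apply_eq_zero_iff hC).2 hb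
      rw [e1, e2, e3, e4, add_zero, add_zero]
    obtain ⟨c, hc'⟩ := h3 (P.intertwiningMap_of_isIntertwiningMap ρ ρ hP)
    have h5 : ∀ v : V, c • v = P v := by
      intro v
      have := congrArg (fun f : Representation.IntertwiningMap ρ ρ => f v) hc'
      exact this
    by_cases hσ : σ.toSubmodule = ⊥
    · left
      exact Subrepresentation.toSubmodule_injective hσ
    · right
      obtain ⟨a, ha, ha0⟩ := Submodule.exists_mem_ne_zero_of_ne_bot hσ
      have h6 : c • a = a := by rw [h5]; exact (Submodule.projection_eq_self_iff hC _).2 ha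
      have h7 : c = 1 := by
        have : (c - 1) • a = 0 := by rw [sub_smul, h6, one_smul, sub_self]
        rcases smul_eq_zero.1 this with h | h
        · exact sub_eq_zero.1 h
        · exact absurd h ha0
      apply Subrepresentation.toSubmodule_injective
      change σ.toSubmodule = ⊤
      rw [eq_top_iff]
      intro v _
      rw [← Submodule.projection_eq_self_iff hC, ← h5, h7, one_smul]

theorem irr_of_simple (W : FDRep ℂ G) (hW : Simple W) : Representation.IsIrreducible W.ρ :=
  irreducible_of_norm W.ρ ((FDRep.simple_iff_char_is_norm_one W).1 hW)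

theorem norm_of_irreducible {V : Type} [AddCommGroup V] [Module ℂ V] [FiniteDimensional ℂ V]
    (ρ : Representation ℂ G V) [ρ.IsIrreducible] :
    ∑ g : G, ρ.character g * ρ.character g⁻¹ = (Nat.card G : ℂ) := by
  have hc : (Nat.card G : ℂ) ≠ 0 := Nat.cast_ne_zero.2 (Nat.card_ne_zero.2 ⟨inferInstance, inferInstance⟩)
  let _ : Invertible (Nat.card G : ℂ) := invertibleOfNonzero hc
  have h1 := Representation.card_inv_mul_sum_char_mul_char_eq_finrank ρ ρ
  rw [Representation.IsIrreducible.finrank_intertwiningMap_self, Nat.cast_one] at h1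
  have h2 := congrArg (fun z => (Nat.card G : ℂ) * z) h1
  simpa [mul_inv_cancel_left₀ hc] using h2

theorem simple_of_irr {V : Type} [AddCommGroup V] [Module ℂ V] [FiniteDimensional ℂ V]
    (ρ : Representation ℂ G V) [ρ.IsIrreducible] : Simple (FDRep.of ρ) := by
  rw [FDRep.simple_iff_char_is_norm_one]
  exact norm_of_irreducible ρ

end Pool.Agent.Helper1.TS
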