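import Pool.Agent.Helper1.TS.REG
import Pool.Agent.Helper1.TS.A0

/-!
BLOCK TS-CHI (about 120 lines). Section 6, the choice of `χ`.

Proof in words. `G = Perm (Fin n)`, `U i` from `exists_family`, `d i = finrank (U i) ≥ 1`, `r i g = rr (U i).ρ g`; the characters are real
and `χ(g⁻¹) = χ(g)` (`char_perm_real`, `char_perm_inv`), so `∑ i, d i * (r i g)² = n! / cls g`.
`F i = ∑_{g ≠ 1} (r i g)² 4^(-s(g))`, `Q i = ∑_g (r i g)² = n! / (d i)²` (`FDRep.simple_iff_char_is_norm_one` or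
`char_orthonormal`). `∑ i, d i F i = n! ∑_{g≠1} 4^(-s(g)) / cls g ≤ n!/4` (`sum_weight_cls`), `∑ i, d i Q i = n! K`, `K` the number of
classes (`sum_inv_cls`), `K ≥ 1`. So `∑ i, d i (2 F i + Q i / (4K)) ≤ (3/4) n! < n! = ∑ i, d i`, and some `i` has
`2 F i + Q i / (4 K) < 1`: `F i ≤ 1/2`, `Q i < 4 K`, so `(d i)² > n! / (4K) ≥ n! / (2 * (2^n + 1)) ≥ n! / 2^(n+2)`.
-/

set_option autoImplicit false

open Module Equiv CategoryTheory

namespace Pool.Agent.Helper1.TS

theorem exists_chi (n : ℕ) :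
    ∃ U : FDRep ℂ (Perm (Fin n)), Simple U ∧
      ∑ g ∈ (Finset.univ : Finset (Perm (Fin n))).erase 1,
        (rr U.ρ g) ^ 2 * (1 / 4 : ℝ) ^ g.support.card ≤ 1 / 2 ∧
      (n.factorial : ℝ) ≤ 2 ^ (n + 2) * (finrank ℂ U : ℝ) ^ 2 := by
  classical
  obtain ⟨N, U, hsimple, hsum, hreg⟩ := exists_family (Perm (Fin n))
  have hcard : Fintype.card (Perm (Fin n)) = n.factorial := by
    rw [Fintype.card_perm, Fintype.card_fin]
  have hfac : (0 : ℝ) < n.factorial := by exact_mod_cast n.factorial_pos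
  have c1 : ∀ i g, (U i).character g = ((Representation.character (U i).ρ g).re : ℂ) := fun i g =>
    char_perm_real (U i).ρ g
  have c2 : ∀ i g, (U i).character g⁻¹ = (U i).character g := fun i g => char_perm_inv (U i).ρ g
  have h3 : ∀ g : Perm (Fin n), ∑ i, (finrank ℂ (U i) : ℝ) * (rr (U i).ρ g) ^ 2 =
      (n.factorial : ℝ) * (1 / cls g) := by
    intro g
    have h := hreg g
    have e : ∀ i, (U i).character g * (U i).character g⁻¹ / (finrank ℂ (U i) : ℂ) =
        (((finrank ℂ (U i) : ℝ) * (rr (U i).ρ g) ^ 2 : ℝ) : ℂ) := by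
      intro i
      rw [c2, c1]
      unfold rr
      by_cases h0 : finrank ℂ (U i) = 0
      · simp [h0]
      · have h0' : (finrank ℂ (U i) : ℂ) ≠ 0 := by exact_mod_cast h0
        push_cast
        field_simp
    rw [Finset.sum_congr rfl fun i _ => e i, hcard] at h
    have h' : ((∑ i, (finrank ℂ (U i) : ℝ) * (rr (U i).ρ g) ^ 2 : ℝ) : ℂ) =
        (((n.factorial : ℝ) * (1 / cls g) : ℝ) : ℂ) := by
      push_cast at h ⊢
      rw [h]
      ring
    exact_mod_cast h'
  set K : ℝ := (Nat.card (ConjClasses (Perm (Fin n))) : ℝ) with hK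
  have hK1 : (0 : ℝ) < K := by
    rw [hK]
    exact_mod_cast Nat.card_pos
  have hK2 : 2 * K ≤ 2 ^ n + 1 := by
    rw [hK]
    exact_mod_cast card_classes_le n
  set F : Fin N → ℝ := fun i => ∑ g ∈ (Finset.univ : Finset (Perm (Fin n))).erase 1,
        (rr (U i).ρ g) ^ 2 * (1 / 4 : ℝ) ^ g.support.card with hF
  set Q : Fin N → ℝ := fun i => ∑ g : Perm (Fin n), (rr (U i).ρ g) ^ 2 with hQ
  have hF0 : ∀ i, 0 ≤ F i := fun i => Finset.sum_nonneg fun g _ => by positivity
  have hQ0 : ∀ i, 0 ≤ Q i := fun i => Finset.sum_nonneg fun g _ => by positivity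
  have hSF : ∑ i, (finrank ℂ (U i) : ℝ) * F i ≤ (n.factorial : ℝ) * (1 / 4) := by
    calc ∑ i, (finrank ℂ (U i) : ℝ) * F i
        = ∑ g ∈ (Finset.univ : Finset (Perm (Fin n))).erase 1,
            (∑ i, (finrank ℂ (U i) : ℝ) * (rr (U i).ρ g) ^ 2) * (1 / 4 : ℝ) ^ g.support.card := by
          simp only [hF, Finset.mul_sum, Finset.sum_mul]
          rw [Finset.sum_comm]
          refine Finset.sum_congr rfl fun g _ => Finset.sum_congr rfl fun i _ => by ring
      _ = (n.factorial : ℝ) * ∑ g ∈ (Finset.univ : Finset (Perm (Fin n))).erase 1,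
            (1 / 4 : ℝ) ^ g.support.card / cls g := by
          rw [Finset.mul_sum]
          refine Finset.sum_congr rfl fun g _ => ?_
          rw [h3]
          ring
      _ ≤ _ := mul_le_mul_of_nonneg_left (sum_weight_cls n) hfac.le
  have hSQ : ∑ i, (finrank ℂ (U i) : ℝ) * Q i = (n.factorial : ℝ) * K := by
    calc ∑ i, (finrank ℂ (U i) : ℝ) * Q i
        = ∑ g : Perm (Fin n), ∑ i, (finrank ℂ (U i) : ℝ) * (rr (U i).ρ g) ^ 2 := by
          simp only [hQ, Finset.mul_sum]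
          rw [Finset.sum_comm]
      _ = ∑ g : Perm (Fin n), (n.factorial : ℝ) * (1 / cls g) :=
          Finset.sum_congr rfl fun g _ => h3 g
      _ = _ := by rw [← Finset.mul_sum, sum_inv_cls]
  have hSd : ∑ i, (finrank ℂ (U i) : ℝ) = n.factorial := by
    rw [← hcard, ← hsum]
    push_cast
    rfl
  obtain ⟨i, hi⟩ : ∃ i, (finrank ℂ (U i) : ℝ) * (2 * F i + Q i / (4 * K)) < finrank ℂ (U i) := by
    by_contra hc
    push Not at hc
    have h4 : ∑ i, (finrank ℂ (U i) : ℝ) ≤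
        ∑ i, (finrank ℂ (U i) : ℝ) * (2 * F i + Q i / (4 * K)) :=
      Finset.sum_le_sum fun i _ => hc i
    have h5 : ∑ i, (finrank ℂ (U i) : ℝ) * (2 * F i + Q i / (4 * K)) =
        2 * ∑ i, (finrank ℂ (U i) : ℝ) * F i + (∑ i, (finrank ℂ (U i) : ℝ) * Q i) / (4 * K) := by
      rw [Finset.mul_sum, Finset.sum_div, ← Finset.sum_add_distrib]
      exact Finset.sum_congr rfl fun i _ => by ring
    rw [h5, hSQ, hSd] at h4
    have h6 : (n.factorial : ℝ) * K / (4 * K) = n.factorial / 4 := by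
      field_simp
    rw [h6] at h4
    linarith
  have hd0 : (0 : ℝ) < finrank ℂ (U i) := by
    rcases Nat.eq_zero_or_pos (finrank ℂ (U i)) with h | h
    · rw [h] at hi
      simp at hi
    · exact_mod_cast h
  have hi2 : 2 * F i + Q i / (4 * K) < 1 := by
    have : (finrank ℂ (U i) : ℝ) * (2 * F i + Q i / (4 * K)) < finrank ℂ (U i) * 1 := by
      rw [mul_one]; exact hi
    exact lt_of_mul_lt_mul_left this hd0.le
  have hQK : 0 ≤ Q i / (4 * K) := div_nonneg (hQ0 i) (by positivity)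
  refine ⟨U i, hsimple i, ?_, ?_⟩
  · change F i ≤ 1 / 2
    linarith
  · have hQlt : Q i < 4 * K := by
      have h4 : Q i / (4 * K) < 1 := by linarith [hF0 i]
      rwa [div_lt_one (by positivity)] at h4
    have hQd : (n.factorial : ℝ) = (finrank ℂ (U i) : ℝ) ^ 2 * Q i := by
      have := hsimple i
      have hne : (Nat.card (Perm (Fin n)) : ℂ) ≠ 0 := by
        rw [Nat.card_eq_fintype_card, hcard]
        exact_mod_cast n.factorial_ne_zero
      let _ : Invertible (Nat.card (Perm (Fin n)) : ℂ) := invertibleOfNonzero hne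
      have h4 := FDRep.char_orthonormal (U i) (U i)
      rw [if_pos ⟨Iso.refl _⟩] at h4
      have h5 : ∑ g, (U i).character g * (U i).character g⁻¹ = (n.factorial : ℂ) := by
        have h6 := congrArg (fun z => (Nat.card (Perm (Fin n)) : ℂ) * z) h4
        rw [mul_inv_cancel_left₀ hne, mul_one, Nat.card_eq_fintype_card, hcard] at h6
        exact h6
      have h7 : ∀ g, (U i).character g * (U i).character g⁻¹ =
          (((finrank ℂ (U i) : ℝ) ^ 2 * (rr (U i).ρ g) ^ 2 : ℝ) : ℂ) := by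
        intro g
        have h0' : (finrank ℂ (U i) : ℂ) ≠ 0 := by exact_mod_cast hd0.ne'
        rw [c2, c1]
        unfold rr
        push_cast
        field_simp
      rw [Finset.sum_congr rfl fun g _ => h7 g] at h5
      have h8 : ((∑ g, (finrank ℂ (U i) : ℝ) ^ 2 * (rr (U i).ρ g) ^ 2 : ℝ) : ℂ) =
          ((n.factorial : ℝ) : ℂ) := by
        push_cast at h5 ⊢
        exact h5
      have h9 : ∑ g, (finrank ℂ (U i) : ℝ) ^ 2 * (rr (U i).ρ g) ^ 2 = (n.factorial : ℝ) := by
        exact_mod_cast h8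
      rw [← h9, hQ, Finset.mul_sum]
    rw [hQd]
    have h10 : Q i ≤ 2 ^ (n + 2) := by
      have h11 : (1 : ℝ) ≤ 2 ^ n := one_le_pow₀ (by norm_num)
      have h12 : (2 : ℝ) ^ (n + 2) = 4 * 2 ^ n := by rw [pow_add]; ring
      rw [h12]
      linarith
    have h13 : 0 ≤ (finrank ℂ (U i) : ℝ) ^ 2 := by positivity
    calc (finrank ℂ (U i) : ℝ) ^ 2 * Q i ≤ (finrank ℂ (U i) : ℝ) ^ 2 * 2 ^ (n + 2) :=
          mul_le_mul_of_nonneg_left h10 h13
      _ = _ := mul_comm _ _

end Pool.Agent.Helper1.TS
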