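import Pool.Agent.Helper1.TS.Defs

/-!
BLOCK TS-CLS (about 150 lines). Conjugacy classes of `S_n`.

`cls g` is the number of conjugates of `g`.
Proofs in words.
* `sum_inv_cls`: group the sum by conjugacy classes.
* `card_classes_le`: classes ↔ cycle types ↔ partitions of `n` (`Equiv.Perm.partition`, `Equiv.Perm.partition_eq_of_isConj`), and
  `Nat.Partition n` is an image of `Composition n`, of which there are `2^(n-1)` (`Nat.Partition.ofComposition_surj`,
  `composition_card`).
* `sum_weight_cls`: the sum is `∑ over classes ≠ 1 of (1/4)^s`. The classes with support of cardinality `s` are determined by the cycle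
  type, a multiset of numbers `≥ 2` with sum `s` (`Equiv.Perm.sum_cycleType`), so there are at most
  `card (Nat.Partition s) ≤ 2^(s-1)` of them, and `∑_{s ≥ 2} 2^(s-1) 4^(-s) = 1/4` (no class with `s = 1`, `s = 0` only `g = 1`).
-/

set_option autoImplicit false

open Equiv

namespace Pool.Agent.Helper1.TS

open Classical in
/-- The number of conjugates. -/
noncomputable def cls {G : Type*} [Group G] [Fintype G] (g : G) : ℕ :=
  (Finset.univ.filter (fun h => IsConj g h)).card

private lemma h24_cls_pos {G : Type*} [Group G] [Fintype G] (g : G) : 0 < cls g := by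
  classical
  unfold cls
  rw [Finset.card_pos]
  exact ⟨g, Finset.mem_filter.2 ⟨Finset.mem_univ _, IsConj.refl g⟩⟩

theorem sum_inv_cls (G : Type*) [Group G] [Fintype G] :
    ∑ g : G, (1 : ℝ) / cls g = Nat.card (ConjClasses G) := by
  classical
  have : Fintype (ConjClasses G) := Fintype.ofFinite _
  rw [← Finset.sum_fiberwise Finset.univ (fun g : G => ConjClasses.mk g)]
  have h1 : ∀ c : ConjClasses G, ∑ g ∈ Finset.univ.filter (fun g : G => ConjClasses.mk g = c),
      (1 : ℝ) / cls g = 1 := by
    intro c
    obtain ⟨a, rfl⟩ := ConjClasses.exists_rep c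
    have h2 : ∀ g ∈ Finset.univ.filter (fun g : G => ConjClasses.mk g = ConjClasses.mk a),
        (1 : ℝ) / cls g = 1 / cls a := by
      intro g hg
      have h3 : ConjClasses.mk g = ConjClasses.mk a := (Finset.mem_filter.1 hg).2
      have h4 : cls g = cls a := by
        unfold cls
        congr 1
        ext h
        simp only [Finset.mem_filter, Finset.mem_univ, true_and]
        rw [← ConjClasses.mk_eq_mk_iff_isConj, ← ConjClasses.mk_eq_mk_iff_isConj, h3]
      rw [h4]
    rw [Finset.sum_congr rfl h2, Finset.sum_const, nsmul_eq_mul]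
    have h5 : (Finset.univ.filter (fun g : G => ConjClasses.mk g = ConjClasses.mk a)).card =
        cls a := by
      unfold cls
      congr 1
      ext h
      simp only [Finset.mem_filter, Finset.mem_univ, true_and]
      rw [← ConjClasses.mk_eq_mk_iff_isConj]
      exact eq_comm
    rw [h5]
    have h6 : (0 : ℝ) < cls a := by exact_mod_cast h24_cls_pos a
    field_simp
  rw [Finset.sum_congr rfl (fun c _ => h1 c), Finset.sum_const, nsmul_eq_mul, mul_one,
    Nat.card_eq_fintype_card, Finset.card_univ]

private lemma h24_partition_card (n : ℕ) : Fintype.card (Nat.Partition n) ≤ 2 ^ (n - 1) := by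
  classical
  rw [← composition_card n]
  exact Fintype.card_le_of_surjective _ Nat.Partition.ofComposition_surj

theorem card_classes_le (n : ℕ) : 2 * Nat.card (ConjClasses (Perm (Fin n))) ≤ 2 ^ n + 1 := by
  classical
  have h1 : Nat.card (ConjClasses (Perm (Fin n))) ≤ 2 ^ (n - 1) := by
    refine le_trans ?_ (h24_partition_card n)
    have e : Fintype.card (Fin n) = n := Fintype.card_fin n
    rw [← Nat.card_eq_fintype_card]
    have hinj2 : Function.Injective (Quotient.lift
        (fun g : Perm (Fin n) => g.partition)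
        (fun a b h => Equiv.Perm.partition_eq_of_isConj.1 h) :
          ConjClasses (Perm (Fin n)) → (Fintype.card (Fin n)).Partition) := by
      intro a b
      refine Quotient.inductionOn₂ a b (fun x y h => ?_)
      exact Quotient.sound (Equiv.Perm.partition_eq_of_isConj.2 h)
    have h2 := Nat.card_le_card_of_injective _ hinj2
    rwa [e] at h2
  rcases Nat.eq_zero_or_pos n with h | h
  · subst h
    norm_num at h1 ⊢
    omega
  · have h3 : 2 ^ n = 2 * 2 ^ (n - 1) := by
      conv_lhs => rw [show n = (n - 1) + 1 by omega, pow_succ]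
      ring
    omega

private lemma h24_geom (n : ℕ) :
    ∑ s ∈ Finset.Ico 2 (n + 2), (2 : ℝ) ^ (s - 1) * (1 / 4) ^ s = 1 / 4 - (1 / 2) ^ (n + 2) := by
  induction n with
  | zero => norm_num
  | succ n ih =>
    rw [Finset.sum_Ico_succ_top (by omega), ih]
    have h1 : n + 2 - 1 = n + 1 := by omega
    rw [h1]
    have h2 : (1 / 4 : ℝ) ^ (n + 2) = (1 / 2) ^ (n + 2) * (1 / 2) ^ (n + 2) := by
      rw [← mul_pow]
      norm_num
    have h3 : (2 : ℝ) ^ (n + 1) * (1 / 2) ^ (n + 1) = 1 := by
      rw [← mul_pow]
      norm_num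
    rw [h2, show n + 1 + 2 = (n + 1) + 1 + 1 by ring, show n + 2 = (n + 1) + 1 by ring]
    simp only [pow_succ _ (n + 1), pow_succ _ (n + 1 + 1)]
    linear_combination (1 / 2 : ℝ) ^ (n + 1) * (1 / 4) * h3

theorem sum_weight_cls (n : ℕ) :
    ∑ g ∈ (Finset.univ : Finset (Perm (Fin n))).erase 1,
      (1 / 4 : ℝ) ^ g.support.card / cls g ≤ 1 / 4 := by
  classical
  set E : Finset (Perm (Fin n)) := (Finset.univ : Finset (Perm (Fin n))).erase 1 with hE
  set I : Finset (Multiset ℕ) := E.image (fun g => g.cycleType) with hI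
  have hmap : ∀ g ∈ E, g.cycleType ∈ I := fun g hg => Finset.mem_image_of_mem _ hg
  rw [← Finset.sum_fiberwise_of_maps_to hmap]
  -- the sum over one class
  have hcl : ∀ m ∈ I, ∑ g ∈ E.filter (fun g => g.cycleType = m),
      (1 / 4 : ℝ) ^ g.support.card / cls g = (1 / 4) ^ m.sum := by
    intro m hm
    obtain ⟨a, haE, ha⟩ := Finset.mem_image.1 hm
    have ha1 : a ≠ 1 := (Finset.mem_erase.1 haE).1
    have h2 : ∀ g ∈ E.filter (fun g => g.cycleType = m),
        (1 / 4 : ℝ) ^ g.support.card / cls g = (1 / 4) ^ m.sum / cls a := by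
      intro g hg
      have h3 : g.cycleType = m := (Finset.mem_filter.1 hg).2
      have h4 : cls g = cls a := by
        unfold cls
        congr 1
        ext h
        simp only [Finset.mem_filter, Finset.mem_univ, true_and]
        rw [Equiv.Perm.isConj_iff_cycleType_eq, Equiv.Perm.isConj_iff_cycleType_eq, h3, ← ha]
      rw [h4, ← Equiv.Perm.sum_cycleType, h3]
    rw [Finset.sum_congr rfl h2, Finset.sum_const, nsmul_eq_mul]
    have h5 : (E.filter (fun g => g.cycleType = m)).card = cls a := by
      unfold cls
      congr 1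
      ext h
      simp only [Finset.mem_filter, Finset.mem_univ, true_and, hE, Finset.mem_erase, and_true]
      rw [Equiv.Perm.isConj_iff_cycleType_eq]
      constructor
      · intro h6
        rw [h6.2]
        exact ha
      · intro h6
        have h7 : h.cycleType = m := by
          rw [← h6]
          exact ha
        refine ⟨?_, h7⟩
        intro h8
        apply ha1
        rw [h8, Equiv.Perm.cycleType_one] at h6
        exact Equiv.Perm.cycleType_eq_zero.1 h6
    rw [h5]
    have h6 : (0 : ℝ) < cls a := by exact_mod_cast h24_cls_pos a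
    field_simp
  rw [Finset.sum_congr rfl hcl]
  -- group by the size of the support
  have hmap2 : ∀ m ∈ I, m.sum ∈ Finset.Ico 2 (n + 2) := by
    intro m hm
    obtain ⟨a, haE, ha⟩ := Finset.mem_image.1 hm
    have ha1 : a ≠ 1 := (Finset.mem_erase.1 haE).1
    have hs : m.sum = a.support.card := by
      rw [← ha]
      exact Equiv.Perm.sum_cycleType a
    have h1 : 2 ≤ a.support.card := Equiv.Perm.two_le_card_support_of_ne_one ha1
    have h2 : a.support.card ≤ n := by
      have := Finset.card_le_univ a.support
      rwa [Fintype.card_fin] at this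
    rw [hs, Finset.mem_Ico]
    omega
  rw [← Finset.sum_fiberwise_of_maps_to hmap2]
  have hcount : ∀ s ∈ Finset.Ico 2 (n + 2), ∑ m ∈ I.filter (fun m => m.sum = s), (1 / 4 : ℝ) ^ m.sum ≤
      (2 : ℝ) ^ (s - 1) * (1 / 4) ^ s := by
    intro s _
    have h1 : ∀ m ∈ I.filter (fun m => m.sum = s), (1 / 4 : ℝ) ^ m.sum = (1 / 4) ^ s := by
      intro m hm
      rw [(Finset.mem_filter.1 hm).2]
    rw [Finset.sum_congr rfl h1, Finset.sum_const, nsmul_eq_mul]
    have h2 : (I.filter (fun m => m.sum = s)).card ≤ 2 ^ (s - 1) := by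
      refine le_trans ?_ (h24_partition_card s)
      have h3 : I.filter (fun m => m.sum = s) ⊆
          (Finset.univ : Finset (Nat.Partition s)).image (fun p => p.parts) := by
        intro m hm
        obtain ⟨hmI, hms⟩ := Finset.mem_filter.1 hm
        obtain ⟨a, haE, ha⟩ := Finset.mem_image.1 hmI
        have hpos : ∀ {i : ℕ}, i ∈ m → 0 < i := by
          intro i hi
          rw [← ha] at hi
          have := Equiv.Perm.two_le_of_mem_cycleType hi
          omega
        exact Finset.mem_image.2 ⟨⟨m, hpos, hms⟩, Finset.mem_univ _, rfl⟩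
      exact (Finset.card_le_card h3).trans (Finset.card_image_le.trans (le_of_eq Finset.card_univ))
    have h3 : ((I.filter (fun m => m.sum = s)).card : ℝ) ≤ 2 ^ (s - 1) := by exact_mod_cast h2
    exact mul_le_mul_of_nonneg_right h3 (by positivity)
  refine (Finset.sum_le_sum hcount).trans ?_
  rw [h24_geom]
  have : (0 : ℝ) < (1 / 2) ^ (n + 2) := by positivity
  linarith

end Pool.Agent.Helper1.TS
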