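import Pool.Agent.Helper1.TS.Defs

/-!
BLOCK TS-JUC (about 120 lines). Jucys' theorem, evaluated on a joint eigenvector.

Proof in words. Induction on `m`. `m = 0`: one permutation, one function. Step `m → m + 1`: every permutation of
`Fin (m+1)` is uniquely `swap 0 p * ê`, `p : Fin (m+1)`, `e : Perm (Fin m)`, `ê` the extension of `e` to the points `succ`
(`Equiv.Perm.decomposeFin`: `decomposeFin.symm (p, e)`). `fixN k ê = k * fixN k e` (the value at `0` is free), and for `p ≠ 0`
`fixN k (swap 0 p * ê) = fixN k e`: `f ∘ (swap 0 p * ê) = f` iff `f 0 = f p` and `(f ∘ succ) ∘ e = f ∘ succ`, so `f ↦ f ∘ succ`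
is a bijection.
So `∑ g, N(g) ρ g v = (k + ∑_{p ≠ 0} ρ (swap 0 p)) (∑ e, N(e) ρ ê v)`, where the inner sum is by induction (for the
representation `e ↦ ρ ê`, whose Jucys-Murphy elements are the `jm ρ (succ i)`) equal to `∏ i, (k + c (succ i)) • v`, and
`∑_{p ≠ 0} ρ (swap 0 p) = jm ρ 0`.
-/

set_option autoImplicit false

open Module Equiv

namespace Pool.Agent.Helper1.TS

private theorem dec_eq {m : ℕ} (p : Fin (m + 1)) (e : Perm (Fin m)) :
    Perm.decomposeFin.symm (p, e) = swap 0 p * Perm.decomposeFin.symm (0, e) := by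
  ext x
  refine Fin.cases ?_ (fun x => ?_) x
  · rw [Perm.mul_apply, Perm.decomposeFin_symm_apply_zero, Perm.decomposeFin_symm_apply_zero,
      swap_apply_left]
  · rw [Perm.mul_apply, Perm.decomposeFin_symm_apply_succ, Perm.decomposeFin_symm_apply_succ,
      swap_self, refl_apply]

/-- extension of a permutation to the points `succ` -/
private def extH (m : ℕ) : Perm (Fin m) →* Perm (Fin (m + 1)) where
  toFun e := Perm.decomposeFin.symm (0, e)
  map_one' := by
    rw [Perm.decomposeFin_symm_of_one, swap_self]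
    rfl
  map_mul' a b := by
    ext x
    refine Fin.cases ?_ (fun x => ?_) x
    · rw [Perm.mul_apply, Perm.decomposeFin_symm_apply_zero, Perm.decomposeFin_symm_apply_zero,
        Perm.decomposeFin_symm_apply_zero]
    · rw [Perm.mul_apply, Perm.decomposeFin_symm_apply_succ, Perm.decomposeFin_symm_apply_succ,
        swap_self, refl_apply, refl_apply, Perm.decomposeFin_symm_apply_succ, swap_self, refl_apply,
        Perm.mul_apply]

private theorem extH_zero {m : ℕ} (e : Perm (Fin m)) : extH m e 0 = 0 :=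
  Perm.decomposeFin_symm_apply_zero _ _

private theorem extH_succ {m : ℕ} (e : Perm (Fin m)) (x : Fin m) :
    extH m e x.succ = (e x).succ := by
  have h := Perm.decomposeFin_symm_apply_succ e 0 x
  rw [swap_self, refl_apply] at h
  exact h

private theorem extH_swap {m : ℕ} (i j : Fin m) : extH m (swap i j) = swap i.succ j.succ := by
  ext x
  refine Fin.cases ?_ (fun x => ?_) x
  · rw [extH_zero, swap_apply_of_ne_of_ne (Fin.succ_ne_zero i).symm (Fin.succ_ne_zero j).symm]
  · rw [extH_succ]
    by_cases h1 : x = i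
    · rw [h1, swap_apply_left, swap_apply_left]
    · by_cases h2 : x = j
      · rw [h2, swap_apply_right, swap_apply_right]
      · rw [swap_apply_of_ne_of_ne h1 h2, swap_apply_of_ne_of_ne
          (fun h => h1 (Fin.succ_injective _ h)) (fun h => h2 (Fin.succ_injective _ h))]

/-- the count as a sum -/
private theorem fixN_eq (k : ℕ) {m : ℕ} (g : Perm (Fin m)) :
    fixN k g = ∑ f : Fin m → Fin k, if f ∘ g = f then 1 else 0 := by
  unfold fixN
  rw [Finset.card_filter]

private theorem sum_cons (k m : ℕ) (F : (Fin (m + 1) → Fin k) → ℕ) :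
    ∑ f : Fin (m + 1) → Fin k, F f = ∑ a : Fin k, ∑ f : Fin m → Fin k, F (Fin.cons a f) := by
  rw [← (Fin.consEquiv (fun _ : Fin (m + 1) => Fin k)).sum_comp, Fintype.sum_prod_type]
  rfl

private theorem fix_zero {k m : ℕ} (e : Perm (Fin m)) (a : Fin k) (f : Fin m → Fin k) :
    ((Fin.cons a f : Fin (m + 1) → Fin k) ∘ (extH m e) = Fin.cons a f) ↔ f ∘ e = f := by
  constructor
  · intro h
    funext x
    have h1 := congrFun h x.succ
    rw [Function.comp_apply, extH_succ, Fin.cons_succ, Fin.cons_succ] at h1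
    exact h1
  · intro h
    funext x
    refine Fin.cases ?_ (fun x => ?_) x
    · rw [Function.comp_apply, extH_zero]
    · rw [Function.comp_apply, extH_succ, Fin.cons_succ, Fin.cons_succ]
      exact congrFun h x

private theorem fix_succ {k m : ℕ} (e : Perm (Fin m)) (i : Fin m) (a : Fin k)
    (f : Fin m → Fin k) :
    ((Fin.cons a f : Fin (m + 1) → Fin k) ∘ (swap 0 i.succ * extH m e : Perm (Fin (m + 1))) =
      Fin.cons a f) ↔ a = f i ∧ f ∘ e = f := by
  set F : Fin (m + 1) → Fin k := Fin.cons a f with hF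
  have hsw : a = f i → ∀ y, F (swap 0 i.succ y) = F y := by
    intro ha y
    by_cases h1 : y = 0
    · rw [h1, swap_apply_left, hF, Fin.cons_succ, Fin.cons_zero]
      exact ha.symm
    · by_cases h2 : y = i.succ
      · rw [h2, swap_apply_right, hF, Fin.cons_succ, Fin.cons_zero]
        exact ha
      · rw [swap_apply_of_ne_of_ne h1 h2]
  constructor
  · intro h
    have h0 := congrFun h 0
    rw [Function.comp_apply, Perm.mul_apply, extH_zero, swap_apply_left, hF, Fin.cons_succ,
      Fin.cons_zero] at h0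
    refine ⟨h0.symm, ?_⟩
    funext x
    have h1 := congrFun h x.succ
    rw [Function.comp_apply, Perm.mul_apply, extH_succ, hsw h0.symm, hF, Fin.cons_succ,
      Fin.cons_succ] at h1
    exact h1
  · rintro ⟨ha, h⟩
    funext x
    rw [Function.comp_apply, Perm.mul_apply, hsw ha]
    refine Fin.cases ?_ (fun x => ?_) x
    · rw [extH_zero]
    · rw [extH_succ, hF, Fin.cons_succ, Fin.cons_succ]
      exact congrFun h x

private theorem fixN_zero (k : ℕ) {m : ℕ} (e : Perm (Fin m)) :
    fixN k (extH m e) = k * fixN k e := by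
  rw [fixN_eq, fixN_eq, sum_cons]
  simp only [fix_zero, Finset.sum_const, Finset.card_univ, Fintype.card_fin, smul_eq_mul]

private theorem fixN_succ (k : ℕ) {m : ℕ} (e : Perm (Fin m)) (i : Fin m) :
    fixN k (swap 0 i.succ * extH m e) = fixN k e := by
  rw [fixN_eq, fixN_eq, sum_cons, Finset.sum_comm]
  refine Finset.sum_congr rfl (fun f _ => ?_)
  simp only [fix_succ]
  by_cases h : f ∘ e = f
  · simp [h]
  · simp [h]

private theorem jm_succ {m : ℕ} {V : Type*} [AddCommGroup V] [Module ℂ V]
    (ρ : Representation ℂ (Perm (Fin (m + 1))) V) (i : Fin m) :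
    jm (ρ.comp (extH m)) i = jm ρ i.succ := by
  unfold jm
  rw [Finset.sum_filter, Finset.sum_filter, Fin.sum_univ_succ]
  rw [if_neg (by simp), zero_add]
  refine Finset.sum_congr rfl (fun j _ => ?_)
  simp only [Fin.succ_lt_succ_iff]
  split_ifs with h
  · rw [MonoidHom.comp_apply, extH_swap]
  · rfl

private theorem jm_zero {m : ℕ} {V : Type*} [AddCommGroup V] [Module ℂ V]
    (ρ : Representation ℂ (Perm (Fin (m + 1))) V) :
    jm ρ 0 = ∑ i : Fin m, ρ (swap 0 i.succ) := by
  unfold jm
  rw [Finset.sum_filter, Fin.sum_univ_succ]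
  rw [if_neg (lt_irrefl _), zero_add]
  refine Finset.sum_congr rfl (fun j _ => ?_)
  rw [if_pos (Fin.succ_pos j)]

theorem jucys (k : ℕ) {m : ℕ} {V : Type*} [AddCommGroup V] [Module ℂ V]
    (ρ : Representation ℂ (Perm (Fin m)) V) (c : Fin m → ℝ) (v : V)
    (h : ∀ i, jm ρ i v = (c i : ℂ) • v) :
    ∑ g : Perm (Fin m), (fixN k g : ℂ) • ρ g v = (∏ i, ((k : ℂ) + c i)) • v := by
  induction m with
  | zero =>
    have h1 : fixN k (1 : Perm (Fin 0)) = 1 := by
      rw [fixN_eq]
      rw [Fintype.sum_subsingleton _ (Fin.elim0 : Fin 0 → Fin k)]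
      rw [if_pos (Subsingleton.elim _ _)]
    rw [Fintype.sum_subsingleton _ (1 : Perm (Fin 0)), h1, map_one]
    simp
  | succ m ih =>
    have hIH := ih (ρ.comp (extH m)) (fun i => c i.succ) (fun i => by
      rw [jm_succ]
      exact h i.succ)
    set C : ℂ := ∏ i : Fin m, ((k : ℂ) + c i.succ) with hC
    have hsplit : ∑ g : Perm (Fin (m + 1)), (fixN k g : ℂ) • ρ g v =
        ∑ e : Perm (Fin m), (fixN k (extH m e) : ℂ) • ρ (extH m e) v +
          ∑ i : Fin m, ∑ e : Perm (Fin m),
            (fixN k (swap 0 i.succ * extH m e) : ℂ) • ρ (swap 0 i.succ * extH m e) v := by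
      rw [← (Perm.decomposeFin (n := m)).symm.sum_comp, Fintype.sum_prod_type,
        Fin.sum_univ_succ]
      congr 1
      refine Finset.sum_congr rfl (fun i _ => Finset.sum_congr rfl (fun e _ => ?_))
      rw [dec_eq]
      rfl
    have hw : ∑ e : Perm (Fin m), (fixN k e : ℂ) • ρ (extH m e) v = C • v := hIH
    have h0 : ∑ e : Perm (Fin m), (fixN k (extH m e) : ℂ) • ρ (extH m e) v = (k : ℂ) • C • v := by
      rw [← hw, Finset.smul_sum]
      refine Finset.sum_congr rfl (fun e _ => ?_)
      rw [fixN_zero, smul_smul]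
      push_cast
      rfl
    have h1 : ∀ i : Fin m, ∑ e : Perm (Fin m),
        (fixN k (swap 0 i.succ * extH m e) : ℂ) • ρ (swap 0 i.succ * extH m e) v =
          ρ (swap 0 i.succ) (C • v) := by
      intro i
      rw [← hw, map_sum]
      refine Finset.sum_congr rfl (fun e _ => ?_)
      rw [fixN_succ, map_mul, map_smul]
      rfl
    rw [hsplit, h0, Finset.sum_congr rfl (fun i _ => h1 i), ← LinearMap.sum_apply, ← jm_zero,
      map_smul, h 0, smul_smul, smul_smul, ← add_smul, Fin.prod_univ_succ, ← hC]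
    congr 1
    ring

end Pool.Agent.Helper1.TS
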