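import Pool.Agent.Helper1.TS.JB
import Pool.Agent.Helper1.TS.JUC

/-!
BLOCK TS-DEG (about 150 lines). The degree bound (end of section 3).

Proofs in words.
* `exists_nat_mult`: the representation on functions `(Fin m → Fin k) → ℂ`, `(g φ)(f) = φ (f ∘ g)`, has character
  `g ↦ fixN k g` (permutation representation, trace = number of fixed points; or use `Representation.ofMulAction` and its
  trace; `fixN k g⁻¹ = fixN k g`). By `Representation.card_inv_mul_sum_char_mul_char_eq_finrank` the number is the dimension of a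
  space of intertwining maps.
* `deg_bound`: take an irreducible subrepresentation `U₀ ≠ 0` of `ρ` (minimal nonzero invariant subspace); it is balanced
  too. Take a joint eigenvector in `U₀` (`je_exists`), `|c i| < k` by `je_bound`. The operator `Θ = ∑ g, N(g) ρ g` commutes with
  all `ρ x` (`N` is a class function), so it is a scalar on `U₀` (Schur), by `jucys` the scalar is `∏ (k + c i)`, real, in
  `(0, (2k)^m]` (`k ≥ 1` because `|c i| < k`, or `m = 0` trivial). Its trace gives
  `∑ g, N(g) χ(g) = dim U₀ * ∏ (k + c i)`. By `exists_nat_mult` it is `m! * N₀` with a natural `N₀`, not zero, so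
  `m! ≤ dim U₀ * ∏ (k + c i) ≤ dim U₀ * (2k)^m`.
* `deg_bound_sub`: for `W` stable under `Sym(T)`, `m = |T|`: transport the representation of `Perm {x // x ∈ T}` on `W` to
  `Perm (Fin m)` by an equivalence `Fin m ≃ {x // x ∈ T}`; it is balanced because `ρ` is (the image of a `k`-set is a `k`-set of
  `Fin n` in `T`, and every permutation of `Fin n` with support in it comes from `Perm T`).
-/

set_option autoImplicit false

open Module Equiv

namespace Pool.Agent.Helper1.TS

/-- the representation on the functions on `Fin k`-valued words -/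
private def degPi (k m : ℕ) : Representation ℂ (Perm (Fin m)) ((Fin m → Fin k) → ℂ) where
  toFun g := LinearMap.funLeft ℂ ℂ (fun f : Fin m → Fin k => f ∘ g)
  map_one' := by
    ext φ f
    simp [LinearMap.funLeft_apply]
  map_mul' g h := by
    ext φ f
    simp [LinearMap.funLeft_apply, Function.comp_assoc]

private theorem degPi_apply (k m : ℕ) (g : Perm (Fin m)) (φ : (Fin m → Fin k) → ℂ)
    (f : Fin m → Fin k) : degPi k m g φ f = φ (f ∘ g) := rfl

private theorem degPi_char (k m : ℕ) (g : Perm (Fin m)) :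
    (degPi k m).character g = (fixN k g : ℂ) := by
  unfold Representation.character
  rw [LinearMap.trace_eq_matrix_trace ℂ (Pi.basisFun ℂ (Fin m → Fin k)), Matrix.trace]
  have h : ∀ f : Fin m → Fin k, Matrix.diag (LinearMap.toMatrix (Pi.basisFun ℂ (Fin m → Fin k))
      (Pi.basisFun ℂ (Fin m → Fin k)) (degPi k m g)) f = if f ∘ g = f then 1 else 0 := by
    intro f
    rw [Matrix.diag_apply, LinearMap.toMatrix_apply, Pi.basisFun_repr, degPi_apply,
      Pi.basisFun_apply, Pi.single_apply]
  rw [Finset.sum_congr rfl (fun f _ => h f), Finset.sum_boole]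
  rfl

private theorem fixN_inv (k : ℕ) {m : ℕ} (g : Perm (Fin m)) : fixN k g⁻¹ = fixN k g := by
  unfold fixN
  congr 1
  ext f
  simp only [Finset.mem_filter, Finset.mem_univ, true_and]
  constructor
  · intro h
    have h1 : (f ∘ ⇑g⁻¹) ∘ ⇑g = f := by
      funext x
      simp
    rw [h] at h1
    exact h1
  · intro h
    have h1 : (f ∘ ⇑g) ∘ ⇑g⁻¹ = f := by
      funext x
      simp
    rw [h] at h1
    exact h1

private theorem fixN_conj (k : ℕ) {m : ℕ} (g x : Perm (Fin m)) :
    fixN k (x * g * x⁻¹) = fixN k g := by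
  have h := (degPi k m).char_conj g x
  rw [degPi_char, degPi_char] at h
  exact_mod_cast h

theorem exists_nat_mult (k : ℕ) {m : ℕ} {V : Type*} [AddCommGroup V] [Module ℂ V]
    [FiniteDimensional ℂ V] (ρ : Representation ℂ (Perm (Fin m)) V) :
    ∃ N₀ : ℕ, ∑ g : Perm (Fin m), (fixN k g : ℂ) * ρ.character g = (m.factorial : ℂ) * N₀ := by
  have hcard : (Nat.card (Perm (Fin m)) : ℂ) = (m.factorial : ℂ) := by
    rw [Nat.card_eq_fintype_card, Fintype.card_perm, Fintype.card_fin]
  have hne : (Nat.card (Perm (Fin m)) : ℂ) ≠ 0 := by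
    rw [hcard]; exact_mod_cast Nat.factorial_ne_zero m
  have : Invertible (Nat.card (Perm (Fin m)) : ℂ) := invertibleOfNonzero hne
  have h := Representation.card_inv_mul_sum_char_mul_char_eq_finrank (degPi k m) ρ
  refine ⟨finrank ℂ (Representation.IntertwiningMap (degPi k m) ρ), ?_⟩
  rw [← h, ← hcard, ← mul_assoc, mul_inv_cancel₀ hne, one_mul]
  refine Finset.sum_congr rfl (fun g _ => ?_)
  rw [degPi_char, fixN_inv, mul_comm]

theorem deg_bound {m : ℕ} {V : Type*} [AddCommGroup V] [Module ℂ V]
    [FiniteDimensional ℂ V] [Nontrivial V] (ρ : Representation ℂ (Perm (Fin m)) V) {k : ℕ}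
    (hB : Bal ρ k) : (m.factorial : ℝ) ≤ (2 * k) ^ m * finrank ℂ V := by
  obtain ⟨c, v, hv⟩ := je_exists ρ
  have hc : ∀ i, |c i| < k := je_bound ρ hB hv
  set P : ℝ := ∏ i, ((k : ℝ) + c i) with hP
  have hPpos : 0 < P := Finset.prod_pos (fun i _ => by linarith [(abs_lt.1 (hc i)).1])
  have hPle : P ≤ (2 * k) ^ m := by
    have h1 : P ≤ ∏ _i : Fin m, (2 * (k : ℝ)) :=
      Finset.prod_le_prod (fun i _ => by linarith [(abs_lt.1 (hc i)).1])
        (fun i _ => by linarith [(abs_lt.1 (hc i)).2])
    rwa [Finset.prod_const, Finset.card_univ, Fintype.card_fin] at h1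
  have hPC : (∏ i, ((k : ℂ) + c i)) = ((P : ℝ) : ℂ) := by
    rw [hP]; push_cast; rfl
  set Θ : V →ₗ[ℂ] V := ∑ g : Perm (Fin m), (fixN k g : ℂ) • ρ g with hΘ
  have hΘv : Θ v = (P : ℂ) • v := by
    rw [← hPC, ← jucys k ρ c v hv.2, hΘ, LinearMap.sum_apply]
    rfl
  have hcomm : ∀ (x : Perm (Fin m)) (w : V), Θ (ρ x w) = ρ x (Θ w) := by
    intro x w
    rw [hΘ, LinearMap.sum_apply, LinearMap.sum_apply, map_sum]
    refine (Fintype.sum_equiv (MulAut.conj x).toEquiv _ _ (fun g => ?_)).symm
    simp only [LinearMap.smul_apply, map_smul]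
    have e : (MulAut.conj x).toEquiv g = x * g * x⁻¹ := rfl
    rw [e, fixN_conj]
    congr 1
    rw [← Module.End.mul_apply, ← Module.End.mul_apply, ← map_mul, ← map_mul]
    congr 2
    group
  set U : Submodule ℂ V := Module.End.eigenspace Θ (P : ℂ) with hU
  have hvU : v ∈ U := Module.End.mem_eigenspace_iff.2 hΘv
  let S : Subrepresentation ρ :=
    { toSubmodule := U
      apply_mem_toSubmodule := by
        intro g w hw
        rw [hU, Module.End.mem_eigenspace_iff] at hw ⊢
        rw [hcomm, hw, map_smul] }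
  have : Nontrivial U := ⟨⟨⟨v, hvU⟩, 0, fun h => hv.1 (congrArg Subtype.val h)⟩⟩
  have hdim : 0 < finrank ℂ U := finrank_pos
  have hdimle : finrank ℂ U ≤ finrank ℂ V := Submodule.finrank_le U
  obtain ⟨N₀, hN₀⟩ := exists_nat_mult k (V := U) S.toRepresentation
  have htr : ∑ g : Perm (Fin m), (fixN k g : ℂ) * S.toRepresentation.character g =
      (P : ℂ) * finrank ℂ U := by
    have e : (∑ g : Perm (Fin m), (fixN k g : ℂ) • S.toRepresentation g : U →ₗ[ℂ] U) =
        (P : ℂ) • LinearMap.id := by
      ext w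
      have hw : Θ w = (P : ℂ) • (w : V) := Module.End.mem_eigenspace_iff.1 w.2
      rw [hΘ, LinearMap.sum_apply] at hw
      rw [LinearMap.sum_apply]
      rw [Submodule.coe_sum]
      exact hw
    have h2 := congrArg (LinearMap.trace ℂ U) e
    rw [map_sum, map_smul, LinearMap.trace_id, smul_eq_mul] at h2
    rw [← h2]
    refine Finset.sum_congr rfl (fun g _ => ?_)
    rw [map_smul, smul_eq_mul]
    rfl
  rw [htr] at hN₀
  have hreal : P * finrank ℂ U = (m.factorial : ℝ) * N₀ := by exact_mod_cast hN₀
  have hN₀pos : 1 ≤ N₀ := by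
    rcases Nat.eq_zero_or_pos N₀ with h | h
    · rw [h, Nat.cast_zero, mul_zero] at hreal
      have h3 : (0 : ℝ) < P * finrank ℂ U := mul_pos hPpos (by exact_mod_cast hdim)
      linarith
    · exact h
  calc (m.factorial : ℝ) = m.factorial * 1 := (mul_one _).symm
    _ ≤ m.factorial * N₀ := by
        apply mul_le_mul_of_nonneg_left _ (Nat.cast_nonneg _)
        exact_mod_cast hN₀pos
    _ = P * finrank ℂ U := hreal.symm
    _ ≤ (2 * k) ^ m * finrank ℂ V := by
        apply mul_le_mul hPle (by exact_mod_cast hdimle) (Nat.cast_nonneg _) (by positivity)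

theorem deg_bound_sub {n : ℕ} {V : Type*} [AddCommGroup V] [Module ℂ V]
    [FiniteDimensional ℂ V] (ρ : Representation ℂ (Perm (Fin n)) V) {k : ℕ}
    (hB : Bal ρ k) (T : Finset (Fin n)) (W : Submodule ℂ V) (hW : W ≠ ⊥)
    (hst : ∀ x : Perm {x // x ∈ T}, ∀ w ∈ W, resT ρ T x w ∈ W) :
    (T.card.factorial : ℝ) ≤ (2 * k) ^ T.card * finrank ℂ W := by
  classical
  let e : Fin T.card ≃ {x // x ∈ T} := T.equivFin.symm
  let S : Subrepresentation (resT ρ T) := ⟨W, fun x w hw => hst x w hw⟩
  let σ : Representation ℂ (Perm (Fin T.card)) W :=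
    S.toRepresentation.comp e.permCongrHom.toMonoidHom
  have hσ : ∀ (x : Perm (Fin T.card)) (w : W),
      ((σ x w : W) : V) = ρ (Perm.ofSubtype (e.permCongr x)) (w : V) := fun x w => rfl
  have : Nontrivial W := Submodule.nontrivial_iff_ne_bot.2 hW
  refine deg_bound σ (k := k) ?_
  intro K hK w
  set K' : Finset (Fin n) := K.map (e.toEmbedding.trans (Function.Embedding.subtype _)) with hK'
  have hK'card : K'.card = k := by rw [hK', Finset.card_map, hK]
  have hback : ∀ y : Perm (Fin n), y.support ⊆ K' → ∃ x : Perm (Fin T.card),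
      x.support ⊆ K ∧ Perm.ofSubtype (e.permCongr x) = y := by
    intro y hy
    have hyT : ∀ a, y a ≠ a → a ∈ T := by
      intro a ha
      have h1 := hy (Perm.mem_support.2 ha)
      rw [hK', Finset.mem_map] at h1
      obtain ⟨b, _, rfl⟩ := h1
      exact (e b).2
    have hT : ∀ a, y a ∈ T ↔ a ∈ T := by
      intro a
      by_cases ha : y a = a
      · rw [ha]
      · refine ⟨fun _ => hyT a ha, fun _ => hyT (y a) ?_⟩
        intro h
        exact ha (y.injective h)
    refine ⟨e.symm.permCongr (y.subtypePerm hT), ?_, ?_⟩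
    · intro b hb
      rw [Perm.mem_support] at hb
      have h1 : y (e b) ≠ (e b : Fin n) := by
        intro h
        apply hb
        have h4 : y.subtypePerm hT (e b) = e b := Subtype.ext h
        change e.symm (y.subtypePerm hT (e b)) = b
        rw [h4, Equiv.symm_apply_apply]
      have h2 := hy (Perm.mem_support.2 h1)
      rw [hK', Finset.mem_map] at h2
      obtain ⟨b', hb', hbb⟩ := h2
      have h3 : e b' = e b := Subtype.ext hbb
      rw [← e.injective h3]
      exact hb'
    · have h1 : e.permCongr (e.symm.permCongr (y.subtypePerm hT)) = y.subtypePerm hT := by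
        ext a
        simp [Equiv.permCongr_apply]
      rw [h1]
      exact Perm.ofSubtype_subtypePerm hT hyT
  obtain ⟨hB1, hB2⟩ := hB K' hK'card (w : V)
  constructor
  · intro h
    apply Subtype.ext
    apply hB1
    intro y hy
    obtain ⟨x, hx, hxy⟩ := hback y hy
    have h1 := congrArg Subtype.val (h x hx)
    rw [hσ, hxy] at h1
    exact h1
  · intro h
    apply Subtype.ext
    apply hB2
    intro y hy
    obtain ⟨x, hx, hxy⟩ := hback y hy
    have h1 := congrArg Subtype.val (h x hx)
    rw [hσ, hxy] at h1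
    have h2 : Perm.sign y = Perm.sign x := by
      rw [← hxy, Perm.sign_ofSubtype, Perm.sign_permCongr]
    rw [h2]
    exact h1

end Pool.Agent.Helper1.TS
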