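import Pool.Agent.Helper1.TS.UNI

/-!
BLOCK TS-DEG2 (about 200 lines). Section 9: an irreducible representation with a vector fixed (up to the sign) by `Sym(K)`,
`|K| = k`, has dimension at most `C(n,k) ((n-k)!)^(1/2)`.

Proofs in words.
* `dim_sq_le`: for an irreducible representation of a finite group `(dim)² ≤ |G|` (`∑ |χ(g)|² = |G|`, term `g = 1`:
  `Representation.char_orthonormal` and `char_inv`).
* `dim_le_of_fixed`: `ε = 1` or `sign`. The space `F` of the vectors `v` with `ρ x v = ε(x) v` for all `x` with support in `K` is not `0`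
  and it is stable under the permutations with support in `Kᶜ` (they commute with those of `K`). Take a minimal
  nonzero subspace `B ≤ F` stable under `Sym(Kᶜ)`: it is an irreducible representation of `Sym(Kᶜ)`, so
  `(dim B)² ≤ (n-k)!`. `B` is stable under `Sym(K)` too. The sum of the subspaces `ρ a B` over `a` is invariant, not `0`, so it is
  `V`, and `ρ a B` depends only on the set `a(K)` (if `a(K) = b(K)` then `a⁻¹ b` maps `K` to `K`, so it is a product of an element of
  `Sym(K)` and one of `Sym(Kᶜ)`, which preserve `B`): at most `C(n,k)` different subspaces.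
* `real_bound`: `2^n ((n-k)!)^(1/2) < (n!)^(1/2 - 2^(-95))` for `k ≥ 2^(-92) n` and `n` large: `n!/(n-k)! ≥ ((k/3))^k`-like
  (`n! / (n-k)! ≥ k! ≥ (k/3)^k`), `n! ≤ n^n`: take logarithms:
  `n log 2 < (1/2) k log (k/3) - 2^(-95) n log n` for `n` large since `k ≥ 2^(-92) n`.
-/

set_option autoImplicit false

open Module Equiv

namespace Pool.Agent.Helper1.TS

theorem dim_sq_le {G V : Type*} [Group G] [Fintype G] [AddCommGroup V] [Module ℂ V]
    [FiniteDimensional ℂ V] (ρ : Representation ℂ G V) [ρ.IsIrreducible] :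
    (finrank ℂ V) ^ 2 ≤ Fintype.card G := by
  classical
  have hG : (Nat.card G : ℂ) ≠ 0 := by
    rw [Nat.card_eq_fintype_card]
    exact_mod_cast Fintype.card_ne_zero
  have : Invertible (Nat.card G : ℂ) := invertibleOfNonzero hG
  have h1 := Representation.char_orthonormal ρ ρ
  rw [if_pos ⟨Representation.Equiv.refl ρ⟩] at h1
  have h2 : ∑ g : G, ρ.character g * ρ.character g⁻¹ = (Nat.card G : ℂ) := by
    rw [inv_mul_eq_iff_eq_mul₀ hG, mul_one] at h1
    exact h1
  have h3 : ∑ g : G, ‖ρ.character g‖ ^ 2 = (Nat.card G : ℝ) := by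
    have h4 : ((∑ g : G, ‖ρ.character g‖ ^ 2 : ℝ) : ℂ) = ((Nat.card G : ℝ) : ℂ) := by
      push_cast
      rw [← h2]
      refine Finset.sum_congr rfl fun g _ => ?_
      rw [char_inv, Complex.mul_conj, Complex.normSq_eq_norm_sq]
      push_cast
      rfl
    exact_mod_cast h4
  have h5 : ‖ρ.character 1‖ ^ 2 ≤ ∑ g : G, ‖ρ.character g‖ ^ 2 :=
    Finset.single_le_sum (f := fun g => ‖ρ.character g‖ ^ 2) (fun g _ => by positivity)
      (Finset.mem_univ 1)
  rw [h3, Representation.char_one, Nat.card_eq_fintype_card] at h5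
  rw [Complex.norm_natCast] at h5
  exact_mod_cast h5

private theorem finrank_sup_le {V ι : Type*} [AddCommGroup V] [Module ℂ V] [FiniteDimensional ℂ V]
    (s : Finset ι) (f : ι → Submodule ℂ V) :
    finrank ℂ ↥(s.sup f) ≤ ∑ i ∈ s, finrank ℂ ↥(f i) := by
  classical
  induction s using Finset.induction_on with
  | empty => simp
  | insert a s ha ih =>
    rw [Finset.sup_insert, Finset.sum_insert ha]
    exact (Submodule.finrank_add_le_finrank_add_finrank _ _).trans (Nat.add_le_add_left ih _)

private theorem mem_iff_of_support {n : ℕ} {y : Perm (Fin n)} {L : Finset (Fin n)}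
    (hy : y.support ⊆ L) (i : Fin n) : y i ∈ L ↔ i ∈ L := by
  by_cases h : y i = i
  · rw [h]
  · have h1 : i ∈ L := hy (Perm.mem_support.2 h)
    have h2 : y i ∈ L := hy (Perm.mem_support.2 fun h3 => h (y.injective h3))
    exact ⟨fun _ => h1, fun _ => h2⟩

private theorem dim_aux {n : ℕ} {V : Type*} [AddCommGroup V] [Module ℂ V]
    [FiniteDimensional ℂ V] (ρ : Representation ℂ (Perm (Fin n)) V) [ρ.IsIrreducible]
    (K : Finset (Fin n)) (v : V) (hv : v ≠ 0) (ε : Perm (Fin n) → ℂ)
    (h : ∀ x : Perm (Fin n), x.support ⊆ K → ρ x v = ε x • v) :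
    (finrank ℂ V : ℝ) ≤ n.choose K.card * Real.sqrt ((n - K.card).factorial) := by
  classical
  let F : Submodule ℂ V :=
    { carrier := {w | ∀ x : Perm (Fin n), x.support ⊆ K → ρ x w = ε x • w}
      add_mem' := by
        intro a b ha hb x hx
        rw [map_add, ha x hx, hb x hx, smul_add]
      zero_mem' := by
        intro x _
        rw [map_zero, smul_zero]
      smul_mem' := by
        intro c w hw x hx
        rw [map_smul, hw x hx, smul_comm] }
  have hvF : v ∈ F := h
  let St : Submodule ℂ V → Prop := fun B => ∀ y : Perm (Fin n), y.support ⊆ Kᶜ →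
    ∀ w ∈ B, ρ y w ∈ B
  have hFSt : St F := by
    intro y hy w hw x hx
    have hc : x * y = y * x := by
      have hd : Perm.Disjoint x y := by
        rw [Perm.disjoint_iff_disjoint_support]
        exact Finset.disjoint_of_subset_left hx
          (Finset.disjoint_of_subset_right hy disjoint_compl_right)
      exact hd.commute.eq
    have e1 : ρ x (ρ y w) = ρ y (ρ x w) := by
      rw [← Module.End.mul_apply, ← Module.End.mul_apply, ← map_mul, ← map_mul, hc]
    rw [e1, hw x hx, map_smul]
  obtain ⟨B, ⟨hBF, hB0, hBSt⟩, hmin⟩ := (wellFounded_lt (α := Submodule ℂ V)).has_min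
    {B | B ≤ F ∧ B ≠ ⊥ ∧ St B} ⟨F, le_rfl, fun h0 => hv (by
      have := hvF
      rw [h0] at this
      simpa using this), hFSt⟩
  -- the irreducible representation on `B`
  let S : Subrepresentation (resT ρ Kᶜ) := ⟨B, fun g w hw => hBSt _ (by
      intro i hi
      by_contra hcon
      exact (Perm.mem_support.1 hi) (Perm.ofSubtype_apply_of_not_mem _ hcon)) w hw⟩
  let σ := S.toRepresentation
  have hirr : σ.IsIrreducible := by
    have hnt : Nontrivial (Subrepresentation σ) := by
      refine ⟨⊥, ⊤, fun h0 => hB0 ?_⟩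
      rw [Submodule.eq_bot_iff]
      intro w hw
      have h1 : (⟨w, hw⟩ : B) ∈ (⊤ : Subrepresentation σ) := by
        show (⟨w, hw⟩ : B) ∈ (⊤ : Submodule ℂ B)
        exact Submodule.mem_top
      rw [← h0] at h1
      have h2 : (⟨w, hw⟩ : B) ∈ (⊥ : Submodule ℂ B) := h1
      have h3 := (Submodule.mem_bot ℂ).1 h2
      exact congrArg Subtype.val h3
    refine @IsSimpleOrder.mk _ _ _ hnt fun τ => ?_
    set B' : Submodule ℂ V := τ.toSubmodule.map B.subtype with hB'
    have hB'B : B' ≤ B := by
      rw [hB']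
      exact Submodule.map_subtype_le _ _
    by_cases h0 : B' = ⊥
    · left
      apply Subrepresentation.toSubmodule_injective
      show τ.toSubmodule = ⊥
      rw [Submodule.eq_bot_iff]
      intro u hu
      have h1 : (u : V) ∈ B' := Submodule.mem_map.2 ⟨u, hu, rfl⟩
      rw [h0, Submodule.mem_bot] at h1
      exact Subtype.ext h1
    · right
      have hSt' : St B' := by
        intro y hy w hw
        obtain ⟨u, hu, rfl⟩ := Submodule.mem_map.1 hw
        have hyy : Perm.ofSubtype (y.subtypePerm (p := fun i => i ∈ Kᶜ)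
            (fun i => mem_iff_of_support hy i)) = y :=
          Perm.ofSubtype_subtypePerm _ fun i hi => hy (Perm.mem_support.2 hi)
        have h2 := τ.apply_mem_toSubmodule (y.subtypePerm (p := fun i => i ∈ Kᶜ)
            (fun i => mem_iff_of_support hy i)) hu
        refine Submodule.mem_map.2 ⟨_, h2, ?_⟩
        show ρ (Perm.ofSubtype (y.subtypePerm (p := fun i => i ∈ Kᶜ)
            (fun i => mem_iff_of_support hy i))) (u : V) = ρ y (u : V)
        rw [hyy]
      have h1 : ¬ B' < B := hmin B' ⟨hB'B.trans hBF, h0, hSt'⟩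
      have h2 : B' = B := by
        rcases hB'B.lt_or_eq with h3 | h3
        · exact absurd h3 h1
        · exact h3
      apply Subrepresentation.toSubmodule_injective
      show τ.toSubmodule = ⊤
      rw [Submodule.eq_top_iff']
      intro u
      have h3 : (u : V) ∈ B' := h2 ▸ u.2
      obtain ⟨u', hu', he⟩ := Submodule.mem_map.1 h3
      have : u' = u := Subtype.ext he
      exact this ▸ hu'
  have hdimB : (finrank ℂ B) ^ 2 ≤ (n - K.card).factorial := by
    have h1 := dim_sq_le σ
    rw [Fintype.card_perm, Fintype.card_coe, Finset.card_compl, Fintype.card_fin] at h1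
    exact h1
  -- `B` is stable under the stabilizer of `K`
  have hstab : ∀ c : Perm (Fin n), (∀ i, c i ∈ K ↔ i ∈ K) → ∀ w ∈ B, ρ c w ∈ B := by
    intro c hc w hw
    set x : Perm (Fin n) := Perm.ofSubtype (c.subtypePerm (p := fun i => i ∈ K) hc) with hx
    have hxK : x.support ⊆ K := by
      intro i hi
      by_contra hcon
      exact (Perm.mem_support.1 hi) (Perm.ofSubtype_apply_of_not_mem _ hcon)
    have hyK : (x⁻¹ * c).support ⊆ Kᶜ := by
      intro i hi
      rw [Finset.mem_compl]
      intro hiK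
      apply Perm.mem_support.1 hi
      have h1 : x i = c i := by
        rw [hx, Perm.ofSubtype_apply_of_mem _ hiK]
        rfl
      rw [Perm.mul_apply, ← h1]
      exact x.symm_apply_apply i
    have h1 : ρ (x⁻¹ * c) w ∈ B := hBSt _ hyK w hw
    have h2 : ρ c w = ρ x (ρ (x⁻¹ * c) w) := by
      rw [← Module.End.mul_apply, ← map_mul, mul_inv_cancel_left]
    rw [h2, (hBF h1) x hxK]
    exact B.smul_mem _ h1
  -- translates
  have hex : ∀ L : Finset (Fin n), ∃ a : Perm (Fin n), L.card = K.card →
      ∀ i, a i ∈ L ↔ i ∈ K := by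
    intro L
    by_cases hL : L.card = K.card
    · let e : {x // x ∈ K} ≃ {x // x ∈ L} := Finset.equivOfCardEq hL.symm
      refine ⟨e.extendSubtype, fun _ i => ?_⟩
      by_cases hi : i ∈ K
      · exact ⟨fun _ => hi, fun _ => e.extendSubtype_mem i hi⟩
      · exact ⟨fun h1 => absurd h1 (e.extendSubtype_not_mem i hi), fun h1 => absurd h1 hi⟩
    · exact ⟨1, fun h1 => absurd h1 hL⟩
  choose a ha using hex
  have hle : ∀ (L : Finset (Fin n)) (b : Perm (Fin n)), L.card = K.card →
      (∀ i, b i ∈ L ↔ i ∈ K) → ∀ w ∈ B, ρ b w ∈ B.map (ρ (a L)) := by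
    intro L b hL hb w hw
    refine Submodule.mem_map.2 ⟨ρ ((a L)⁻¹ * b) w, hstab _ (fun i => ?_) w hw, ?_⟩
    · have h1 : a L (((a L)⁻¹ * b) i) = b i := (a L).apply_symm_apply (b i)
      rw [← ha L hL, h1]
      exact hb i
    · rw [← Module.End.mul_apply, ← map_mul, mul_inv_cancel_left]
  set Ls := Finset.powersetCard K.card (Finset.univ : Finset (Fin n)) with hLs
  set W : Submodule ℂ V := Ls.sup fun L => B.map (ρ (a L)) with hW
  have hWinv : ∀ g : Perm (Fin n), ∀ w ∈ W, ρ g w ∈ W := by
    intro g
    have h1 : W ≤ W.comap (ρ g) := by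
      conv_lhs => rw [hW]
      refine Finset.sup_le fun L hL => ?_
      have hLc := (Finset.mem_powersetCard.1 hL).2
      rintro _ ⟨w, hw, rfl⟩
      rw [Submodule.mem_comap]
      have hc' : (L.map g.toEmbedding).card = K.card := by rw [Finset.card_map, hLc]
      have h2 : ρ (g * a L) w ∈ B.map (ρ (a (L.map g.toEmbedding))) := by
        refine hle _ _ hc' (fun i => ?_) w hw
        rw [Perm.mul_apply, ← ha L hLc i]
        constructor
        · intro h3
          obtain ⟨j, hj, he⟩ := Finset.mem_map.1 h3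
          have : j = a L i := g.injective he
          rwa [← this]
        · intro h3
          exact Finset.mem_map.2 ⟨a L i, h3, rfl⟩
      have h3 : B.map (ρ (a (L.map g.toEmbedding))) ≤ W :=
        Finset.le_sup (f := fun L => B.map (ρ (a L)))
          (Finset.mem_powersetCard.2 ⟨Finset.subset_univ _, hc'⟩)
      have h4 := h3 h2
      rw [map_mul] at h4
      exact h4
    exact fun w hw => h1 hw
  have hWtop : W = ⊤ := by
    let T : Subrepresentation ρ := ⟨W, fun g w hw => hWinv g w hw⟩
    rcases eq_bot_or_eq_top T with h0 | h0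
    · exfalso
      have h1 : W = ⊥ := congrArg Subrepresentation.toSubmodule h0
      have h2 : B.map (ρ (a K)) ≤ W := Finset.le_sup (f := fun L => B.map (ρ (a L)))
        (Finset.mem_powersetCard.2 ⟨Finset.subset_univ _, rfl⟩)
      rw [h1, le_bot_iff] at h2
      apply hB0
      rw [Submodule.eq_bot_iff]
      intro w hw
      have h3 : ρ (a K) w ∈ B.map (ρ (a K)) := Submodule.mem_map_of_mem hw
      rw [h2, Submodule.mem_bot] at h3
      have h4 : ρ (a K)⁻¹ (ρ (a K) w) = w := by
        rw [← Module.End.mul_apply, ← map_mul, inv_mul_cancel, map_one, Module.End.one_apply]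
      rw [← h4, h3, map_zero]
    · exact congrArg Subrepresentation.toSubmodule h0
  have hfin : finrank ℂ V ≤ n.choose K.card * finrank ℂ B := by
    calc finrank ℂ V = finrank ℂ W := by rw [hWtop, finrank_top]
      _ ≤ ∑ L ∈ Ls, finrank ℂ (B.map (ρ (a L))) := finrank_sup_le _ _
      _ ≤ ∑ L ∈ Ls, finrank ℂ B := Finset.sum_le_sum fun L _ => Submodule.finrank_map_le _ _
      _ = n.choose K.card * finrank ℂ B := by
          rw [Finset.sum_const, smul_eq_mul, hLs, Finset.card_powersetCard, Finset.card_univ,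
            Fintype.card_fin]
  have h1 : (finrank ℂ V : ℝ) ≤ n.choose K.card * finrank ℂ B := by exact_mod_cast hfin
  refine h1.trans (mul_le_mul_of_nonneg_left ?_ (Nat.cast_nonneg _))
  apply Real.le_sqrt_of_sq_le
  exact_mod_cast hdimB

theorem dim_le_of_fixed {n : ℕ} {V : Type*} [AddCommGroup V] [Module ℂ V]
    [FiniteDimensional ℂ V] (ρ : Representation ℂ (Perm (Fin n)) V) [ρ.IsIrreducible]
    (K : Finset (Fin n)) (v : V) (hv : v ≠ 0)
    (h : (∀ x : Perm (Fin n), x.support ⊆ K → ρ x v = v) ∨
      (∀ x : Perm (Fin n), x.support ⊆ K → ρ x v = ((Perm.sign x : ℤ) : ℂ) • v)) :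
    (finrank ℂ V : ℝ) ≤ n.choose K.card * Real.sqrt ((n - K.card).factorial) := by
  rcases h with h | h
  · exact dim_aux ρ K v hv (fun _ => 1) fun x hx => by rw [h x hx, one_smul]
  · exact dim_aux ρ K v hv (fun x => ((Perm.sign x : ℤ) : ℂ)) h

theorem real_bound : ∃ N : ℕ, ∀ n ≥ N, ∀ k : ℕ, k ≤ n → (n : ℝ) ≤ 2 ^ 92 * k →
    (n.choose k : ℝ) * Real.sqrt ((n - k).factorial) <
      (n.factorial : ℝ) ^ ((1 : ℝ) / 2 - 1 / 2 ^ 95) := by
  obtain ⟨N, hN⟩ := exists_nat_gt (Real.exp (2 ^ 95))
  refine ⟨N, fun n hn k hkn hk => ?_⟩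
  have hnR : Real.exp (2 ^ 95) < n := lt_of_lt_of_le hN (by exact_mod_cast hn)
  have hn0 : (0 : ℝ) < n := (Real.exp_pos _).trans hnR
  have hlog : (2 : ℝ) ^ 95 < Real.log n := by
    rw [Real.lt_log_iff_exp_lt hn0]
    exact hnR
  have hk0 : (0 : ℝ) < k := by
    by_contra h
    have : (k : ℝ) = 0 := le_antisymm (not_lt.1 h) (Nat.cast_nonneg k)
    rw [this] at hk
    linarith
  have hl2 : Real.log 2 < 0.7 := by
    have := Real.log_two_lt_d9
    linarith
  have hl20 : 0 < Real.log 2 := Real.log_pos (by norm_num)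
  -- lower bound for `log k!`
  have hkf : (0 : ℝ) < k.factorial := by exact_mod_cast k.factorial_pos
  have hnf : (0 : ℝ) < n.factorial := by exact_mod_cast n.factorial_pos
  have hnkf : (0 : ℝ) < (n - k).factorial := by exact_mod_cast (n - k).factorial_pos
  have h1 : (k : ℝ) * Real.log k - k ≤ Real.log k.factorial := by
    have h := Real.pow_div_factorial_le_exp (k : ℝ) hk0.le k
    have h' := Real.log_le_log (by positivity) h
    rw [Real.log_div (by positivity) hkf.ne', Real.log_pow, Real.log_exp] at h'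
    linarith
  have h2 : Real.log n.factorial ≤ n * Real.log n := by
    have h : (n.factorial : ℝ) ≤ (n : ℝ) ^ n := by exact_mod_cast Nat.factorial_le_pow n
    have h' := Real.log_le_log hnf h
    rwa [Real.log_pow] at h'
  have h3 : (n : ℝ) / 2 ^ 92 * (Real.log n - 92 * Real.log 2 - 1) ≤ k * Real.log k - k := by
    have e1 : (n : ℝ) / 2 ^ 92 ≤ k := by
      rw [div_le_iff₀ (by positivity)]
      linarith
    have e2 : Real.log n - 92 * Real.log 2 ≤ Real.log k := by
      have h := Real.log_le_log (by positivity) e1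
      rw [Real.log_div hn0.ne' (by positivity), Real.log_pow] at h
      push_cast at h
      exact h
    have e3 : 0 ≤ Real.log n - 92 * Real.log 2 - 1 := by
      have : (2 : ℝ) ^ 95 > 100 := by norm_num
      linarith
    calc (n : ℝ) / 2 ^ 92 * (Real.log n - 92 * Real.log 2 - 1)
        ≤ k * (Real.log n - 92 * Real.log 2 - 1) := mul_le_mul_of_nonneg_right e1 e3
      _ ≤ k * (Real.log k - 1) := mul_le_mul_of_nonneg_left (by linarith) hk0.le
      _ = k * Real.log k - k := by ring
  have h4 : n * Real.log 2 + 1 / 2 ^ 95 * Real.log n.factorial < 1 / 2 * Real.log k.factorial := by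
    have e1 : 1 / 2 ^ 95 * Real.log n.factorial ≤ 1 / 2 ^ 95 * (n * Real.log n) :=
      mul_le_mul_of_nonneg_left h2 (by positivity)
    have e2 : n * Real.log 2 + 1 / 2 ^ 95 * (n * Real.log n) <
        1 / 2 * ((n : ℝ) / 2 ^ 92 * (Real.log n - 92 * Real.log 2 - 1)) := by
      have e3 : 1 / 2 * ((n : ℝ) / 2 ^ 92 * (Real.log n - 92 * Real.log 2 - 1)) -
          (n * Real.log 2 + 1 / 2 ^ 95 * (n * Real.log n)) =
          n * (3 / 2 ^ 95 * Real.log n - (92 * Real.log 2 + 1) / 2 ^ 93 - Real.log 2) := by
        ring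
      have e4 : 0 < 3 / 2 ^ 95 * Real.log n - (92 * Real.log 2 + 1) / 2 ^ 93 - Real.log 2 := by
        have e5 : (3 : ℝ) < 3 / 2 ^ 95 * Real.log n := by
          rw [div_mul_eq_mul_div, lt_div_iff₀ (by positivity)]
          linarith
        have e6 : (92 * Real.log 2 + 1) / 2 ^ 93 ≤ 1 := by
          rw [div_le_one (by positivity)]
          have : (2 : ℝ) ^ 93 > 100 := by norm_num
          linarith
        linarith
      have := mul_pos hn0 e4
      linarith
    linarith
  -- the left side
  have hch : ((n.choose k : ℕ) : ℝ) ≤ Real.exp (n * Real.log 2) := by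
    have e1 : n.choose k ≤ 2 ^ n := Nat.choose_le_two_pow n k
    have e2 : ((n.choose k : ℕ) : ℝ) ≤ (2 : ℝ) ^ n := by exact_mod_cast e1
    refine e2.trans (le_of_eq ?_)
    rw [mul_comm, Real.exp_mul, Real.exp_log (by norm_num), Real.rpow_natCast]
  have hsq : Real.sqrt ((n - k).factorial) ≤
      Real.exp (1 / 2 * (Real.log n.factorial - Real.log k.factorial)) := by
    have e1 : ((n - k).factorial : ℝ) * k.factorial ≤ n.factorial := by
      have h := Nat.choose_mul_factorial_mul_factorial hkn
      have h' : (n - k).factorial * k.factorial ≤ n.factorial := by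
        rw [← h]
        have hc : 1 ≤ n.choose k := Nat.choose_pos hkn
        calc (n - k).factorial * k.factorial = 1 * k.factorial * (n - k).factorial := by ring
          _ ≤ n.choose k * k.factorial * (n - k).factorial :=
              Nat.mul_le_mul_right _ (Nat.mul_le_mul_right _ hc)
      exact_mod_cast h'
    have e2 : ((n - k).factorial : ℝ) ≤
        Real.exp (Real.log n.factorial - Real.log k.factorial) := by
      rw [Real.exp_sub, Real.exp_log hnf, Real.exp_log hkf, le_div_iff₀ hkf]
      exact e1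
    have e3 := Real.sqrt_le_sqrt e2
    refine e3.trans (le_of_eq ?_)
    rw [← Real.exp_half]
    congr 1
    ring
  rw [Real.rpow_def_of_pos hnf]
  calc (n.choose k : ℝ) * Real.sqrt ((n - k).factorial)
      ≤ Real.exp (n * Real.log 2) *
        Real.exp (1 / 2 * (Real.log n.factorial - Real.log k.factorial)) :=
        mul_le_mul hch hsq (Real.sqrt_nonneg _) (Real.exp_pos _).le
    _ = Real.exp (n * Real.log 2 + 1 / 2 * (Real.log n.factorial - Real.log k.factorial)) := by
        rw [Real.exp_add]
    _ < Real.exp (Real.log n.factorial * (1 / 2 - 1 / 2 ^ 95)) := by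
        apply Real.exp_lt_exp.2
        linarith

end Pool.Agent.Helper1.TS
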