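import Mathlib

/-!
Project TS (MP_22c541_al): symmetric and exterior squares of irreducible characters of `S_n`.
Definitions.
-/

set_option autoImplicit false

open Module Equiv

namespace Pool.Agent.Helper1.TS

section Rep

variable {G V : Type*} [Group G] [AddCommGroup V] [Module ℂ V]

/-- The normalized character (real part). -/
noncomputable def rr (ρ : Representation ℂ G V) (g : G) : ℝ :=
  (ρ.character g).re / finrank ℂ V

/-- The vectors `v` with `ρ₁(x) ρ₂(x) v = v` for all `x`. -/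
def pairInv (ρ₁ ρ₂ : Representation ℂ G V) : Submodule ℂ V where
  carrier := {v | ∀ x : G, ρ₁ x (ρ₂ x v) = v}
  add_mem' := by
    intro a b ha hb x
    rw [map_add, map_add, ha x, hb x]
  zero_mem' := by
    intro x
    rw [map_zero, map_zero]
  smul_mem' := by
    intro c v hv x
    rw [map_smul, map_smul, hv x]

theorem mem_pairInv {ρ₁ ρ₂ : Representation ℂ G V} {v : V} :
    v ∈ pairInv ρ₁ ρ₂ ↔ ∀ x : G, ρ₁ x (ρ₂ x v) = v := Iff.rfl

end Rep

section Perm

variable {n : ℕ} {V : Type*} [AddCommGroup V] [Module ℂ V]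

/-- The representation is balanced: no nonzero vector is fixed by all permutations moving only
points of a `k`-element set, and none is multiplied by the sign by all of them. -/
def Bal (ρ : Representation ℂ (Perm (Fin n)) V) (k : ℕ) : Prop :=
  ∀ K : Finset (Fin n), K.card = k → ∀ v : V,
    ((∀ x : Perm (Fin n), x.support ⊆ K → ρ x v = v) → v = 0) ∧
    ((∀ x : Perm (Fin n), x.support ⊆ K → ρ x v = ((Perm.sign x : ℤ) : ℂ) • v) → v = 0)

/-- The permutations of `T` as permutations of `Fin n`. -/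
abbrev emb (T : Finset (Fin n)) : Perm {x // x ∈ T} →* Perm (Fin n) :=
  Perm.ofSubtype

/-- The restriction of `ρ` to `Sym(T)`. -/
abbrev resT (ρ : Representation ℂ (Perm (Fin n)) V) (T : Finset (Fin n)) :
    Representation ℂ (Perm {x // x ∈ T}) V :=
  ρ.comp (emb T)

/-- The restriction of `ρ` to `g Sym(T) g⁻¹`. -/
abbrev resC (ρ : Representation ℂ (Perm (Fin n)) V) (g : Perm (Fin n)) (T : Finset (Fin n)) :
    Representation ℂ (Perm {x // x ∈ T}) V :=
  ρ.comp ((MulAut.conj g).toMonoidHom.comp (emb T))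

/-- The Jucys-Murphy element of the point `i`, as an operator: the sum of all transpositions
`(i j)` with `j > i`. -/
noncomputable def jm (ρ : Representation ℂ (Perm (Fin n)) V) (i : Fin n) : V →ₗ[ℂ] V :=
  ∑ j ∈ Finset.univ.filter (fun j => i < j), ρ (Equiv.swap i j)

/-- `v` is a joint eigenvector of the Jucys-Murphy elements with eigenvalues `c`. -/
def IsJE (ρ : Representation ℂ (Perm (Fin n)) V) (c : Fin n → ℝ) (v : V) : Prop :=
  v ≠ 0 ∧ ∀ i, jm ρ i v = (c i : ℂ) • v

/-- The number of functions `f` with values in a `k`-element set and `f ∘ g = f`. -/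
def fixN (k : ℕ) {m : ℕ} (g : Perm (Fin m)) : ℕ :=
  (Finset.univ.filter (fun f : Fin m → Fin k => f ∘ g = f)).card

/-- The union of the translates `y i (S)`. -/
def unionY {j : ℕ} (S : Finset (Fin n)) (y : Fin j → Perm (Fin n)) : Finset (Fin n) :=
  Finset.univ.biUnion (fun i => S.map (y i).toEmbedding)

/-- The product of the conjugates `y i * g * (y i)⁻¹`. -/
def prodY {G : Type*} [Group G] {j : ℕ} (g : G) (y : Fin j → G) : G :=
  (List.ofFn (fun i => y i * g * (y i)⁻¹)).prod

end Perm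

/-- The axioms of the set of content sequences. -/
structure OV (S : Set (List ℝ)) : Prop where
  head : ∀ (a : ℝ) (l : List ℝ), (a :: l) ∈ S → a = 0
  ne : ∀ (l₁ l₂ : List ℝ) (a : ℝ), (l₁ ++ a :: a :: l₂) ∉ S
  swap : ∀ (l₁ l₂ : List ℝ) (a b : ℝ), (l₁ ++ a :: b :: l₂) ∈ S → b ≠ a + 1 → b ≠ a - 1 →
    (l₁ ++ b :: a :: l₂) ∈ S
  no1 : ∀ (l₁ l₂ : List ℝ) (a : ℝ), (l₁ ++ a :: (a + 1) :: a :: l₂) ∉ S
  no2 : ∀ (l₁ l₂ : List ℝ) (a : ℝ), (l₁ ++ a :: (a - 1) :: a :: l₂) ∉ S

end Pool.Agent.Helper1.TS
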