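import Pool.Agent.Helper1.TS.MAIN
import Pool.Agent.Helper1.TS.DEG2

/-!
TS-FIN (helper1): the final theorem.
-/

set_option autoImplicit false

open Module Equiv CategoryTheory

namespace Pool.Agent.Helper1.TS

private theorem card_K1 (n : ℕ) (a : ℝ) (ha : ⌈a⌉₊ ≤ n) :
    (Finset.univ.filter (fun i : Fin n => ((i : ℕ) : ℝ) < a)).card = ⌈a⌉₊ := by
  have h1 : (Finset.univ.filter (fun i : Fin n => ((i : ℕ) : ℝ) < a)).map Fin.valEmbedding =
      Finset.range ⌈a⌉₊ := by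
    ext j
    rw [Finset.mem_map, Finset.mem_range]
    constructor
    · rintro ⟨i, hi, rfl⟩
      exact Nat.lt_ceil.2 (Finset.mem_filter.1 hi).2
    · intro hj
      exact ⟨⟨j, hj.trans_le ha⟩, Finset.mem_filter.2 ⟨Finset.mem_univ _, Nat.lt_ceil.1 hj⟩, rfl⟩
  rw [← Finset.card_map Fin.valEmbedding, h1, Finset.card_range]

theorem final : ∃ δ ε : ℝ, 0 < δ ∧ 0 < ε ∧ ∃ N : ℕ, ∀ n ≥ N,
    ∃ V : FDRep ℂ (Perm (Fin n)), Simple V ∧
      ∀ W : FDRep ℂ (Perm (Fin n)), Simple W →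
        ((∀ w : W, w ≠ 0 →
            (∃ g : Perm (Fin n), (∀ i : Fin n, δ * n ≤ (i : ℕ) → g i = i) ∧ W.ρ g w ≠ w) ∧
            (∃ g : Perm (Fin n), (∀ i : Fin n, δ * n ≤ (i : ℕ) → g i = i) ∧
              W.ρ g w ≠ ((Perm.sign g : ℤ) : ℂ) • w)) ∨
          (n.factorial : ℝ) ^ (1 / 2 - ε) ≤ finrank ℂ W) →
        (∑ g : Perm (Fin n), ((V.character g ^ 2 + V.character (g ^ 2)) / 2) *
          W.character g⁻¹) ≠ 0 ∧
        (∑ g : Perm (Fin n), ((V.character g ^ 2 - V.character (g ^ 2)) / 2) *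
          W.character g⁻¹) ≠ 0 := by
  classical
  obtain ⟨N₀, hN₀⟩ := real_bound
  refine ⟨1 / 2 ^ 92, 1 / 2 ^ 95, by positivity, by positivity, max 11 (max N₀ (2 ^ 92)), fun n hn => ?_⟩
  have hn11 : 11 ≤ n := (le_max_left _ _).trans hn
  have hnN : N₀ ≤ n := ((le_max_left _ _).trans (le_max_right _ _)).trans hn
  have hnb : 2 ^ 92 ≤ n := ((le_max_right _ _).trans (le_max_right _ _)).trans hn
  have hnb' : (2 : ℝ) ^ 92 ≤ n := by exact_mod_cast hnb
  obtain ⟨U, hU, hmain⟩ := main_balanced hn11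
  refine ⟨U, hU, fun W hW halt => ?_⟩
  set a : ℝ := 1 / 2 ^ 92 * n with ha
  set K₀ : Finset (Fin n) := Finset.univ.filter (fun i : Fin n => ((i : ℕ) : ℝ) < a) with hK₀
  have ha1 : 1 ≤ a := by
    rw [ha, one_div_mul_eq_div, le_div_iff₀ (by positivity)]
    linarith
  have han : a ≤ n := by
    rw [ha, one_div_mul_eq_div, div_le_iff₀ (by positivity)]
    have : (1 : ℝ) ≤ 2 ^ 92 := one_le_pow₀ (by norm_num)
    nlinarith [Nat.cast_nonneg (α := ℝ) n]
  have hcard : K₀.card = ⌈a⌉₊ := card_K1 n a (Nat.ceil_le.2 han)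
  have hk1 : a ≤ K₀.card := by
    rw [hcard]
    exact Nat.le_ceil a
  have hk2 : (K₀.card : ℝ) ≤ 2 * a := by
    rw [hcard]
    have := (Nat.ceil_lt_add_one (by linarith : 0 ≤ a)).le
    linarith
  have hkn : K₀.card ≤ n := by
    rw [hcard]
    exact Nat.ceil_le.2 han
  have hk3 : (K₀.card : ℝ) * 2 ^ 91 ≤ n := by
    have h1 : 2 * a * 2 ^ 91 = n := by
      rw [ha]
      ring
    rw [← h1]
    exact mul_le_mul_of_nonneg_right hk2 (by positivity)
  have hk4 : (n : ℝ) ≤ 2 ^ 92 * K₀.card := by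
    have h1 : (n : ℝ) = 2 ^ 92 * a := by
      rw [ha]
      ring
    rw [h1]
    exact mul_le_mul_of_nonneg_left hk1 (by positivity)
  refine hmain K₀.card hk3 W hW ?_
  rcases halt with halt | halt
  · have hg : ∀ g : Perm (Fin n), (∀ i : Fin n, a ≤ (i : ℕ) → g i = i) → g.support ⊆ K₀ := by
      intro g hg i hi
      refine Finset.mem_filter.2 ⟨Finset.mem_univ _, ?_⟩
      by_contra hcon
      exact (Perm.mem_support.1 hi) (hg i (not_lt.1 hcon))
    refine bal_conj W.ρ K₀ (fun v hv => ?_) (fun v hv => ?_)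
    · by_contra h0
      obtain ⟨⟨g, hg1, hg2⟩, -⟩ := halt v h0
      exact hg2 (hv g (hg g hg1))
    · by_contra h0
      obtain ⟨-, ⟨g, hg1, hg2⟩⟩ := halt v h0
      exact hg2 (hv g (hg g hg1))
  · have hirr := irr_of_simple W hW
    have hb := hN₀ n hnN K₀.card hkn hk4
    refine bal_conj W.ρ K₀ (fun v hv => ?_) (fun v hv => ?_)
    · by_contra h0
      have := dim_le_of_fixed W.ρ K₀ v h0 (Or.inl hv)
      exact absurd (halt.trans this) (not_le.2 hb)
    · by_contra h0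
      have := dim_le_of_fixed W.ρ K₀ v h0 (Or.inr hv)
      exact absurd (halt.trans this) (not_le.2 hb)

end Pool.Agent.Helper1.TS
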