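import Pool.Agent.Helper1.TS.UNI

/-!
BLOCK TS-JE (about 250 lines). Jucys-Murphy elements (section 3, rules R1 - R4, in the order of points used here: the
Jucys-Murphy element of `i` is the sum of the transpositions `(i j)` with `j > i`; the last one is `0`).

Proofs in words. `s = swap i (i+1)`. From `s (i+1 j) s = (i j)` for `j > i + 1`:
(*) `jm i * ρ s = ρ s * jm (i+1) + 1` and `jm (i+1) * ρ s = ρ s * jm i - 1`, and `ρ s` commutes with the other `jm j`
(for `j > i + 1` clear; for `j < i`: conjugation by `s` permutes the transpositions `(j l)`, `l > j`).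
* `je_exists`: all `jm i` commute (for `i < j` conjugation by `swap j l`, `l > j`, permutes the transpositions `(i l')`,
  `l' > i`), and they are self-adjoint for the inner product of `exists_unitary` (a transposition is an involution), so they
  have a common eigenvector with real eigenvalues (simultaneous diagonalisation in Mathlib:
  `LinearMap.IsSymmetric.directSum_isInternal_of_pairwise_commute`, or by induction with
  `Module.End.exists_hasEigenvalue...` on invariant subspaces).
* `je_last`: the sum over `j > last` is empty.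
* Let `v` be the joint eigenvector, `a = c (i+1)`, `b = c i`. `je_ne`: if `a = b` then `(jm i - a) (ρ s v) = v`, so
  `(jm i - a)^2 (ρ s v) = 0`; for a self-adjoint operator this gives `(jm i - a) (ρ s v) = 0`, so `v = 0`.
* `w = ρ s v - v / (b - a)` satisfies `jm i w = a w`, `jm (i+1) w = b w`, `jm j w = c j w` (direct computation from (*)).
  `je_swap`: `w ≠ 0`, because `ρ s v = v / (b-a)` and `ρ s (ρ s v) = v` give `(b-a)^2 = 1`.
* `je_up` (`b = a + 1`): `w = ρ s v - v` is an eigenvector of the self-adjoint `jm i` for the eigenvalue `a ≠ b`, so it is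
  orthogonal to `v` (inner product of `exists_unitary`); `ρ s` is isometric: `|v|² = |ρ s v|² = |v|² + |w|²`, `w = 0`.
  `je_down` (`b = a - 1`) in the same way with `w = ρ s v + v`.
* `je_braid`: `je_up`, `je_down` for `(i, i+1)` and `(i+1, i+2)` give `ρ s v = ε v`, `ρ s' v = - ε v`, and `s s' s = s' s s'` gives
  `- ε v = ε v`.
-/

set_option autoImplicit false

open Module Equiv

namespace Pool.Agent.Helper1.TS

variable {m : ℕ} {V : Type*} [AddCommGroup V] [Module ℂ V] [FiniteDimensional ℂ V]

/-- `ρ s` commutes with `jm i` if `s` preserves `i` and the set of the points `> i`. -/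
private lemma jm_comm (ρ : Representation ℂ (Perm (Fin m)) V) (i : Fin m) (s : Perm (Fin m))
    (h1 : s i = i) (h2 : ∀ l, i < s l ↔ i < l) (v : V) : jm ρ i (ρ s v) = ρ s (jm ρ i v) := by
  unfold jm
  rw [LinearMap.sum_apply, LinearMap.sum_apply, map_sum]
  symm
  refine Finset.sum_bij (fun l _ => s l) ?_ ?_ ?_ ?_
  · intro l hl
    rw [Finset.mem_filter] at hl ⊢
    exact ⟨Finset.mem_univ _, (h2 l).2 hl.2⟩
  · intro a _ b _ hab
    exact s.injective hab
  · intro l hl
    rw [Finset.mem_filter] at hl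
    refine ⟨s.symm l, ?_, s.apply_symm_apply l⟩
    rw [Finset.mem_filter]
    refine ⟨Finset.mem_univ _, (h2 _).1 ?_⟩
    rw [s.apply_symm_apply]
    exact hl.2
  · intro l _
    rw [← Module.End.mul_apply, ← Module.End.mul_apply, ← map_mul, ← map_mul]
    congr 2
    have h3 : Equiv.swap i (s l) = s * Equiv.swap i l * s⁻¹ := by
      rw [← h1, Equiv.swap_apply_apply, h1]
    rw [h3]
    group

private lemma swap_ne {i j k : Fin m} (hij : (j : ℕ) = i + 1) (hki : k ≠ i) (hkj : k ≠ j) (l : Fin m) :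
    k < Equiv.swap i j l ↔ k < l := by
  have h1 : k < i ↔ k < j := by
    have h2 : (k : ℕ) ≠ i := fun h => hki (Fin.ext h)
    rw [Fin.lt_def, Fin.lt_def]
    omega
  rcases eq_or_ne l i with rfl | hi
  · rw [Equiv.swap_apply_left]
    exact h1.symm
  · rcases eq_or_ne l j with rfl | hj
    · rw [Equiv.swap_apply_right]
      exact h1
    · rw [Equiv.swap_apply_of_ne_of_ne hi hj]

private lemma jm_other (ρ : Representation ℂ (Perm (Fin m)) V) {i j k : Fin m} (hij : (j : ℕ) = i + 1)
    (hki : k ≠ i) (hkj : k ≠ j) (v : V) :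
    jm ρ k (ρ (Equiv.swap i j) v) = ρ (Equiv.swap i j) (jm ρ k v) :=
  jm_comm ρ k _ (Equiv.swap_apply_of_ne_of_ne hki hkj) (swap_ne hij hki hkj) v

private lemma rho_sq (ρ : Representation ℂ (Perm (Fin m)) V) (i j : Fin m) (v : V) :
    ρ (Equiv.swap i j) (ρ (Equiv.swap i j) v) = v := by
  rw [← Module.End.mul_apply, ← map_mul, Equiv.swap_mul_self, map_one, Module.End.one_apply]

private lemma jm_left (ρ : Representation ℂ (Perm (Fin m)) V) {i j : Fin m} (hij : (j : ℕ) = i + 1)
    (v : V) : jm ρ i (ρ (Equiv.swap i j) v) = ρ (Equiv.swap i j) (jm ρ j v) + v := by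
  unfold jm
  have hset : Finset.univ.filter (fun l : Fin m => i < l) =
      insert j (Finset.univ.filter (fun l : Fin m => j < l)) := by
    ext l
    rw [Finset.mem_insert, Finset.mem_filter, Finset.mem_filter, Fin.lt_def, Fin.lt_def, Fin.ext_iff]
    simp only [Finset.mem_univ, true_and]
    omega
  have hnot : j ∉ Finset.univ.filter (fun l : Fin m => j < l) := by
    rw [Finset.mem_filter]
    exact fun h => lt_irrefl _ h.2
  rw [hset, Finset.sum_insert hnot, LinearMap.add_apply, rho_sq, LinearMap.sum_apply,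
    LinearMap.sum_apply, map_sum, add_comm]
  congr 1
  refine Finset.sum_congr rfl fun l hl => ?_
  rw [Finset.mem_filter] at hl
  have hlj : l ≠ j := fun h => by
    rw [h] at hl
    exact lt_irrefl _ hl.2
  have hli : l ≠ i := fun h => by
    have := hl.2
    rw [h, Fin.lt_def] at this
    omega
  rw [← Module.End.mul_apply, ← Module.End.mul_apply, ← map_mul, ← map_mul]
  congr 2
  have h3 : Equiv.swap i l = Equiv.swap i j * Equiv.swap j l * (Equiv.swap i j)⁻¹ := by
    have h4 := Equiv.swap_apply_apply (Equiv.swap i j) j l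
    rw [Equiv.swap_apply_right, Equiv.swap_apply_of_ne_of_ne hli hlj] at h4
    exact h4
  rw [h3]
  group

private lemma jm_right (ρ : Representation ℂ (Perm (Fin m)) V) {i j : Fin m} (hij : (j : ℕ) = i + 1)
    (v : V) : jm ρ j (ρ (Equiv.swap i j) v) = ρ (Equiv.swap i j) (jm ρ i v) - v := by
  have h1 := jm_left ρ hij (ρ (Equiv.swap i j) v)
  rw [rho_sq] at h1
  rw [h1, map_add, rho_sq, rho_sq]
  abel

/-- The self-adjointness of the Jucys-Murphy elements. -/
private lemma inner_jm (ρ : Representation ℂ (Perm (Fin m)) V)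
    {e : V ≃ₗ[ℂ] EuclideanSpace ℂ (Fin (finrank ℂ V))}
    (he : ∀ (g : Perm (Fin m)) (v w : V), inner ℂ (e (ρ g v)) (e (ρ g w)) = inner ℂ (e v) (e w))
    (i : Fin m) (v w : V) : inner ℂ (e (jm ρ i v)) (e w) = inner ℂ (e v) (e (jm ρ i w)) := by
  unfold jm
  rw [LinearMap.sum_apply, LinearMap.sum_apply, map_sum, map_sum, sum_inner, inner_sum]
  refine Finset.sum_congr rfl fun l _ => ?_
  have h1 := he (Equiv.swap i l) (ρ (Equiv.swap i l) v) w
  rw [rho_sq] at h1
  exact h1.symm

private lemma inner_eq_zero (ρ : Representation ℂ (Perm (Fin m)) V)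
    {e : V ≃ₗ[ℂ] EuclideanSpace ℂ (Fin (finrank ℂ V))}
    (he : ∀ (g : Perm (Fin m)) (v w : V), inner ℂ (e (ρ g v)) (e (ρ g w)) = inner ℂ (e v) (e w))
    (i : Fin m) {a b : ℝ} {v w : V} (hw : jm ρ i w = (a : ℂ) • w) (hv : jm ρ i v = (b : ℂ) • v)
    (hab : a ≠ b) : inner ℂ (e w) (e v) = (0 : ℂ) := by
  have h1 := inner_jm ρ he i w v
  rw [hw, hv, map_smul, map_smul, inner_smul_left, inner_smul_right, Complex.conj_ofReal] at h1
  have h2 : ((a : ℂ) - b) * inner ℂ (e w) (e v) = 0 := by
    rw [sub_mul, h1, sub_self]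
  rcases mul_eq_zero.1 h2 with h3 | h3
  · exfalso
    apply hab
    exact_mod_cast sub_eq_zero.1 h3
  · exact h3

theorem je_exists (ρ : Representation ℂ (Perm (Fin m)) V) [Nontrivial V] :
    ∃ c v, IsJE ρ c v := by
  classical
  obtain ⟨e, he⟩ := exists_unitary ρ
  set J : Fin m → EuclideanSpace ℂ (Fin (finrank ℂ V)) →ₗ[ℂ] EuclideanSpace ℂ (Fin (finrank ℂ V)) :=
    fun i => (e.toLinearMap ∘ₗ jm ρ i) ∘ₗ e.symm.toLinearMap with hJ
  have hJa : ∀ i x, J i x = e (jm ρ i (e.symm x)) := fun i x => rfl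
  have hsym : ∀ i, (J i).IsSymmetric := by
    intro i x y
    rw [hJa, hJa]
    have := inner_jm ρ he i (e.symm x) (e.symm y)
    rwa [e.apply_symm_apply, e.apply_symm_apply] at this
  have hlt : ∀ i k : Fin m, i < k → ∀ v : V, jm ρ i (jm ρ k v) = jm ρ k (jm ρ i v) := by
    intro i k hik v
    have h1 : ∀ l, k < l → jm ρ i (ρ (Equiv.swap k l) v) = ρ (Equiv.swap k l) (jm ρ i v) := by
      intro l hl
      have hil : i < l := hik.trans hl
      refine jm_comm ρ i _ (Equiv.swap_apply_of_ne_of_ne hik.ne hil.ne) (fun x => ?_) v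
      rcases eq_or_ne x k with rfl | hx
      · rw [Equiv.swap_apply_left]
        exact ⟨fun _ => hik, fun _ => hil⟩
      · rcases eq_or_ne x l with rfl | hx'
        · rw [Equiv.swap_apply_right]
          exact ⟨fun _ => hil, fun _ => hik⟩
        · rw [Equiv.swap_apply_of_ne_of_ne hx hx']
    have h2 : ∀ u : V, jm ρ k u = ∑ l ∈ Finset.univ.filter (fun l => k < l), ρ (Equiv.swap k l) u := by
      intro u
      unfold jm
      rw [LinearMap.sum_apply]
    rw [h2 v, h2 (jm ρ i v), map_sum]
    exact Finset.sum_congr rfl fun l hl => h1 l (Finset.mem_filter.1 hl).2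
  have hcomm : Pairwise (Function.onFun Commute J) := by
    intro i k hik
    show J i * J k = J k * J i
    ext1 x
    rw [Module.End.mul_apply, Module.End.mul_apply, hJa, hJa, hJa, hJa, e.symm_apply_apply,
      e.symm_apply_apply]
    rcases lt_or_gt_of_ne hik with h | h
    · rw [hlt i k h]
    · rw [hlt k i h]
  have htop := LinearMap.IsSymmetric.iSup_iInf_eq_top_of_commute hsym hcomm
  have hnt : Nontrivial (EuclideanSpace ℂ (Fin (finrank ℂ V))) := e.injective.nontrivial
  have hex : ∃ χ : Fin m → ℂ, (⨅ i, Module.End.eigenspace (J i) (χ i)) ≠ ⊥ := by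
    by_contra hcon
    push Not at hcon
    rw [iSup_congr hcon, iSup_bot] at htop
    exact bot_ne_top htop
  obtain ⟨χ, hχ⟩ := hex
  obtain ⟨x, hx, hx0⟩ := Submodule.exists_mem_ne_zero_of_ne_bot hχ
  rw [Submodule.mem_iInf] at hx
  refine ⟨fun i => (χ i).re, e.symm x, fun h => hx0 (by simpa using h), fun i => ?_⟩
  have h1 : J i x = χ i • x := Module.End.mem_eigenspace_iff.1 (hx i)
  have h2 : (starRingEnd ℂ) (χ i) = χ i :=
    (hsym i).conj_eigenvalue_eq_self (Module.End.hasEigenvalue_of_hasEigenvector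
      (Module.End.hasEigenvector_iff.2 ⟨hx i, hx0⟩))
  have h3 : (((χ i).re : ℝ) : ℂ) = χ i := (Complex.conj_eq_iff_re.1 h2)
  rw [h3]
  apply e.injective
  rw [map_smul, e.apply_symm_apply, ← h1, hJa]

theorem je_last (ρ : Representation ℂ (Perm (Fin m)) V) {c : Fin m → ℝ} {v : V}
    (h : IsJE ρ c v) (i : Fin m) (hi : (i : ℕ) + 1 = m) : c i = 0 := by
  have h1 := h.2 i
  have hset : Finset.univ.filter (fun l : Fin m => i < l) = ∅ := by
    rw [Finset.filter_eq_empty_iff]
    intro l _ hl
    rw [Fin.lt_def] at hl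
    have := l.2
    omega
  unfold jm at h1
  rw [hset, Finset.sum_empty, LinearMap.zero_apply] at h1
  rcases smul_eq_zero.1 h1.symm with h2 | h2
  · exact_mod_cast h2
  · exact absurd h2 h.1

theorem je_ne (ρ : Representation ℂ (Perm (Fin m)) V) {c : Fin m → ℝ} {v : V}
    (h : IsJE ρ c v) (i j : Fin m) (hij : (j : ℕ) = i + 1) : c i ≠ c j := by
  intro hc
  obtain ⟨e, he⟩ := exists_unitary ρ
  obtain ⟨hv0, hv⟩ := h
  have h1 := inner_jm ρ he i (ρ (Equiv.swap i j) v) v
  rw [jm_left ρ hij, hv i, hv j, map_add, map_smul, map_smul, map_smul, inner_add_left,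
    inner_smul_left, inner_smul_right, Complex.conj_ofReal, hc] at h1
  have h2 : inner ℂ (e v) (e v) = (0 : ℂ) := by
    linear_combination h1
  rw [inner_self_eq_zero] at h2
  exact hv0 (by simpa using h2)

theorem je_swap (ρ : Representation ℂ (Perm (Fin m)) V) {c : Fin m → ℝ} {v : V}
    (h : IsJE ρ c v) (i j : Fin m) (hij : (j : ℕ) = i + 1) (h1 : c i ≠ c j + 1)
    (h2 : c i ≠ c j - 1) : ∃ w, IsJE ρ (c ∘ Equiv.swap i j) w := by
  have hne := je_ne ρ h i j hij
  obtain ⟨hv0, hv⟩ := h
  have hba : ((c i : ℂ) - c j) ≠ 0 := by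
    rw [sub_ne_zero]
    exact_mod_cast hne
  set t : ℂ := ((c i : ℂ) - c j)⁻¹ with ht
  have htm : t * ((c i : ℂ) - c j) = 1 := inv_mul_cancel₀ hba
  refine ⟨ρ (Equiv.swap i j) v - t • v, ?_, ?_⟩
  · intro h0
    have h3 : ρ (Equiv.swap i j) v = t • v := sub_eq_zero.1 h0
    have h4 := rho_sq ρ i j v
    rw [h3, map_smul, h3, smul_smul] at h4
    have h5 : (t * t - 1) • v = 0 := by
      rw [sub_smul, h4, one_smul, sub_self]
    rcases smul_eq_zero.1 h5 with h6 | h6
    · have h7 : ((c i : ℂ) - c j - 1) * ((c i : ℂ) - c j + 1) = 0 := by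
        linear_combination (-((c i : ℂ) - c j) ^ 2) * h6 + (t * ((c i : ℂ) - c j) + 1) * htm
      rcases mul_eq_zero.1 h7 with h8 | h8
      · apply h1
        have h9 : (c i : ℂ) = ((c j + 1 : ℝ) : ℂ) := by
          push_cast
          linear_combination h8
        exact_mod_cast h9
      · apply h2
        have h9 : (c i : ℂ) = ((c j - 1 : ℝ) : ℂ) := by
          push_cast
          linear_combination h8
        exact_mod_cast h9
    · exact hv0 h6
  · intro k
    rw [map_sub, map_smul, hv k, Function.comp_apply]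
    rcases eq_or_ne k i with rfl | hki
    · rw [jm_left ρ hij, hv j, Equiv.swap_apply_left, map_smul, smul_sub, smul_smul, smul_smul]
      have h3 : v = (t * ((c k : ℂ) - c j)) • v := by rw [htm, one_smul]
      nth_rewrite 2 [h3]
      module
    · rcases eq_or_ne k j with rfl | hkj
      · rw [jm_right ρ hij, hv i, Equiv.swap_apply_right, map_smul, smul_sub, smul_smul, smul_smul]
        have h3 : v = (t * ((c i : ℂ) - c k)) • v := by rw [htm, one_smul]
        nth_rewrite 2 [h3]
        module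
      · rw [jm_other ρ hij hki hkj, hv k, Equiv.swap_apply_of_ne_of_ne hki hkj, map_smul, smul_sub,
          smul_smul, smul_smul, mul_comm]

theorem je_up (ρ : Representation ℂ (Perm (Fin m)) V) {c : Fin m → ℝ} {v : V}
    (h : IsJE ρ c v) (i j : Fin m) (hij : (j : ℕ) = i + 1) (h1 : c i = c j + 1) :
    ρ (Equiv.swap i j) v = v := by
  have hne := je_ne ρ h i j hij
  obtain ⟨e, he⟩ := exists_unitary ρ
  obtain ⟨hv0, hv⟩ := h
  set w : V := ρ (Equiv.swap i j) v - v with hw
  have hwi : jm ρ i w = (c j : ℂ) • w := by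
    rw [hw, map_sub, jm_left ρ hij, hv j, hv i, h1, map_smul]
    push_cast
    module
  have h2 : inner ℂ (e w) (e v) = (0 : ℂ) := inner_eq_zero ρ he i hwi (hv i) hne.symm
  have h2' : inner ℂ (e v) (e w) = (0 : ℂ) := by
    rw [← inner_conj_symm, h2, map_zero]
  have h3 : ρ (Equiv.swap i j) v = w + v := by rw [hw]; abel
  have h4 := he (Equiv.swap i j) v v
  rw [h3, map_add, inner_add_left, inner_add_right, inner_add_right, h2, h2'] at h4
  have h5 : inner ℂ (e w) (e w) = (0 : ℂ) := by linear_combination h4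
  rw [inner_self_eq_zero] at h5
  have h6 : w = 0 := by simpa using h5
  rw [h3, h6, zero_add]

theorem je_down (ρ : Representation ℂ (Perm (Fin m)) V) {c : Fin m → ℝ} {v : V}
    (h : IsJE ρ c v) (i j : Fin m) (hij : (j : ℕ) = i + 1) (h1 : c i = c j - 1) :
    ρ (Equiv.swap i j) v = -v := by
  have hne := je_ne ρ h i j hij
  obtain ⟨e, he⟩ := exists_unitary ρ
  obtain ⟨hv0, hv⟩ := h
  set w : V := ρ (Equiv.swap i j) v + v with hw
  have hwi : jm ρ i w = (c j : ℂ) • w := by
    rw [hw, map_add, jm_left ρ hij, hv j, hv i, h1, map_smul]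
    push_cast
    module
  have h2 : inner ℂ (e w) (e v) = (0 : ℂ) := inner_eq_zero ρ he i hwi (hv i) hne.symm
  have h2' : inner ℂ (e v) (e w) = (0 : ℂ) := by
    rw [← inner_conj_symm, h2, map_zero]
  have h3 : ρ (Equiv.swap i j) v = w - v := by rw [hw]; abel
  have h4 := he (Equiv.swap i j) v v
  rw [h3, map_sub, inner_sub_left, inner_sub_right, inner_sub_right, h2, h2'] at h4
  have h5 : inner ℂ (e w) (e w) = (0 : ℂ) := by linear_combination h4
  rw [inner_self_eq_zero] at h5
  have h6 : w = 0 := by simpa using h5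
  rw [h3, h6, zero_sub]

theorem je_braid (ρ : Representation ℂ (Perm (Fin m)) V) {c : Fin m → ℝ} {v : V}
    (h : IsJE ρ c v) (i j l : Fin m) (hij : (j : ℕ) = i + 1) (hjl : (l : ℕ) = j + 1)
    (h1 : c i = c l) (h2 : c j = c i + 1 ∨ c j = c i - 1) : False := by
  have hil : i ≠ l := fun h0 => by rw [← h0] at hjl; omega
  have hij' : i ≠ j := fun h0 => by rw [← h0] at hij; omega
  have hjl' : j ≠ l := fun h0 => by rw [← h0] at hjl; omega
  have hbr : Equiv.swap i j * Equiv.swap j l * Equiv.swap i j =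
      Equiv.swap j l * Equiv.swap i j * Equiv.swap j l := by
    have e1 : Equiv.swap i j * Equiv.swap j l * Equiv.swap i j = Equiv.swap i l := by
      have := Equiv.swap_apply_apply (Equiv.swap i j) j l
      rw [Equiv.swap_apply_right, Equiv.swap_apply_of_ne_of_ne hil.symm hjl'.symm,
        Equiv.swap_inv] at this
      exact this.symm
    have e2 : Equiv.swap j l * Equiv.swap i j * Equiv.swap j l = Equiv.swap i l := by
      have := Equiv.swap_apply_apply (Equiv.swap j l) i j
      rw [Equiv.swap_apply_left, Equiv.swap_apply_of_ne_of_ne hij' hil, Equiv.swap_inv] at this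
      exact this.symm
    rw [e1, e2]
  have hbv : ρ (Equiv.swap i j) (ρ (Equiv.swap j l) (ρ (Equiv.swap i j) v)) =
      ρ (Equiv.swap j l) (ρ (Equiv.swap i j) (ρ (Equiv.swap j l) v)) := by
    have := congrArg (fun g => ρ g v) hbr
    simpa only [map_mul, Module.End.mul_apply] using this
  have hvv : ∀ u : V, u = -u → u = 0 := by
    intro u hu
    have h3 : (2 : ℂ) • u = 0 := by
      rw [two_smul]
      nth_rewrite 1 [hu]
      abel
    exact (smul_eq_zero.1 h3).resolve_left two_ne_zero
  rcases h2 with h2 | h2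
  · have a1 := je_down ρ h i j hij (by linarith)
    have a2 := je_up ρ h j l hjl (by linarith)
    rw [a1, map_neg, a2, map_neg, a1, map_neg, a2, neg_neg] at hbv
    exact h.1 (hvv v hbv)
  · have a1 := je_up ρ h i j hij (by linarith)
    have a2 := je_down ρ h j l hjl (by linarith)
    rw [a1, a2, map_neg, a1, map_neg, a2, neg_neg] at hbv
    exact h.1 (hvv v hbv.symm)

end Pool.Agent.Helper1.TS
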