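import Pool.Agent.Helper1.TS.Defs

/-!
BLOCK TS-M1 (about 150 lines). Section 2 of the proof text.

Proof in words. `ρ₁`, `ρ₂` are commuting representations of the finite group `H` on `V`. A subspace is called stable if it
is stable under all `ρ₁ x` and all `ρ₂ x`. Strong induction on `finrank V` (or decompose `V`, Maschke's theorem for the
representation `(x, y) ↦ ρ₁ x ρ₂ y` of `H × H`): if `V = 0` nothing to do. Otherwise take a minimal nonzero stable `Z`, and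
a stable complement `Z'` (Maschke; or `Representation`/`MonoidAlgebra` semisimplicity for `H × H`). The pair
invariants of `V` are the direct sum of those of `Z` and of `Z'`, so it is enough to show `finrank (pairInv on Z) ≤ 1`, since
`D ≤ finrank Z` by `hD`.
On `Z`: `P = |H|⁻¹ ∑ x, ρ₁ x ρ₂ x` is a projection on `pairInv`, `P ρ₁ x ρ₂ x = P = ρ₁ x ρ₂ x P`. For `h k ∈ H`:
`P (ρ₁ h) (ρ₂ k) P = P (ρ₁ (h k⁻¹)) P`, because `ρ₂ k P = ρ₁ k⁻¹ P`. For `u ∈ H` and all `x`: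
`P (ρ₁ u) P = P (ρ₁ x ρ₂ x) (ρ₁ u) (ρ₁ x ρ₂ x)⁻¹ P = P (ρ₁ (x u x⁻¹)) P`, so `P (ρ₁ u) P = P A P` with
`A = |H|⁻¹ ∑ x, ρ₁ (x u x⁻¹)`, and `A` commutes with all `ρ₁ x`, `ρ₂ x`, so it is a scalar on the minimal stable `Z` (Schur:
an eigenspace of `A` in `Z` is stable and nonzero). So if `0 ≠ v ∈ Z` is a pair invariant, then the span of all `ρ₁ h ρ₂ k v`
is `Z` (minimality) and `P` maps it to `ℂ v`, while `P w = w` for every pair invariant `w`: `w ∈ ℂ v`.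
-/

set_option autoImplicit false

open Module

namespace Pool.Agent.Helper1.TS

section M1

variable {H V : Type*} [Group H] [AddCommGroup V] [Module ℂ V]

/-- stable under both representations -/
private def M1St (ρ₁ ρ₂ : Representation ℂ H V) (U : Submodule ℂ V) : Prop :=
  (∀ x : H, ∀ u ∈ U, ρ₁ x u ∈ U) ∧ (∀ x : H, ∀ u ∈ U, ρ₂ x u ∈ U)

private lemma m1_mul (ρ : Representation ℂ H V) (x y : H) (v : V) : ρ x (ρ y v) = ρ (x * y) v := by
  rw [map_mul]; rfl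

private lemma m1_one (ρ : Representation ℂ H V) (v : V) : ρ 1 v = v := by
  rw [map_one]; rfl

/-- the representation of the product -/
private noncomputable def m1Rep (ρ₁ ρ₂ : Representation ℂ H V)
    (hc : ∀ (x y : H) (v : V), ρ₁ x (ρ₂ y v) = ρ₂ y (ρ₁ x v)) : Representation ℂ (H × H) V where
  toFun p := ρ₁ p.1 ∘ₗ ρ₂ p.2
  map_one' := by
    ext v
    simp
  map_mul' a b := by
    ext v
    simp only [Prod.fst_mul, Prod.snd_mul, LinearMap.comp_apply, Module.End.mul_apply]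
    rw [← m1_mul, ← m1_mul, hc b.1 a.2]

private lemma m1_compl [Finite H] (ρ₁ ρ₂ : Representation ℂ H V)
    (hc : ∀ (x y : H) (v : V), ρ₁ x (ρ₂ y v) = ρ₂ y (ρ₁ x v)) {Z : Submodule ℂ V} (hZ : M1St ρ₁ ρ₂ Z) :
    ∃ C : Submodule ℂ V, M1St ρ₁ ρ₂ C ∧ IsCompl Z C := by
  have : NeZero (Nat.card (H × H) : ℂ) := ⟨by
    have : Nat.card (H × H) ≠ 0 := Nat.card_pos.ne'
    exact_mod_cast this⟩
  let ρ := m1Rep ρ₁ ρ₂ hc
  have hss : ComplementedLattice (Subrepresentation ρ) := (inferInstance : ρ.IsSemisimpleRepresentation)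
  have hap : ∀ (p : H × H) (v : V), ρ p v = ρ₁ p.1 (ρ₂ p.2 v) := fun p v => rfl
  let σ : Subrepresentation ρ := ⟨Z, fun g v hv => by
    rw [hap]
    exact hZ.1 _ _ (hZ.2 _ _ hv)⟩
  obtain ⟨τ, hτ⟩ := hss.exists_isCompl σ
  refine ⟨τ.toSubmodule, ⟨fun x u hu => ?_, fun x u hu => ?_⟩, ?_⟩
  · have := τ.apply_mem_toSubmodule (x, 1) hu
    rw [hap] at this
    simpa only [m1_one] using this
  · have := τ.apply_mem_toSubmodule (1, x) hu
    rw [hap] at this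
    simpa only [m1_one] using this
  · constructor
    · rw [disjoint_iff]
      have h := hτ.inf_eq_bot
      have h2 := congrArg Subrepresentation.toSubmodule h
      rw [Subrepresentation.toSubmodule_inf] at h2
      exact h2
    · rw [codisjoint_iff]
      have h := hτ.sup_eq_top
      have h2 := congrArg Subrepresentation.toSubmodule h
      rw [Subrepresentation.toSubmodule_sup] at h2
      exact h2

private lemma m1_atom [Finite H] [FiniteDimensional ℂ V] (ρ₁ ρ₂ : Representation ℂ H V)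
    (hc : ∀ (x y : H) (v : V), ρ₁ x (ρ₂ y v) = ρ₂ y (ρ₁ x v)) {Z : Submodule ℂ V} (hZ : M1St ρ₁ ρ₂ Z)
    (hmin : ∀ Y : Submodule ℂ V, M1St ρ₁ ρ₂ Y → Y ≤ Z → Y ≠ ⊥ → Y = Z) :
    finrank ℂ (Z ⊓ pairInv ρ₁ ρ₂ : Submodule ℂ V) ≤ 1 := by
  classical
  have := Fintype.ofFinite H
  by_cases h0 : Z ⊓ pairInv ρ₁ ρ₂ = ⊥
  · rw [h0, finrank_bot]
    norm_num
  obtain ⟨v, hv, hv0⟩ := Submodule.exists_mem_ne_zero_of_ne_bot h0
  have hvZ := hv.1
  have hvP : ∀ x : H, ρ₁ x (ρ₂ x v) = v := hv.2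
  -- central elements act by scalars
  have hscal : ∀ u : H, ∃ c : ℂ, ∀ z ∈ Z, ∑ x : H, ρ₁ (x * u * x⁻¹) z = c • z := by
    intro u
    let A : V →ₗ[ℂ] V := ∑ x : H, ρ₁ (x * u * x⁻¹)
    have hA : ∀ z, A z = ∑ x : H, ρ₁ (x * u * x⁻¹) z := fun z => by
      simp only [A, LinearMap.sum_apply]
    have hA1 : ∀ (y : H) (z : V), A (ρ₁ y z) = ρ₁ y (A z) := by
      intro y z
      rw [hA, hA, map_sum]
      refine Fintype.sum_equiv (Equiv.mulLeft y⁻¹) _ _ fun x => ?_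
      rw [m1_mul, m1_mul]
      congr 2
      simp only [Equiv.coe_mulLeft]
      group
    have hA2 : ∀ (y : H) (z : V), A (ρ₂ y z) = ρ₂ y (A z) := by
      intro y z
      rw [hA, hA, map_sum]
      exact Finset.sum_congr rfl fun x _ => hc _ _ _
    have hAZ : ∀ z ∈ Z, A z ∈ Z := fun z hz => by
      rw [hA]
      exact Z.sum_mem fun x _ => hZ.1 _ _ hz
    have : Nontrivial Z := ⟨⟨⟨v, hvZ⟩, 0, fun h => hv0 (congrArg Subtype.val h)⟩⟩
    obtain ⟨c, hcE⟩ := Module.End.exists_eigenvalue (A.restrict hAZ)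
    obtain ⟨w, hw⟩ := hcE.exists_hasEigenvector
    have hw1 : A w = c • (w : V) := by
      have := congrArg Subtype.val hw.apply_eq_smul
      simpa using this
    refine ⟨c, fun z hz => ?_⟩
    let Y : Submodule ℂ V := Z ⊓ LinearMap.ker (A - c • LinearMap.id)
    have hYmem : ∀ y, y ∈ Y ↔ y ∈ Z ∧ A y = c • y := by
      intro y
      simp only [Y, Submodule.mem_inf, LinearMap.mem_ker, LinearMap.sub_apply, LinearMap.smul_apply,
        LinearMap.id_apply, sub_eq_zero]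
    have hYZ : Y = Z := by
      refine hmin Y ⟨fun x y hy => ?_, fun x y hy => ?_⟩ inf_le_left ?_
      · rw [hYmem] at hy ⊢
        exact ⟨hZ.1 _ _ hy.1, by rw [hA1, hy.2, map_smul]⟩
      · rw [hYmem] at hy ⊢
        exact ⟨hZ.2 _ _ hy.1, by rw [hA2, hy.2, map_smul]⟩
      · intro hbot
        have : (w : V) ∈ Y := (hYmem _).2 ⟨w.2, hw1⟩
        rw [hbot, Submodule.mem_bot] at this
        exact hw.2 (Subtype.ext this)
    rw [← hYZ, hYmem] at hz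
    rw [← hA]
    exact hz.2
  -- the sum over the pairs
  let Q : V →ₗ[ℂ] V := ∑ x : H, ρ₁ x ∘ₗ ρ₂ x
  have hQ : ∀ z, Q z = ∑ x : H, ρ₁ x (ρ₂ x z) := fun z => by
    simp only [Q, LinearMap.sum_apply, LinearMap.comp_apply]
  have hQv : ∀ h k : H, Q (ρ₁ h (ρ₂ k v)) ∈ Submodule.span ℂ {v} := by
    intro h k
    have e1 : ρ₂ k v = ρ₁ k⁻¹ v := by
      conv_rhs => rw [← hvP k]
      rw [m1_mul, inv_mul_cancel, m1_one]
    rw [e1, m1_mul]
    obtain ⟨c, hcu⟩ := hscal (h * k⁻¹)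
    have e2 : Q (ρ₁ (h * k⁻¹) v) = c • v := by
      rw [hQ, ← hcu v hvZ]
      refine Finset.sum_congr rfl fun x _ => ?_
      rw [← hc]
      have e3 : ρ₂ x v = ρ₁ x⁻¹ v := by
        conv_rhs => rw [← hvP x]
        rw [m1_mul, inv_mul_cancel, m1_one]
      rw [e3, m1_mul, m1_mul, mul_assoc]
    rw [e2]
    exact Submodule.smul_mem _ _ (Submodule.mem_span_singleton_self v)
  let N : Submodule ℂ V := Z ⊓ ⨅ p : H × H, (Submodule.span ℂ {v}).comap (Q ∘ₗ ρ₁ p.1 ∘ₗ ρ₂ p.2)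
  have hN : ∀ y, y ∈ N ↔ y ∈ Z ∧ ∀ h k : H, Q (ρ₁ h (ρ₂ k y)) ∈ Submodule.span ℂ {v} := by
    intro y
    simp only [N, Submodule.mem_inf, Submodule.mem_iInf, Submodule.mem_comap, LinearMap.comp_apply, Prod.forall]
  have hNZ : N = Z := by
    refine hmin N ⟨fun x y hy => ?_, fun x y hy => ?_⟩ inf_le_left ?_
    · rw [hN] at hy ⊢
      refine ⟨hZ.1 _ _ hy.1, fun h k => ?_⟩
      rw [← hc, m1_mul]
      exact hy.2 _ _
    · rw [hN] at hy ⊢
      refine ⟨hZ.2 _ _ hy.1, fun h k => ?_⟩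
      rw [m1_mul]
      exact hy.2 _ _
    · intro hbot
      have : v ∈ N := (hN _).2 ⟨hvZ, hQv⟩
      rw [hbot, Submodule.mem_bot] at this
      exact hv0 this
  have hle : Z ⊓ pairInv ρ₁ ρ₂ ≤ Submodule.span ℂ {v} := by
    intro w hw
    have hwZ := hw.1
    have hwP : ∀ x : H, ρ₁ x (ρ₂ x w) = w := hw.2
    have h1 : w ∈ N := by rw [hNZ]; exact hwZ
    have h2 := ((hN w).1 h1).2 1 1
    rw [m1_one, m1_one, hQ, Finset.sum_congr rfl fun x _ => hwP x, Finset.sum_const, Finset.card_univ,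
      ← Nat.cast_smul_eq_nsmul ℂ] at h2
    have h3 : (Fintype.card H : ℂ) ≠ 0 := by exact_mod_cast Fintype.card_ne_zero
    have h4 := Submodule.smul_mem _ (Fintype.card H : ℂ)⁻¹ h2
    rwa [smul_smul, inv_mul_cancel₀ h3, one_smul] at h4
  refine (Submodule.finrank_mono hle).trans ?_
  exact (finrank_span_singleton hv0).le

private lemma m1_min [FiniteDimensional ℂ V] (ρ₁ ρ₂ : Representation ℂ H V) {U : Submodule ℂ V}
    (hU : M1St ρ₁ ρ₂ U) (h0 : U ≠ ⊥) :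
    ∃ Z : Submodule ℂ V, M1St ρ₁ ρ₂ Z ∧ Z ≤ U ∧ Z ≠ ⊥ ∧
      ∀ Y : Submodule ℂ V, M1St ρ₁ ρ₂ Y → Y ≤ Z → Y ≠ ⊥ → Y = Z := by
  classical
  have hex : ∃ n : ℕ, ∃ Z : Submodule ℂ V, M1St ρ₁ ρ₂ Z ∧ Z ≤ U ∧ Z ≠ ⊥ ∧ finrank ℂ Z = n :=
    ⟨_, U, hU, le_rfl, h0, rfl⟩
  obtain ⟨Z, h1, h2, h3, h4⟩ := Nat.find_spec hex
  refine ⟨Z, h1, h2, h3, fun Y hY hYZ hY0 => ?_⟩
  have h5 := Nat.find_min' hex ⟨Y, hY, hYZ.trans h2, hY0, rfl⟩
  exact Submodule.eq_of_le_of_finrank_le hYZ (by omega)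

end M1

theorem mul_finrank_pairInv_le {H V : Type*} [Group H] [Finite H] [AddCommGroup V] [Module ℂ V]
    [FiniteDimensional ℂ V] (ρ₁ ρ₂ : Representation ℂ H V)
    (hc : ∀ (x y : H) (v : V), ρ₁ x (ρ₂ y v) = ρ₂ y (ρ₁ x v)) (D : ℝ)
    (hD : ∀ W : Submodule ℂ V, W ≠ ⊥ → (∀ x : H, ∀ w ∈ W, ρ₁ x w ∈ W) → D ≤ finrank ℂ W) :
    D * finrank ℂ (pairInv ρ₁ ρ₂) ≤ finrank ℂ V := by
  have key : ∀ n : ℕ, ∀ U : Submodule ℂ V, M1St ρ₁ ρ₂ U → finrank ℂ U = n →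
      D * finrank ℂ (U ⊓ pairInv ρ₁ ρ₂ : Submodule ℂ V) ≤ finrank ℂ U := by
    intro n
    induction n using Nat.strong_induction_on with
    | _ n ih =>
      intro U hU hn
      by_cases h0 : U = ⊥
      · rw [h0, bot_inf_eq, finrank_bot]
        simp
      obtain ⟨Z, hZ, hZU, hZ0, hmin⟩ := m1_min ρ₁ ρ₂ hU h0
      obtain ⟨C, hC, hZC⟩ := m1_compl ρ₁ ρ₂ hc hZ
      have hC' : M1St ρ₁ ρ₂ (C ⊓ U) :=
        ⟨fun x u hu => ⟨hC.1 _ _ hu.1, hU.1 _ _ hu.2⟩, fun x u hu => ⟨hC.2 _ _ hu.1, hU.2 _ _ hu.2⟩⟩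
      have hdis : Z ⊓ (C ⊓ U) = ⊥ := by
        rw [← inf_assoc, hZC.inf_eq_bot, bot_inf_eq]
      have hsup : Z ⊔ (C ⊓ U) = U := by
        rw [← sup_inf_assoc_of_le C hZU, hZC.sup_eq_top, top_inf_eq]
      have hfr : finrank ℂ U = finrank ℂ Z + finrank ℂ (C ⊓ U : Submodule ℂ V) := by
        have := Submodule.finrank_sup_add_finrank_inf_eq Z (C ⊓ U)
        rw [hsup, hdis, finrank_bot] at this
        omega
      have hZpos : 0 < finrank ℂ Z := by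
        rw [Nat.pos_iff_ne_zero]
        intro h
        exact hZ0 (Submodule.finrank_eq_zero.1 h)
      have hih := ih (finrank ℂ (C ⊓ U : Submodule ℂ V)) (by omega) (C ⊓ U) hC' rfl
      have hle : U ⊓ pairInv ρ₁ ρ₂ ≤ (Z ⊓ pairInv ρ₁ ρ₂) ⊔ ((C ⊓ U) ⊓ pairInv ρ₁ ρ₂) := by
        intro u hu
        have huU := hu.1
        have huP : ∀ x : H, ρ₁ x (ρ₂ x u) = u := hu.2
        rw [← hsup] at huU
        obtain ⟨z, hz, c, hcc, hzc⟩ := Submodule.mem_sup.1 huU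
        have hboth : ∀ x : H, ρ₁ x (ρ₂ x z) = z ∧ ρ₁ x (ρ₂ x c) = c := by
          intro x
          have e1 : ρ₁ x (ρ₂ x z) + ρ₁ x (ρ₂ x c) = z + c := by
            rw [← map_add, ← map_add, hzc]
            exact huP x
          have e2 : ρ₁ x (ρ₂ x z) - z = c - ρ₁ x (ρ₂ x c) := by
            rw [sub_eq_sub_iff_add_eq_add, e1, add_comm]
          have e3 : ρ₁ x (ρ₂ x z) - z ∈ Z := Z.sub_mem (hZ.1 _ _ (hZ.2 _ _ hz)) hz
          have e4 : ρ₁ x (ρ₂ x z) - z ∈ C ⊓ U := by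
            rw [e2]
            exact (C ⊓ U).sub_mem hcc (hC'.1 _ _ (hC'.2 _ _ hcc))
          have e5 : ρ₁ x (ρ₂ x z) - z = 0 := by
            have : ρ₁ x (ρ₂ x z) - z ∈ Z ⊓ (C ⊓ U) := ⟨e3, e4⟩
            rwa [hdis, Submodule.mem_bot] at this
          refine ⟨sub_eq_zero.1 e5, ?_⟩
          rw [e5] at e2
          exact (sub_eq_zero.1 e2.symm).symm
        rw [← hzc]
        exact Submodule.add_mem_sup ⟨hz, fun x => (hboth x).1⟩ ⟨hcc, fun x => (hboth x).2⟩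
      have hfr2 : finrank ℂ (U ⊓ pairInv ρ₁ ρ₂ : Submodule ℂ V) ≤
          finrank ℂ (Z ⊓ pairInv ρ₁ ρ₂ : Submodule ℂ V) + finrank ℂ ((C ⊓ U) ⊓ pairInv ρ₁ ρ₂ : Submodule ℂ V) :=
        (Submodule.finrank_mono hle).trans (Submodule.finrank_add_le_finrank_add_finrank _ _)
      have hatom := m1_atom ρ₁ ρ₂ hc hZ hmin
      have hDZ := hD Z hZ0 hZ.1
      rcases le_or_gt D 0 with hDneg | hDpos
      · have : D * finrank ℂ (U ⊓ pairInv ρ₁ ρ₂ : Submodule ℂ V) ≤ 0 :=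
          mul_nonpos_of_nonpos_of_nonneg hDneg (Nat.cast_nonneg _)
        exact this.trans (Nat.cast_nonneg _)
      · have h5 : (finrank ℂ (U ⊓ pairInv ρ₁ ρ₂ : Submodule ℂ V) : ℝ) ≤
            1 + finrank ℂ ((C ⊓ U) ⊓ pairInv ρ₁ ρ₂ : Submodule ℂ V) := by
          have : finrank ℂ (U ⊓ pairInv ρ₁ ρ₂ : Submodule ℂ V) ≤
            1 + finrank ℂ ((C ⊓ U) ⊓ pairInv ρ₁ ρ₂ : Submodule ℂ V) := by omega
          exact_mod_cast this
        have h6 := mul_le_mul_of_nonneg_left h5 hDpos.le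
        rw [hfr]
        push_cast
        linarith
  have h := key _ ⊤ ⟨fun _ _ _ => Submodule.mem_top, fun _ _ _ => Submodule.mem_top⟩ rfl
  rwa [top_inf_eq, finrank_top] at h

end Pool.Agent.Helper1.TS
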