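import Pool.Agent.Helper1.TS.BD
import Pool.Agent.Helper1.TS.CHI
import Pool.Agent.Helper1.TS.AN

/-!
BLOCK TS-MAIN (about 150 lines). Section 8, assembly.

Proofs in words.
* `bal_conj`: it is enough to know the balance condition for one set `K₀` of cardinality `k`: for `K` take a permutation `a` with
  `a(K₀) = K` (`Finset.exists_perm...`, or `Equiv.Perm.exists_smul_finset_eq`/`Equiv.extendSubtype`); `ρ a⁻¹ v` is fixed by the
  permutations with support in `K₀` if `v` is fixed by those with support in `K` (conjugation), same for the sign.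
* `main_balanced`: `U` from `exists_chi`. For `W` simple and balanced put `r = rr U.ρ`, `q = rr W.ρ` (`r 1 = q 1 = 1`, the dimensions are
  positive; `FDRep` simple gives `Representation.IsIrreducible W.ρ`: look in Mathlib for the bridge between
  `CategoryTheory.Simple` and `IsIrreducible`, or prove it from `FDRep.simple_iff_char_is_norm_one` and semisimplicity).
  `bound16` gives the hypothesis of `main_sum` and `square_sum`. With `d = dim U`, `e = dim W`, all characters real
  (`char_perm_real`, `char_perm_inv`):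
  `∑ (χ² ± χ(g²))/2 ψ(g⁻¹) = (d² e ∑ r² q ± d e ∑ r(g²) q)/2 `, and `|∑ r(g²) q| < d/2 ≤ d ∑ r² q`, because
  `(∑ r(g²) q)² ≤ (3/2) e^4 n! 4^(-n) < d²/4` by `n! ≤ 2^(n+2) d²` and `24 e^4 < 2^11 ≤ 2^n` (`Real.exp_one_lt_d9`).
-/

set_option autoImplicit false

open Module Equiv CategoryTheory

namespace Pool.Agent.Helper1.TS

/-- a simple object of `FDRep ℂ G` is an irreducible representation -/
theorem irr_of_simple {G : Type} [Group G] (W : FDRep ℂ G) (_hW : Simple W) :
    Representation.IsIrreducible W.ρ := by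
  have hnt : ∃ w : W, w ≠ 0 := by
    by_contra h
    rw [not_exists] at h
    refine id_nonzero W ?_
    refine Action.Hom.ext ?_
    refine InducedCategory.hom_ext ?_
    refine ModuleCat.hom_ext ?_
    refine LinearMap.ext fun w => ?_
    have h1 := not_not.1 (h w)
    exact h1
  have key : ∀ p : Subrepresentation W.ρ, p ≠ ⊥ → p = ⊤ := by
    intro p hp
    let X : FDRep ℂ G := FDRep.of p.toRepresentation
    let f : X ⟶ W := ⟨InducedCategory.homMk (ModuleCat.ofHom p.toSubmodule.subtype), fun g => by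
      refine InducedCategory.hom_ext ?_
      refine ModuleCat.hom_ext ?_
      rfl⟩
    have hf : Mono f := by
      constructor
      intro Z a b hab
      refine Action.Hom.ext ?_
      refine InducedCategory.hom_ext ?_
      refine ModuleCat.hom_ext ?_
      refine LinearMap.ext fun z => ?_
      have h1 := congrArg (fun t => (t.hom.hom.hom) z) hab
      exact Subtype.ext h1
    have hne : f ≠ 0 := by
      intro h0
      apply hp
      apply Subrepresentation.toSubmodule_injective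
      refine le_bot_iff.1 ?_
      intro v hv
      have h1 := congrArg (fun t => (t.hom.hom.hom) (⟨v, hv⟩ : p.toSubmodule)) h0
      exact h1
    have hiso : IsIso f := isIso_of_mono_of_nonzero hne
    have he := LinearEquiv.finrank_eq (FDRep.isoToLinearEquiv (asIso f))
    apply Subrepresentation.toSubmodule_injective
    exact Submodule.eq_top_of_finrank_eq he
  obtain ⟨w, hw⟩ := hnt
  have hne : (⊥ : Subrepresentation W.ρ) ≠ ⊤ := by
    intro h
    have h1 : w ∈ (⊤ : Subrepresentation W.ρ).toSubmodule := Submodule.mem_top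
    rw [← h] at h1
    exact hw ((Submodule.mem_bot ℂ).1 h1)
  have hnt2 : Nontrivial (Subrepresentation W.ρ) := ⟨⟨⊥, ⊤, hne⟩⟩
  exact ⟨fun p => by
    by_cases h : p = ⊥
    · exact Or.inl h
    · exact Or.inr (key p h)⟩

/-- an irreducible representation is not zero -/
theorem finrank_pos_of_irr {G : Type} [Group G] (W : FDRep ℂ G) (hW : Simple W) : 0 < finrank ℂ W := by
  have hirr := irr_of_simple W hW
  rw [finrank_pos_iff]
  by_contra h
  rw [not_nontrivial_iff_subsingleton] at h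
  obtain ⟨p, q, hpq⟩ := hirr.toNontrivial
  apply hpq
  apply Subrepresentation.toSubmodule_injective
  exact Subsingleton.elim _ _

private lemma exists_perm_image {n : ℕ} (K₀ K : Finset (Fin n)) (h : K.card = K₀.card) :
    ∃ a : Perm (Fin n), ∀ i, a i ∈ K ↔ i ∈ K₀ := by
  let e : {x // x ∈ K₀} ≃ {x // x ∈ K} := Finset.equivOfCardEq h.symm
  refine ⟨e.extendSubtype, fun i => ⟨fun hi => ?_, fun hi => e.extendSubtype_mem i hi⟩⟩
  by_contra hc
  exact e.extendSubtype_not_mem i hc hi

theorem bal_conj {n : ℕ} {V : Type*} [AddCommGroup V] [Module ℂ V]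
    (ρ : Representation ℂ (Perm (Fin n)) V) (K₀ : Finset (Fin n))
    (h1 : ∀ v : V, (∀ x : Perm (Fin n), x.support ⊆ K₀ → ρ x v = v) → v = 0)
    (h2 : ∀ v : V, (∀ x : Perm (Fin n), x.support ⊆ K₀ →
      ρ x v = ((Perm.sign x : ℤ) : ℂ) • v) → v = 0) :
    Bal ρ K₀.card := by
  intro K hK v
  obtain ⟨a, ha⟩ := exists_perm_image K₀ K hK
  have hsupp : ∀ x : Perm (Fin n), x.support ⊆ K₀ → (a * x * a⁻¹).support ⊆ K := by
    intro x hx i hi
    rw [Perm.mem_support] at hi
    have h3 : x (a⁻¹ i) ≠ a⁻¹ i := by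
      intro h4
      apply hi
      rw [Perm.mul_apply, Perm.mul_apply, h4, ← Perm.mul_apply, mul_inv_cancel, Perm.one_apply]
    have h5 := (ha (a⁻¹ i)).2 (hx (Perm.mem_support.2 h3))
    rwa [← Perm.mul_apply, mul_inv_cancel, Perm.one_apply] at h5
  have hconj : ∀ (x : Perm (Fin n)) (w : V), ρ x (ρ a⁻¹ w) = ρ a⁻¹ (ρ (a * x * a⁻¹) w) := by
    intro x w
    rw [← Module.End.mul_apply, ← Module.End.mul_apply, ← map_mul, ← map_mul]
    congr 2
    group
  have hback : ρ a⁻¹ v = 0 → v = 0 := by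
    intro h3
    have h4 : v = ρ a (ρ a⁻¹ v) := by
      rw [← Module.End.mul_apply, ← map_mul, mul_inv_cancel, map_one, Module.End.one_apply]
    rw [h4, h3, map_zero]
  constructor
  · intro h
    refine hback (h1 _ fun x hx => ?_)
    rw [hconj, h _ (hsupp x hx)]
  · intro h
    refine hback (h2 _ fun x hx => ?_)
    rw [hconj, h _ (hsupp x hx), map_smul]
    congr 3
    rw [map_mul, map_mul, map_inv, mul_right_comm, mul_inv_cancel, one_mul]

private lemma exp4_lt : 24 * Real.exp 4 < 2 ^ 11 := by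
  have h1 := Real.exp_one_lt_d9
  have h2 : Real.exp 4 = Real.exp 1 ^ 4 := by
    rw [← Real.exp_nat_mul]
    norm_num
  rw [h2]
  have h3 : Real.exp 1 ^ 4 < (2.7182818286 : ℝ) ^ 4 := pow_lt_pow_left₀ h1 (Real.exp_pos 1).le (by norm_num)
  have h4 : 24 * (2.7182818286 : ℝ) ^ 4 < 2 ^ 11 := by norm_num
  linarith

theorem main_balanced {n : ℕ} (hn : 11 ≤ n) :
    ∃ U : FDRep ℂ (Perm (Fin n)), Simple U ∧
      ∀ k : ℕ, (k : ℝ) * 2 ^ 91 ≤ n → ∀ W : FDRep ℂ (Perm (Fin n)), Simple W → Bal W.ρ k →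
        (∑ g : Perm (Fin n), ((U.character g ^ 2 + U.character (g ^ 2)) / 2) *
          W.character g⁻¹) ≠ 0 ∧
        (∑ g : Perm (Fin n), ((U.character g ^ 2 - U.character (g ^ 2)) / 2) *
          W.character g⁻¹) ≠ 0 := by
  obtain ⟨U, hU, hr, hd⟩ := exists_chi n
  refine ⟨U, hU, fun k hk W hW hB => ?_⟩
  have hirr := irr_of_simple W hW
  have hd0 : 0 < finrank ℂ U := finrank_pos_of_irr U hU
  have he0 : 0 < finrank ℂ W := finrank_pos_of_irr W hW
  have hq : ∀ g, |rr W.ρ g| ≤ (1 / 16 : ℝ) ^ g.support.card := fun g => bound16 W.ρ hB hk g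
  have hone : ∀ X : FDRep ℂ (Perm (Fin n)), 0 < finrank ℂ X → rr X.ρ 1 = 1 := by
    intro X hX
    unfold rr
    rw [Representation.char_one, Complex.natCast_re]
    exact div_self (by exact_mod_cast hX.ne')
  have hchar : ∀ X : FDRep ℂ (Perm (Fin n)), 0 < finrank ℂ X → ∀ g, X.character g =
      (((finrank ℂ X : ℝ) * rr X.ρ g : ℝ) : ℂ) := by
    intro X hX g
    have h1 : X.character g = Representation.character X.ρ g := rfl
    have h2 : (finrank ℂ X : ℝ) ≠ 0 := by exact_mod_cast hX.ne'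
    rw [h1, char_perm_real X.ρ g]
    unfold rr
    rw [mul_div_cancel₀ _ h2]
  have hinv : ∀ g, W.character g⁻¹ = W.character g := fun g => char_perm_inv W.ρ g
  set d : ℝ := (finrank ℂ U : ℝ) with hdd
  set e : ℝ := (finrank ℂ W : ℝ) with hee
  have hd1 : 0 < d := by rw [hdd]; exact_mod_cast hd0
  have he1 : 0 < e := by rw [hee]; exact_mod_cast he0
  set A : ℝ := ∑ g, (rr U.ρ g) ^ 2 * rr W.ρ g with hA
  set B : ℝ := ∑ g, rr U.ρ (g ^ 2) * rr W.ρ g with hBB
  have hA1 : 1 / 2 ≤ A := main_sum _ _ (hone U hd0) (hone W he0) hr hq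
  have hB1 : B ^ 2 ≤ (3 / 2) * (Real.exp 4 * n.factorial * (1 / 4) ^ n) := square_sum _ _ (hone U hd0) hr hq
  have hB2 : B ^ 2 < (d / 2) ^ 2 := by
    refine lt_of_le_of_lt hB1 ?_
    have h1 : (3 / 2 : ℝ) * (Real.exp 4 * n.factorial * (1 / 4) ^ n) ≤
        (3 / 2) * (Real.exp 4 * (2 ^ (n + 2) * d ^ 2) * (1 / 4) ^ n) := by
      gcongr
    refine lt_of_le_of_lt h1 ?_
    have h2 : (2 : ℝ) ^ (n + 2) * (1 / 4) ^ n = 4 * (1 / 2) ^ n := by
      rw [pow_add, mul_right_comm, ← mul_pow]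
      norm_num
      ring
    have h3 : (3 / 2) * (Real.exp 4 * (2 ^ (n + 2) * d ^ 2) * (1 / 4) ^ n) =
        6 * Real.exp 4 * (1 / 2) ^ n * d ^ 2 := by
      calc (3 / 2) * (Real.exp 4 * (2 ^ (n + 2) * d ^ 2) * (1 / 4) ^ n) =
          (3 / 2) * Real.exp 4 * ((2 : ℝ) ^ (n + 2) * (1 / 4) ^ n) * d ^ 2 := by ring
        _ = 6 * Real.exp 4 * (1 / 2) ^ n * d ^ 2 := by rw [h2]; ring
    rw [h3]
    have h4 : (1 / 2 : ℝ) ^ n ≤ (1 / 2) ^ 11 := pow_le_pow_of_le_one (by norm_num) (by norm_num) hn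
    have h5 : 6 * Real.exp 4 * (1 / 2) ^ n < 1 / 4 := by
      have h6 := exp4_lt
      have h7 : 6 * Real.exp 4 * (1 / 2) ^ n ≤ 6 * Real.exp 4 * (1 / 2) ^ 11 := by
        have := Real.exp_pos 4
        gcongr
      refine lt_of_le_of_lt h7 ?_
      norm_num at h6 ⊢
      linarith
    have h6 : 0 < d ^ 2 := by positivity
    calc 6 * Real.exp 4 * (1 / 2) ^ n * d ^ 2 < 1 / 4 * d ^ 2 := mul_lt_mul_of_pos_right h5 h6
      _ = (d / 2) ^ 2 := by ring
  have hB3 := abs_lt.1 (abs_lt_of_sq_lt_sq hB2 (by positivity))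
  have hsum1 : ∑ g : Perm (Fin n), ((U.character g ^ 2 + U.character (g ^ 2)) / 2) * W.character g⁻¹ =
      (((d ^ 2 * e * A + d * e * B) / 2 : ℝ) : ℂ) := by
    rw [hA, hBB, Finset.mul_sum, Finset.mul_sum, ← Finset.sum_add_distrib, Finset.sum_div, Complex.ofReal_sum]
    refine Finset.sum_congr rfl fun g _ => ?_
    rw [hinv, hchar U hd0, hchar U hd0, hchar W he0, ← hdd, ← hee]
    push_cast
    ring
  have hsum2 : ∑ g : Perm (Fin n), ((U.character g ^ 2 - U.character (g ^ 2)) / 2) * W.character g⁻¹ =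
      (((d ^ 2 * e * A - d * e * B) / 2 : ℝ) : ℂ) := by
    rw [hA, hBB, Finset.mul_sum, Finset.mul_sum, ← Finset.sum_sub_distrib, Finset.sum_div, Complex.ofReal_sum]
    refine Finset.sum_congr rfl fun g _ => ?_
    rw [hinv, hchar U hd0, hchar U hd0, hchar W he0, ← hdd, ← hee]
    push_cast
    ring
  have hde : 0 < d * e := mul_pos hd1 he1
  have hdA : d / 2 ≤ d * A := by nlinarith
  constructor
  · rw [hsum1, Complex.ofReal_ne_zero]
    have h1 : (d ^ 2 * e * A + d * e * B) / 2 = d * e * (d * A + B) / 2 := by ring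
    rw [h1]
    have h2 : 0 < d * A + B := by linarith
    positivity
  · rw [hsum2, Complex.ofReal_ne_zero]
    have h1 : (d ^ 2 * e * A - d * e * B) / 2 = d * e * (d * A - B) / 2 := by ring
    rw [h1]
    have h2 : 0 < d * A - B := by linarith
    positivity

end Pool.Agent.Helper1.TS
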