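import Pool.Agent.Helper1.TS.Defs

/-!
BLOCK TS-TEX (about 40 lines).

Proof in words. Among the finsets `T ⊆ g.support` with `T` and `g T` disjoint (`∅` is one) take one of maximal
cardinality. For `x` in the support, `x ∉ T`, the set `insert x T` is not admissible, so `g x ∈ T` or `x ∈ g T`
(`g x = x` is impossible). So the support is contained in `T ∪ g T ∪ g⁻¹ T`, of cardinality at most `3 |T|`.
-/

set_option autoImplicit false

open Equiv

namespace Pool.Agent.Helper1.TS

theorem exists_disjoint_image {n : ℕ} (g : Perm (Fin n)) :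
    ∃ T : Finset (Fin n), Disjoint T (T.map g.toEmbedding) ∧ g.support.card ≤ 3 * T.card := by
  classical
  set 𝒯 : Finset (Finset (Fin n)) :=
    g.support.powerset.filter (fun T => Disjoint T (T.map g.toEmbedding)) with h𝒯
  have hne : 𝒯.Nonempty := ⟨∅, by simp [h𝒯]⟩
  obtain ⟨T, hT, hmax⟩ := Finset.exists_max_image 𝒯 Finset.card hne
  rw [h𝒯, Finset.mem_filter, Finset.mem_powerset] at hT
  obtain ⟨hTs, hTd⟩ := hT
  refine ⟨T, hTd, ?_⟩
  have hsub : g.support ⊆ T ∪ (T.map g.toEmbedding ∪ T.map g.symm.toEmbedding) := by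
    intro x hx
    rw [Finset.mem_union, Finset.mem_union]
    by_contra hcon
    push Not at hcon
    obtain ⟨hxT, hxg, hxi⟩ := hcon
    have hmem : insert x T ∈ 𝒯 := by
      rw [h𝒯, Finset.mem_filter, Finset.mem_powerset]
      refine ⟨Finset.insert_subset hx hTs, ?_⟩
      rw [Finset.disjoint_left]
      intro y hy hy'
      rw [Finset.mem_map] at hy'
      obtain ⟨z, hz, hzy⟩ := hy'
      simp only [Equiv.coe_toEmbedding] at hzy
      rw [Finset.mem_insert] at hy hz
      rcases hz with rfl | hz
      · rcases hy with rfl | hy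
        · exact (Perm.mem_support.1 hx) hzy
        · exact hxi (Finset.mem_map.2 ⟨y, hy, by simp [← hzy]⟩)
      · rcases hy with rfl | hy
        · exact hxg (Finset.mem_map.2 ⟨z, hz, hzy⟩)
        · exact (Finset.disjoint_left.1 hTd hy) (Finset.mem_map.2 ⟨z, hz, hzy⟩)
    have h1 := hmax _ hmem
    rw [Finset.card_insert_of_notMem hxT] at h1
    omega
  have h1 := Finset.card_le_card hsub
  have h2 := Finset.card_union_le T (T.map g.toEmbedding ∪ T.map g.symm.toEmbedding)
  have h3 := Finset.card_union_le (T.map g.toEmbedding) (T.map g.symm.toEmbedding)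
  rw [Finset.card_map, Finset.card_map] at h3
  omega

end Pool.Agent.Helper1.TS
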