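import Pool.Agent.Helper1.TS.A0
import Pool.Agent.Helper1.TS.M1
import Pool.Agent.Helper1.TS.TEX
import Pool.Agent.Helper1.TS.DEG

/-!
BLOCK TS-RB (about 80 lines). The ratio bound for balanced representations.

Proof in words. `T` from `exists_disjoint_image`. `char_sq_le_diag` gives `(re χ(g))² ≤ d * dim (pairInv ..)`; with
`D = |T|! / (2k)^|T|` (if `k = 0` then `(2 k)^|T|` is `0` or `|T| = 0`; `deg_bound_sub` for `W = ⊤` shows that for `k = 0` and
`V ≠ 0` we have `|T| = 0`, and then `|rr| ≤ 1` by `norm_char_le`) the theorem `mul_finrank_pairInv_le` with `deg_bound_sub` gives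
`D * dim (pairInv ..) ≤ d` (the representations `resT`, `resC` commute, because `x` and `g y g⁻¹` have disjoint supports), so
`(re χ(g))² D ≤ d²`. Divide by `d² > 0`.
-/

set_option autoImplicit false

open Module Equiv

namespace Pool.Agent.Helper1.TS

private theorem emb_conj_comm (n : ℕ) (g : Perm (Fin n)) (T : Finset (Fin n))
    (hT : Disjoint T (T.map g.toEmbedding)) (w z : Perm {x // x ∈ T}) :
    Commute (emb T w) (g * emb T z * g⁻¹) := by
  refine Equiv.Perm.Disjoint.commute fun x => ?_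
  by_cases hx : x ∈ T
  · right
    have h1 : g⁻¹ x ∉ T := by
      intro h
      refine Finset.disjoint_left.1 hT hx (Finset.mem_map.2 ⟨g⁻¹ x, h, ?_⟩)
      simp
    rw [Equiv.Perm.mul_apply, Equiv.Perm.mul_apply, Equiv.Perm.ofSubtype_apply_of_not_mem _ h1]
    simp
  · left
    exact Equiv.Perm.ofSubtype_apply_of_not_mem _ hx

private theorem ratio_alg (c d p D f K : ℝ) (hd : 0 < d) (hK : 0 < K) (hDf : D * K = f)
    (hD : 0 ≤ D) (h1 : c ^ 2 ≤ d * p) (h2 : D * p ≤ d) : (c / d) ^ 2 * f ≤ K := by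
  have e1 := mul_le_mul_of_nonneg_right h1 hD
  have e2 := mul_le_mul_of_nonneg_left h2 hd.le
  have h3 : c ^ 2 * D ≤ d ^ 2 := by
    nlinarith [e1, e2]
  have h4 : (c / d) ^ 2 * f = (c ^ 2 * D) / d ^ 2 * K := by
    rw [← hDf, div_pow]; ring
  rw [h4]
  have h5 : (c ^ 2 * D) / d ^ 2 ≤ 1 := by
    rw [div_le_one (by positivity)]; exact h3
  nlinarith

theorem ratio_bound {n : ℕ} {V : Type*} [AddCommGroup V] [Module ℂ V]
    [FiniteDimensional ℂ V] [Nontrivial V] (ρ : Representation ℂ (Perm (Fin n)) V) {k : ℕ}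
    (hB : Bal ρ k) (g : Perm (Fin n)) :
    ∃ m : ℕ, g.support.card ≤ 3 * m ∧ (rr ρ g) ^ 2 * m.factorial ≤ (2 * k) ^ m := by
  obtain ⟨T, hT, hcard⟩ := exists_disjoint_image g
  refine ⟨T.card, hcard, ?_⟩
  have hd : (0 : ℝ) < finrank ℂ V := by exact_mod_cast finrank_pos
  have hf : (0 : ℝ) < (T.card.factorial : ℝ) := by exact_mod_cast Nat.factorial_pos _
  have hK0 : (0 : ℝ) ≤ (2 * (k : ℝ)) ^ T.card := by positivity
  have htop := deg_bound_sub ρ hB T ⊤ top_ne_bot (fun _ _ _ => Submodule.mem_top)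
  rw [finrank_top] at htop
  have hK : (0 : ℝ) < (2 * (k : ℝ)) ^ T.card := by
    rcases hK0.lt_or_eq with h | h
    · exact h
    · rw [← h, zero_mul] at htop
      exact absurd htop (not_le.2 hf)
  set D : ℝ := (T.card.factorial : ℝ) / (2 * (k : ℝ)) ^ T.card with hDdef
  have hD0 : 0 ≤ D := by positivity
  have hDK : D * (2 * (k : ℝ)) ^ T.card = T.card.factorial := by
    rw [hDdef, div_mul_cancel₀ _ hK.ne']
  have h1 := char_sq_le_diag ρ g T hT
  have hc : ∀ (x y : Perm {x // x ∈ T}) (v : V),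
      resT ρ T x (resC ρ g T y v) = resC ρ g T y (resT ρ T x v) := by
    intro x y v
    have hcom := (emb_conj_comm n g T hT x y).eq
    change ρ (emb T x) (ρ (g * emb T y * g⁻¹) v) = ρ (g * emb T y * g⁻¹) (ρ (emb T x) v)
    rw [← Module.End.mul_apply, ← Module.End.mul_apply, ← map_mul, ← map_mul, hcom]
  have h2 := mul_finrank_pairInv_le (resT ρ T) (resC ρ g T) hc D (by
    intro W hW hst
    have h3 := deg_bound_sub ρ hB T W hW hst
    rw [hDdef, div_le_iff₀ hK]
    linarith)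
  exact ratio_alg (ρ.character g).re (finrank ℂ V) (finrank ℂ (pairInv (resT ρ T) (resC ρ g T)))
    D T.card.factorial _ hd hK hDK hD0 h1 h2

end Pool.Agent.Helper1.TS
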