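import Pool.Agent.Helper1.TS.CLS
import Pool.Agent.Helper1.TS.UNI

/-!
BLOCK TS-REG (about 200 lines). Section 6, the decomposition of the regular representation.

Proof in words. `exists_decomp`: for every finite dimensional representation `V` of `G` there are irreducible
representations `U i`, `i : Fin N`, with `dim V = ∑ dim U i` and for all `g`
`(∑_{y,z} χ_V (y g y⁻¹ (z g z⁻¹)⁻¹)) = |G|² ∑ i, χ_i(g) χ_i(g⁻¹) / dim U i`.
(Strong induction on the dimension: an irreducible invariant subspace and an invariant complement (Maschke), the trace is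
additive; for irreducible `U` the operator `∑_y ρ (y g y⁻¹) = |G| χ(g)/d` by Schur. Or use `IsSemisimpleModule` and
`LinearMap.trace_eq_sum_trace_restrict`.)
Apply it to the regular representation on `G → ℂ` (or `MonoidAlgebra`), whose character is `|G|` at `1` and `0` elsewhere:
the left side is `|G| #{(y,z) : y g y⁻¹ = z g z⁻¹} = |G| * |G|² / cls g` (orbit-stabilizer: the pairs are counted by
`|G| * |centralizer|`, and `cls g * |centralizer| = |G|`).
The result is stated with `FDRep` because the representations live on different spaces.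
-/

set_option autoImplicit false

open Module Equiv CategoryTheory

namespace Pool.Agent.Helper1.TS

section RegAux

variable {G : Type} [Group G]

private lemma reg_simple [Fintype G] {V : Type} [AddCommGroup V] [Module ℂ V]
    [FiniteDimensional ℂ V] (ρ : Representation ℂ G V) (hρ : ρ.IsIrreducible) :
    Simple (FDRep.of ρ) := by
  classical
  rw [FDRep.simple_iff_char_is_norm_one]
  have hc : (Nat.card G : ℂ) ≠ 0 := by exact_mod_cast Nat.card_pos.ne'
  have : Invertible (Nat.card G : ℂ) := invertibleOfNonzero hc
  have h := Representation.char_orthonormal ρ ρ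
  rw [if_pos ⟨Representation.Equiv.refl ρ⟩] at h
  have h2 : ∑ g : G, ρ.character g * ρ.character g⁻¹ = Nat.card G := by
    have h3 := congrArg (fun z => (Nat.card G : ℂ) * z) h
    simp only [mul_one] at h3
    rw [← mul_assoc, mul_inv_cancel₀ hc, one_mul] at h3
    exact h3
  exact h2

private lemma reg_compl {V : Type} [AddCommGroup V] [Module ℂ V] {ρ : Representation ℂ G V}
    {W W' : Subrepresentation ρ} (h : IsCompl W W') : IsCompl W.toSubmodule W'.toSubmodule := by
  rw [isCompl_iff, disjoint_iff, codisjoint_iff] at h ⊢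
  constructor
  · rw [← Subrepresentation.toSubmodule_inf, h.1]
    rfl
  · rw [← Subrepresentation.toSubmodule_sup, h.2]
    rfl

private lemma reg_char {V : Type} [AddCommGroup V] [Module ℂ V] [FiniteDimensional ℂ V]
    {ρ : Representation ℂ G V} {W W' : Subrepresentation ρ} (h : IsCompl W W') (g : G) :
    W.toRepresentation.character g + W'.toRepresentation.character g = ρ.character g := by
  let e := Submodule.prodEquivOfIsCompl W.toSubmodule W'.toSubmodule (reg_compl h)
  have he : ρ g = e.conj (LinearMap.prodMap (W.toRepresentation g) (W'.toRepresentation g)) := by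
    refine LinearMap.ext fun v => ?_
    obtain ⟨x, rfl⟩ := e.surjective v
    rw [LinearEquiv.conj_apply_apply, e.symm_apply_apply, Submodule.coe_prodEquivOfIsCompl',
      Submodule.coe_prodEquivOfIsCompl', map_add]
    rfl
  unfold Representation.character
  rw [he, LinearMap.trace_conj', LinearMap.trace_prodMap']

private lemma reg_decomp [Fintype G] (n : ℕ) : ∀ (V : Type) [AddCommGroup V] [Module ℂ V]
    [FiniteDimensional ℂ V] (ρ : Representation ℂ G V), finrank ℂ V = n →
    ∃ (N : ℕ) (U : Fin N → FDRep ℂ G),
      (∀ i, Simple (U i) ∧ Representation.IsIrreducible (U i).ρ) ∧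
      ∑ i, finrank ℂ (U i) = n ∧ ∀ g, ∑ i, (U i).character g = ρ.character g := by
  induction n using Nat.strong_induction_on with
  | _ n ih =>
    intro V _ _ _ ρ hV
    by_cases hirr : ρ.IsIrreducible
    · refine ⟨1, fun _ => FDRep.of ρ, fun _ => ⟨reg_simple ρ hirr, hirr⟩, ?_, ?_⟩
      · rw [Fin.sum_univ_one]
        exact hV
      · intro g
        rw [Fin.sum_univ_one]
        rfl
    · rcases subsingleton_or_nontrivial V with hs | hn
      · refine ⟨0, fun i => i.elim0, fun i => i.elim0, ?_, ?_⟩
        · rw [← hV, finrank_zero_of_subsingleton]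
          rfl
        · intro g
          have h1 : ρ g = 0 := LinearMap.ext fun v => Subsingleton.elim _ _
          unfold Representation.character
          rw [h1, map_zero]
          rfl
      · -- a proper subrepresentation
        obtain ⟨W, hW1, hW2⟩ : ∃ W : Subrepresentation ρ, W ≠ ⊥ ∧ W ≠ ⊤ := by
          by_contra hcon
          push Not at hcon
          apply hirr
          have hne : (⊥ : Subrepresentation ρ) ≠ ⊤ := by
            intro h
            have h1 := congrArg Subrepresentation.toSubmodule h
            exact bot_ne_top (α := Submodule ℂ V) h1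
          exact { exists_pair_ne := ⟨⊥, ⊤, hne⟩
                  eq_bot_or_eq_top := fun W => by
                    by_cases h : W = ⊥
                    · exact Or.inl h
                    · exact Or.inr (hcon W h) }
        obtain ⟨W', hW'⟩ := exists_isCompl W
        have hc := reg_compl hW'
        have hsum := Submodule.finrank_add_eq_of_isCompl hc
        have h1 : 0 < finrank ℂ W.toSubmodule := by
          rw [Module.finrank_pos_iff, Submodule.nontrivial_iff_ne_bot]
          intro h
          exact hW1 (Subrepresentation.toSubmodule_injective h)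
        have h2 : 0 < finrank ℂ W'.toSubmodule := by
          rw [Module.finrank_pos_iff, Submodule.nontrivial_iff_ne_bot]
          intro h
          have h3 := hc.sup_eq_top
          rw [h, sup_bot_eq] at h3
          exact hW2 (Subrepresentation.toSubmodule_injective h3)
        obtain ⟨N, U, hU1, hU2, hU3⟩ := ih _ (by omega) W.toSubmodule W.toRepresentation rfl
        obtain ⟨N', U', hU1', hU2', hU3'⟩ := ih _ (by omega) W'.toSubmodule W'.toRepresentation rfl
        refine ⟨N + N', Fin.append U U', ?_, ?_, ?_⟩
        · intro i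
          refine Fin.addCases (fun i => ?_) (fun i => ?_) i
          · rw [Fin.append_left]; exact hU1 i
          · rw [Fin.append_right]; exact hU1' i
        · rw [Fin.sum_univ_add]
          have e1 : ∀ i ∈ (Finset.univ : Finset (Fin N)),
              finrank ℂ ((Fin.append U U' : Fin (N + N') → FDRep ℂ G) (Fin.castAdd N' i)) =
                finrank ℂ (U i) := by
            intro i _
            rw [Fin.append_left]
          have e2 : ∀ i ∈ (Finset.univ : Finset (Fin N')),
              finrank ℂ ((Fin.append U U' : Fin (N + N') → FDRep ℂ G) (Fin.natAdd N i)) =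
                finrank ℂ (U' i) := by
            intro i _
            rw [Fin.append_right]
          rw [Finset.sum_congr rfl e1, Finset.sum_congr rfl e2, hU2, hU2', hsum, hV]
        · intro g
          rw [Fin.sum_univ_add]
          have e1 : ∀ i ∈ (Finset.univ : Finset (Fin N)),
              ((Fin.append U U' : Fin (N + N') → FDRep ℂ G) (Fin.castAdd N' i)).character g =
                (U i).character g := by
            intro i _
            rw [Fin.append_left]
          have e2 : ∀ i ∈ (Finset.univ : Finset (Fin N')),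
              ((Fin.append U U' : Fin (N + N') → FDRep ℂ G) (Fin.natAdd N i)).character g =
                (U' i).character g := by
            intro i _
            rw [Fin.append_right]
          rw [Finset.sum_congr rfl e1, Finset.sum_congr rfl e2, hU3, hU3', reg_char hW' g]

/-- The sum over the conjugates is a scalar. -/
private lemma reg_scalar [Fintype G] {V : Type} [AddCommGroup V] [Module ℂ V]
    [FiniteDimensional ℂ V] (ρ : Representation ℂ G V) (hρ : ρ.IsIrreducible) (g : G) :
    ∃ c : ℂ, (∑ y : G, ρ (y * g * y⁻¹)) = c • (1 : Module.End ℂ V) ∧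
      c * finrank ℂ V = Fintype.card G * ρ.character g := by
  have hcomm : ∀ (h : G) (v : V), (∑ y : G, ρ (y * g * y⁻¹)) (ρ h v) =
      ρ h ((∑ y : G, ρ (y * g * y⁻¹)) v) := by
    intro h v
    rw [LinearMap.sum_apply, LinearMap.sum_apply, map_sum]
    refine Fintype.sum_equiv (Equiv.mulLeft h⁻¹) _ _ fun y => ?_
    rw [← Module.End.mul_apply, ← Module.End.mul_apply, ← map_mul, ← map_mul]
    congr 2
    simp only [Equiv.coe_mulLeft, mul_inv_rev, inv_inv]
    group
  let T : Representation.IntertwiningMap ρ ρ :=
    LinearMap.intertwiningMap_of_isIntertwiningMap ρ ρ _ hcomm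
  obtain ⟨c, hc⟩ := (Representation.IsIrreducible.algebraMap_intertwiningMap_bijective_of_isAlgClosed
    (ρ := ρ)).2 T
  have hT : (∑ y : G, ρ (y * g * y⁻¹)) = c • (1 : Module.End ℂ V) := by
    have h1 : T.toLinearMap = (algebraMap ℂ (Representation.IntertwiningMap ρ ρ) c).toLinearMap := by
      rw [hc]
    rw [Representation.IntertwiningMap.algebraMap_apply] at h1
    exact h1
  refine ⟨c, hT, ?_⟩
  have h2 := congrArg (LinearMap.trace ℂ V) hT
  rw [map_sum, map_smul, LinearMap.trace_one, smul_eq_mul] at h2
  rw [← h2]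
  have h3 : ∀ y ∈ (Finset.univ : Finset G), LinearMap.trace ℂ V (ρ (y * g * y⁻¹)) =
      ρ.character g := fun y _ => Representation.char_conj ρ g y
  rw [Finset.sum_congr rfl h3, Finset.sum_const, Finset.card_univ, nsmul_eq_mul]

private lemma reg_irr [Fintype G] {V : Type} [AddCommGroup V] [Module ℂ V]
    [FiniteDimensional ℂ V] (ρ : Representation ℂ G V) (hρ : ρ.IsIrreducible) (g : G) :
    ∑ y : G, ∑ z : G, ρ.character (y * g * y⁻¹ * (z * g⁻¹ * z⁻¹)) =
      (Fintype.card G : ℂ) ^ 2 * (ρ.character g * ρ.character g⁻¹ / finrank ℂ V) := by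
  obtain ⟨c, hc1, hc2⟩ := reg_scalar ρ hρ g
  obtain ⟨c', hc1', hc2'⟩ := reg_scalar ρ hρ g⁻¹
  have hnt : Nontrivial V := by
    by_contra hcon
    rw [not_nontrivial_iff_subsingleton] at hcon
    obtain ⟨a, b, hab⟩ := hρ.exists_pair_ne
    apply hab
    apply Subrepresentation.toSubmodule_injective
    exact Subsingleton.elim _ _
  have hd : (finrank ℂ V : ℂ) ≠ 0 := by
    have : 0 < finrank ℂ V := finrank_pos
    exact_mod_cast this.ne'
  have h1 : ∑ y : G, ∑ z : G, ρ.character (y * g * y⁻¹ * (z * g⁻¹ * z⁻¹)) =
      LinearMap.trace ℂ V ((∑ y : G, ρ (y * g * y⁻¹)) * (∑ z : G, ρ (z * g⁻¹ * z⁻¹))) := by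
    rw [Finset.sum_mul_sum, map_sum]
    refine Finset.sum_congr rfl fun y _ => ?_
    rw [map_sum]
    refine Finset.sum_congr rfl fun z _ => ?_
    rw [← map_mul]
    rfl
  rw [h1, hc1, hc1', smul_mul_smul_comm, mul_one, map_smul, LinearMap.trace_one, smul_eq_mul]
  have e : (Fintype.card G : ℂ) ^ 2 * (ρ.character g * ρ.character g⁻¹ / finrank ℂ V) =
      (Fintype.card G * ρ.character g) * (Fintype.card G * ρ.character g⁻¹) / finrank ℂ V := by
    ring
  rw [e, ← hc2, ← hc2']
  field_simp

/-- The regular representation. -/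
private noncomputable def regRep (G : Type) [Group G] : Representation ℂ G (G → ℂ) where
  toFun g := LinearMap.funLeft ℂ ℂ (fun x => g⁻¹ * x)
  map_one' := by
    refine LinearMap.ext fun f => funext fun x => ?_
    rw [LinearMap.funLeft_apply, inv_one, one_mul]
    rfl
  map_mul' g h := by
    refine LinearMap.ext fun f => funext fun x => ?_
    rw [Module.End.mul_apply, LinearMap.funLeft_apply, LinearMap.funLeft_apply,
      LinearMap.funLeft_apply, mul_inv_rev, mul_assoc]

open Classical in
private lemma regRep_char [Fintype G] (g : G) :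
    (regRep G).character g = if g = 1 then (Fintype.card G : ℂ) else 0 := by
  unfold Representation.character
  rw [LinearMap.trace_eq_matrix_trace ℂ (Pi.basisFun ℂ G), Matrix.trace]
  have h1 : ∀ x : G, (LinearMap.toMatrix (Pi.basisFun ℂ G) (Pi.basisFun ℂ G) (regRep G g)).diag x =
      if g = 1 then 1 else 0 := by
    intro x
    rw [Matrix.diag_apply, LinearMap.toMatrix_apply, Pi.basisFun_repr, Pi.basisFun_apply]
    have h2 : regRep G g (Pi.single x 1) x = (Pi.single x 1 : G → ℂ) (g⁻¹ * x) := rfl
    rw [h2, Pi.single_apply]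
    refine if_congr ?_ rfl rfl
    constructor
    · intro h
      have h3 : g⁻¹ = 1 := mul_eq_right.1 h
      exact inv_eq_one.1 h3
    · intro h
      rw [h, inv_one, one_mul]
  rw [Finset.sum_congr rfl fun x _ => h1 x]
  split_ifs with h
  · simp
  · simp

open Classical in
private lemma reg_count [Fintype G] (g : G) :
    (∑ y : G, ∑ z : G, if y * g * y⁻¹ * (z * g⁻¹ * z⁻¹) = 1 then (1 : ℂ) else 0) * cls g =
      (Fintype.card G : ℂ) ^ 2 := by
  set c := (Finset.univ.filter (fun w : G => w * g * w⁻¹ = g)).card with hc
  -- the fibres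
  have hfib : ∀ y : G, (Finset.univ.filter (fun z : G => z * g * z⁻¹ = y * g * y⁻¹)).card = c := by
    intro y
    rw [hc]
    refine Finset.card_bij' (fun z _ => y⁻¹ * z) (fun w _ => y * w) ?_ ?_ ?_ ?_
    · intro z hz
      rw [Finset.mem_filter] at hz ⊢
      refine ⟨Finset.mem_univ _, ?_⟩
      calc y⁻¹ * z * g * (y⁻¹ * z)⁻¹ = y⁻¹ * (z * g * z⁻¹) * y := by group
        _ = g := by rw [hz.2]; group
    · intro w hw
      rw [Finset.mem_filter] at hw ⊢
      refine ⟨Finset.mem_univ _, ?_⟩
      calc y * w * g * (y * w)⁻¹ = y * (w * g * w⁻¹) * y⁻¹ := by group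
        _ = y * g * y⁻¹ := by rw [hw.2]
    · intro z _
      group
    · intro w _
      group
  have h1 : ∀ y : G, ∑ z : G, (if y * g * y⁻¹ * (z * g⁻¹ * z⁻¹) = 1 then (1 : ℂ) else 0) = c := by
    intro y
    rw [← hfib y, Finset.sum_boole]
    congr 2
    ext z
    rw [Finset.mem_filter, Finset.mem_filter]
    refine and_congr_right fun _ => ?_
    have e : z * g⁻¹ * z⁻¹ = (z * g * z⁻¹)⁻¹ := by group
    rw [e, mul_inv_eq_one]
    exact eq_comm
  have h2 : Fintype.card G = cls g * c := by
    rw [← Finset.card_univ, Finset.card_eq_sum_card_fiberwise (f := fun z : G => z * g * z⁻¹)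
      (t := Finset.univ.filter (fun h => IsConj g h))]
    · have h3 : ∀ b ∈ Finset.univ.filter (fun h => IsConj g h),
          (Finset.univ.filter (fun z : G => z * g * z⁻¹ = b)).card = c := by
        intro b hb
        rw [Finset.mem_filter, isConj_iff] at hb
        obtain ⟨_, y, hy⟩ := hb
        rw [← hy]
        exact hfib y
      rw [Finset.sum_congr rfl h3, Finset.sum_const, smul_eq_mul]
      rfl
    · intro z _
      rw [Finset.mem_coe, Finset.mem_filter]
      exact ⟨Finset.mem_univ _, isConj_iff.2 ⟨z, rfl⟩⟩
  rw [Finset.sum_congr rfl fun y _ => h1 y, Finset.sum_const, Finset.card_univ, nsmul_eq_mul]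
  have h3 : (Fintype.card G : ℂ) = cls g * c := by exact_mod_cast h2
  rw [sq]
  nth_rewrite 3 [h3]
  ring

end RegAux

theorem exists_family (G : Type) [Group G] [Fintype G] :
    ∃ (N : ℕ) (U : Fin N → FDRep ℂ G), (∀ i, Simple (U i)) ∧
      ∑ i, finrank ℂ (U i) = Fintype.card G ∧
      ∀ g : G, ∑ i, (U i).character g * (U i).character g⁻¹ / finrank ℂ (U i) =
        (Fintype.card G : ℂ) / cls g := by
  classical
  obtain ⟨N, U, h1, h2, h3⟩ := reg_decomp (Fintype.card G) (G → ℂ) (regRep G)
    (by rw [Module.finrank_fintype_fun_eq_card])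
  refine ⟨N, U, fun i => (h1 i).1, h2, ?_⟩
  intro g
  have hG : (Fintype.card G : ℂ) ≠ 0 := by exact_mod_cast Fintype.card_ne_zero
  have hcls : (cls g : ℂ) ≠ 0 := by
    have : 0 < cls g := Finset.card_pos.2 ⟨g, by
      rw [Finset.mem_filter]
      exact ⟨Finset.mem_univ _, IsConj.refl g⟩⟩
    exact_mod_cast this.ne'
  have h4 : (Fintype.card G : ℂ) ^ 2 *
      ∑ i, (U i).character g * (U i).character g⁻¹ / finrank ℂ (U i) =
      Fintype.card G * ∑ y : G, ∑ z : G,
        (if y * g * y⁻¹ * (z * g⁻¹ * z⁻¹) = 1 then (1 : ℂ) else 0) := by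
    rw [Finset.mul_sum]
    have h5 : ∀ i, (Fintype.card G : ℂ) ^ 2 *
        ((U i).character g * (U i).character g⁻¹ / finrank ℂ (U i)) =
        ∑ y : G, ∑ z : G, (U i).character (y * g * y⁻¹ * (z * g⁻¹ * z⁻¹)) := fun i =>
      (reg_irr (U i).ρ (h1 i).2 g).symm
    rw [Finset.sum_congr rfl fun i _ => h5 i, Finset.sum_comm, Finset.mul_sum]
    refine Finset.sum_congr rfl fun y _ => ?_
    rw [Finset.sum_comm, Finset.mul_sum]
    refine Finset.sum_congr rfl fun z _ => ?_
    rw [h3, regRep_char, mul_ite, mul_one, mul_zero]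
  have h6 := reg_count g
  rw [eq_div_iff hcls]
  have h7 : (Fintype.card G : ℂ) ^ 2 *
      ((∑ i, (U i).character g * (U i).character g⁻¹ / finrank ℂ (U i)) * cls g) =
      (Fintype.card G : ℂ) ^ 2 * Fintype.card G := by
    rw [← mul_assoc, h4, mul_assoc, h6]
    ring
  exact mul_left_cancel₀ (pow_ne_zero 2 hG) h7

end Pool.Agent.Helper1.TS
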