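import Pool.Agent.Helper1.TS.CLS

/-!
BLOCK TS-SQ (about 150 lines). Section 7.

Proofs in words.
* `card_sq_pairs`: `(a, b) ↦ (a, u)`, `u = b a⁻¹`: `a² = b²` iff `a u a⁻¹ = u⁻¹` (`b = u a`, `b² = u a u a = a²` iff `u a u = a`). For
  each `u` the set of `a` with `a u a⁻¹ = u⁻¹` is empty or a coset of the centralizer of `u`, so there are at most
  `#{a : a u = u a}` of them; sum over `u`: the number of commuting pairs, `|G| * #classes`
  (`card_comm_eq_card_conjClasses_mul_card`).
* `sq_sum_le`: group the pairs by `Y = {x | a x = x ∧ b x = x}`, `|Y| = y`; then `|supp a| + |supp b| ≥ n - y`. The pairs with given `Y` inject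
  into the pairs of permutations of the complement (`≃ Fin (n - y)`) with `a² = b²`, at most `(n-y)! * 2^(n-y)` of
  them by `card_sq_pairs` and `card_classes_le` (`2^m + 1 ≤ 2 * 2^m`). So the sum is at most
  `∑_y C(n,y) (n-y)! 2^(n-y) 8^(-(n-y)) = n! 4^(-n) ∑_y 4^y / y! ≤ e^4 n! 4^(-n)`.
-/

set_option autoImplicit false

open Equiv

namespace Pool.Agent.Helper1.TS

private theorem fiber_le (G : Type*) [Group G] [Fintype G] [DecidableEq G] (u : G) :
    (Finset.univ.filter (fun a : G => a ^ 2 = (u * a) ^ 2)).card ≤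
      (Finset.univ.filter (fun c : G => c * u = u * c)).card := by
  classical
  have key : ∀ a : G, a ^ 2 = (u * a) ^ 2 → a * u * a⁻¹ = u⁻¹ := by
    intro a ha
    have h1 : a = u * a * u := by
      have h2 : a * a = (u * a * u) * a := by
        calc a * a = a ^ 2 := (sq a).symm
          _ = (u * a) ^ 2 := ha
          _ = (u * a * u) * a := by rw [sq]; group
      exact mul_right_cancel h2
    have h3 : u⁻¹ * a = a * u := by
      calc u⁻¹ * a = u⁻¹ * (u * a * u) := by rw [← h1]
        _ = a * u := by group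
    rw [← h3]
    group
  rcases (Finset.univ.filter (fun a : G => a ^ 2 = (u * a) ^ 2)).eq_empty_or_nonempty with h | ⟨a₀, h₀⟩
  · rw [h, Finset.card_empty]; exact Nat.zero_le _
  · have ha₀ := key a₀ (Finset.mem_filter.mp h₀).2
    refine Finset.card_le_card_of_injOn (fun a => a₀⁻¹ * a) ?_ ?_
    · intro a ha
      have ha1 := key a (Finset.mem_filter.mp (Finset.mem_coe.mp ha)).2
      refine Finset.mem_coe.mpr (Finset.mem_filter.mpr ⟨Finset.mem_univ _, ?_⟩)
      have h4 : a * u * a⁻¹ = a₀ * u * a₀⁻¹ := ha1.trans ha₀.symm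
      have h5 : a * u = a₀ * u * a₀⁻¹ * a := by
        rw [← h4]; group
      calc a₀⁻¹ * a * u = a₀⁻¹ * (a * u) := by group
        _ = a₀⁻¹ * (a₀ * u * a₀⁻¹ * a) := by rw [h5]
        _ = u * (a₀⁻¹ * a) := by group
    · intro a _ b _ hab
      exact mul_left_cancel hab

theorem card_sq_pairs (G : Type*) [Group G] [Fintype G] [DecidableEq G] :
    (Finset.univ.filter (fun p : G × G => p.1 ^ 2 = p.2 ^ 2)).card ≤
      Nat.card (ConjClasses G) * Fintype.card G := by
  classical
  have h1 : (Finset.univ.filter (fun p : G × G => p.1 ^ 2 = p.2 ^ 2)).card =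
      ∑ u : G, (Finset.univ.filter (fun a : G => a ^ 2 = (u * a) ^ 2)).card := by
    rw [Finset.card_eq_sum_card_fiberwise (f := fun p : G × G => p.2 * p.1⁻¹)
      (t := Finset.univ) (fun _ _ => Finset.mem_coe.mpr (Finset.mem_univ _))]
    refine Finset.sum_congr rfl fun u _ => ?_
    refine Finset.card_bij (fun p _ => p.1) ?_ ?_ ?_
    · intro p hp
      obtain ⟨hp1, hp2⟩ := Finset.mem_filter.mp hp
      have hp3 := (Finset.mem_filter.mp hp1).2
      refine Finset.mem_filter.mpr ⟨Finset.mem_univ _, ?_⟩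
      have h6 : p.2 = u * p.1 := by rw [← hp2]; group
      rw [hp3, h6]
    · intro p hp q hq hpq
      obtain ⟨_, hp2⟩ := Finset.mem_filter.mp hp
      obtain ⟨_, hq2⟩ := Finset.mem_filter.mp hq
      have h6 : p.2 = u * p.1 := by rw [← hp2]; group
      have h7 : q.2 = u * q.1 := by rw [← hq2]; group
      exact Prod.ext hpq (by rw [h6, h7, hpq])
    · intro a ha
      refine ⟨(a, u * a), Finset.mem_filter.mpr ⟨Finset.mem_filter.mpr ⟨Finset.mem_univ _, ?_⟩, ?_⟩, rfl⟩
      · exact (Finset.mem_filter.mp ha).2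
      · change u * a * a⁻¹ = u
        group
  have h2 : ∑ u : G, (Finset.univ.filter (fun c : G => c * u = u * c)).card =
      Nat.card (ConjClasses G) * Fintype.card G := by
    rw [← Nat.card_eq_fintype_card, ← card_comm_eq_card_conjClasses_mul_card,
      Nat.card_eq_fintype_card, Fintype.card_subtype]
    rw [Finset.card_eq_sum_card_fiberwise (f := fun p : G × G => p.2)
      (t := Finset.univ) (fun _ _ => Finset.mem_coe.mpr (Finset.mem_univ _))]
    refine Finset.sum_congr rfl fun u _ => ?_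
    refine Finset.card_bij (fun c _ => (c, u)) ?_ ?_ ?_
    · intro c hc
      exact Finset.mem_filter.mpr ⟨Finset.mem_filter.mpr
        ⟨Finset.mem_univ _, (Finset.mem_filter.mp hc).2⟩, rfl⟩
    · intro a _ b _ hab
      exact congrArg Prod.fst hab
    · intro p hp
      obtain ⟨hp1, hp2⟩ := Finset.mem_filter.mp hp
      refine ⟨p.1, Finset.mem_filter.mpr ⟨Finset.mem_univ _, ?_⟩, Prod.ext rfl hp2.symm⟩
      have := (Finset.mem_filter.mp hp1).2
      rw [← hp2]
      exact this
  rw [h1, ← h2]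
  exact Finset.sum_le_sum fun u _ => fiber_le G u

private theorem pairs_in (n : ℕ) (U : Finset (Fin n)) :
    (Finset.univ.filter (fun p : Perm (Fin n) × Perm (Fin n) => p.1 ^ 2 = p.2 ^ 2 ∧
      p.1.support ∪ p.2.support = U)).card ≤ 2 ^ U.card * U.card.factorial := by
  classical
  let φ : Perm (Fin U.card) →* Perm (Fin n) :=
    (Perm.ofSubtype : Perm {x // x ∈ U} →* Perm (Fin n)).comp
      (U.equivFin.symm.permCongrHom.toMonoidHom)
  have hφinj : Function.Injective φ :=
    (Perm.ofSubtype_injective).comp (U.equivFin.symm.permCongrHom.injective)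
  have hφsur : ∀ a : Perm (Fin n), a.support ⊆ U → ∃ a', φ a' = a := by
    intro a ha
    have h1 : ∀ x, a x ∈ U ↔ x ∈ U := by
      intro x
      by_cases hx : a x = x
      · rw [hx]
      · have h2 : x ∈ U := ha (Perm.mem_support.mpr hx)
        have h3 : a x ∈ U := ha (Perm.apply_mem_support.mpr (Perm.mem_support.mpr hx))
        exact ⟨fun _ => h2, fun _ => h3⟩
    have h2 : ∀ x, a x ≠ x → x ∈ U := fun x hx => ha (Perm.mem_support.mpr hx)
    refine ⟨U.equivFin.symm.permCongrHom.symm (a.subtypePerm h1), ?_⟩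
    change Perm.ofSubtype (U.equivFin.symm.permCongrHom
      (U.equivFin.symm.permCongrHom.symm (a.subtypePerm h1))) = a
    rw [MulEquiv.apply_symm_apply]
    exact Perm.ofSubtype_subtypePerm h1 h2
  have hsub : (Finset.univ.filter (fun p : Perm (Fin n) × Perm (Fin n) => p.1 ^ 2 = p.2 ^ 2 ∧
      p.1.support ∪ p.2.support = U)) ⊆
      (Finset.univ.filter (fun p : Perm (Fin U.card) × Perm (Fin U.card) =>
        p.1 ^ 2 = p.2 ^ 2)).image (fun p => (φ p.1, φ p.2)) := by
    intro p hp
    obtain ⟨hp1, hp2⟩ := (Finset.mem_filter.mp hp).2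
    obtain ⟨a, ha⟩ := hφsur p.1 (by rw [← hp2]; exact Finset.subset_union_left)
    obtain ⟨b, hb⟩ := hφsur p.2 (by rw [← hp2]; exact Finset.subset_union_right)
    refine Finset.mem_image.mpr ⟨(a, b), Finset.mem_filter.mpr ⟨Finset.mem_univ _, ?_⟩,
      Prod.ext ha hb⟩
    apply hφinj
    change φ (a ^ 2) = φ (b ^ 2)
    rw [map_pow, map_pow, ha, hb, hp1]
  have hc := card_classes_le U.card
  have h3 : Nat.card (ConjClasses (Perm (Fin U.card))) ≤ 2 ^ U.card := by
    have : 1 ≤ 2 ^ U.card := Nat.one_le_two_pow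
    omega
  calc _ ≤ _ := Finset.card_le_card hsub
    _ ≤ _ := Finset.card_image_le
    _ ≤ _ := card_sq_pairs (Perm (Fin U.card))
    _ ≤ 2 ^ U.card * U.card.factorial := by
      rw [Fintype.card_perm, Fintype.card_fin]
      exact Nat.mul_le_mul_right _ h3

theorem sq_sum_le (n : ℕ) :
    ∑ p ∈ Finset.univ.filter (fun p : Perm (Fin n) × Perm (Fin n) => p.1 ^ 2 = p.2 ^ 2),
      (1 / 8 : ℝ) ^ (p.1.support.card + p.2.support.card) ≤
        Real.exp 4 * n.factorial * (1 / 4) ^ n := by
  classical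
  have h1 : ∑ p ∈ Finset.univ.filter (fun p : Perm (Fin n) × Perm (Fin n) => p.1 ^ 2 = p.2 ^ 2),
      (1 / 8 : ℝ) ^ (p.1.support.card + p.2.support.card) ≤
      ∑ U : Finset (Fin n), (1 / 4 : ℝ) ^ U.card * U.card.factorial := by
    rw [← Finset.sum_fiberwise_of_maps_to (t := (Finset.univ : Finset (Finset (Fin n))))
      (g := fun p : Perm (Fin n) × Perm (Fin n) => p.1.support ∪ p.2.support)
      (fun _ _ => Finset.mem_univ _)]
    refine Finset.sum_le_sum fun U _ => ?_
    have h2 : ∀ p ∈ (Finset.univ.filter (fun p : Perm (Fin n) × Perm (Fin n) =>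
        p.1 ^ 2 = p.2 ^ 2)).filter (fun p => p.1.support ∪ p.2.support = U),
        (1 / 8 : ℝ) ^ (p.1.support.card + p.2.support.card) ≤ (1 / 8 : ℝ) ^ U.card := by
      intro p hp
      refine pow_le_pow_of_le_one (by norm_num) (by norm_num) ?_
      rw [← (Finset.mem_filter.mp hp).2]
      exact Finset.card_union_le _ _
    refine (Finset.sum_le_card_nsmul _ _ _ h2).trans ?_
    rw [nsmul_eq_mul]
    have h3 : (((Finset.univ.filter (fun p : Perm (Fin n) × Perm (Fin n) =>
        p.1 ^ 2 = p.2 ^ 2)).filter (fun p => p.1.support ∪ p.2.support = U)).card : ℝ) ≤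
        2 ^ U.card * U.card.factorial := by
      have h4 := pairs_in n U
      rw [Finset.filter_filter]
      exact_mod_cast h4
    calc _ ≤ (2 ^ U.card * U.card.factorial : ℝ) * (1 / 8) ^ U.card :=
          mul_le_mul_of_nonneg_right h3 (by positivity)
      _ = (1 / 4 : ℝ) ^ U.card * U.card.factorial := by
          have : (1 / 4 : ℝ) ^ U.card = 2 ^ U.card * (1 / 8) ^ U.card := by
            rw [← mul_pow]; norm_num
          rw [this]; ring
  refine h1.trans ?_
  have h5 : ∑ U : Finset (Fin n), (1 / 4 : ℝ) ^ U.card * U.card.factorial =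
      ∑ m ∈ Finset.range (n + 1), (n.choose m : ℝ) * ((1 / 4 : ℝ) ^ m * m.factorial) := by
    rw [← Finset.powerset_univ, Finset.sum_powerset_apply_card
      (fun m => (1 / 4 : ℝ) ^ m * m.factorial), Finset.card_univ, Fintype.card_fin]
    simp only [nsmul_eq_mul]
  rw [h5, ← Finset.sum_range_reflect]
  have h6 : ∀ m ∈ Finset.range (n + 1), (n.choose (n + 1 - 1 - m) : ℝ) *
      ((1 / 4 : ℝ) ^ (n + 1 - 1 - m) * (n + 1 - 1 - m).factorial) =
      n.factorial * (1 / 4) ^ n * ((4 : ℝ) ^ m / m.factorial) := by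
    intro m hm
    have hm' : m ≤ n := Nat.lt_succ_iff.mp (Finset.mem_range.mp hm)
    have h7 : n + 1 - 1 - m = n - m := by omega
    rw [h7, Nat.choose_symm hm']
    have h8 : (n.choose m : ℝ) * m.factorial * (n - m).factorial = n.factorial := by
      exact_mod_cast Nat.choose_mul_factorial_mul_factorial hm'
    have h9 : (1 / 4 : ℝ) ^ (n - m) = (1 / 4) ^ n * 4 ^ m := by
      have : (1 / 4 : ℝ) ^ n = (1 / 4) ^ (n - m) * (1 / 4) ^ m := by
        rw [← pow_add]; congr 1; omega
      rw [this, mul_assoc, ← mul_pow]; norm_num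
    have h10 : (m.factorial : ℝ) ≠ 0 := by exact_mod_cast Nat.factorial_ne_zero m
    rw [← h8, h9]
    field_simp
  rw [Finset.sum_congr rfl h6, ← Finset.mul_sum]
  have h11 := Real.sum_le_exp_of_nonneg (x := 4) (by norm_num) (n + 1)
  calc _ ≤ (n.factorial : ℝ) * (1 / 4) ^ n * Real.exp 4 :=
        mul_le_mul_of_nonneg_left h11 (by positivity)
    _ = _ := by ring

end Pool.Agent.Helper1.TS
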